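import Pool.Agent.Y940.CH.Fin
/-!
# The number of sets of given cardinality with bounded representation function
-/

set_option autoImplicit false

open Finset Filter MeasureTheory ProbabilityTheory

namespace Pool.Agent.Y940.CH

open Pool.Agent.Y940.CT (RCov count seg count_eq choose_mul_pow_le)

theorem card_bound (h K : ℕ) (hh : 2 ≤ h) : ∃ C : ℝ, 1 ≤ C ∧ ∀ (N : ℕ) (B : Set ℕ), 1 ≤ N →
    B ⊆ Set.Iic N → (∀ n, rep B h n ≤ K) → (B.ncard : ℝ) ≤ C * (N : ℝ) ^ (1 / (h : ℝ)) := by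
  classical
  obtain ⟨_, _, hcount, _, _⟩ := Forms.main
  obtain ⟨C₂, hC₂, hcnt⟩ := hcount h K hh
  refine ⟨2 * C₂ + 1, by linarith, ?_⟩
  intro N B hN hB hK
  have hN1 : (1 : ℝ) ≤ N := by exact_mod_cast hN
  have hh0 : (0 : ℝ) < h := by exact_mod_cast (by omega : 0 < h)
  have h1 := hcnt B hK N
  have h2 : (B.ncard : ℝ) ≤ count B N + 1 := by
    have h3 : B.ncard ≤ (B ∩ Set.Icc 1 N).ncard + 1 := by
      have h4 : B ⊆ insert 0 (B ∩ Set.Icc 1 N) := by
        intro x hx
        rcases Nat.eq_zero_or_pos x with h5 | h5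
        · exact Or.inl h5
        · exact Or.inr ⟨hx, h5, hB hx⟩
      have hfin : (B ∩ Set.Icc 1 N).Finite := (Set.finite_Icc 1 N).subset Set.inter_subset_right
      exact (Set.ncard_le_ncard h4 (hfin.insert 0)).trans (Set.ncard_insert_le _ _)
    unfold count
    exact_mod_cast h3
  have h9 : (1 : ℝ) ≤ (N : ℝ) ^ (1 / (h : ℝ)) := Real.one_le_rpow hN1 (by positivity)
  have h8 : ((N : ℝ) + 1) ^ (1 / (h : ℝ)) ≤ 2 * (N : ℝ) ^ (1 / (h : ℝ)) := by
    calc ((N : ℝ) + 1) ^ (1 / (h : ℝ)) ≤ (2 * (N : ℝ)) ^ (1 / (h : ℝ)) :=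
          Real.rpow_le_rpow (by linarith) (by linarith) (by positivity)
      _ = 2 ^ (1 / (h : ℝ)) * (N : ℝ) ^ (1 / (h : ℝ)) := Real.mul_rpow (by norm_num) (by linarith)
      _ ≤ 2 * (N : ℝ) ^ (1 / (h : ℝ)) := by
          refine mul_le_mul_of_nonneg_right ?_ (by linarith)
          nth_rewrite 2 [← Real.rpow_one (2 : ℝ)]
          refine Real.rpow_le_rpow_of_exponent_le (by norm_num) ?_
          rw [div_le_one hh0]
          exact_mod_cast (by omega : 1 ≤ h)
  calc (B.ncard : ℝ) ≤ C₂ * ((N : ℝ) + 1) ^ (1 / (h : ℝ)) + 1 := by linarith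
    _ ≤ C₂ * (2 * (N : ℝ) ^ (1 / (h : ℝ))) + (N : ℝ) ^ (1 / (h : ℝ)) :=
        add_le_add (mul_le_mul_of_nonneg_left h8 hC₂.le) h9
    _ = (2 * C₂ + 1) * (N : ℝ) ^ (1 / (h : ℝ)) := by ring

theorem counting_card (h K : ℕ) (hh : 2 ≤ h) : ∃ κ : ℝ, 0 < κ ∧ ∃ C : ℝ, 0 < C ∧
    ∀ N t : ℕ, 1 ≤ N → (N : ℝ) ^ (1 / (h : ℝ) - κ) ≤ t →
      (({B : Set ℕ | B ⊆ Set.Iic N ∧ B.ncard = t ∧ ∀ n, rep B h n ≤ K}.ncard : ℕ) : ℝ) ≤
        (C * N / (t : ℝ) ^ h) ^ t := by
  classical
  obtain ⟨C₀, hC₀, hcont⟩ := cont_main h (K + 1) hh (by omega)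
  obtain ⟨_, hfree, _, _, _⟩ := Forms.main
  obtain ⟨C₁, hC₁, htot⟩ := counting h K hh
  obtain ⟨C₂, hC₂, hcard⟩ := card_bound h K hh
  have hh0 : (0 : ℝ) < h := by exact_mod_cast (by omega : 0 < h)
  set e : ℝ := 1 / (4 * ((K + 1 : ℕ) : ℝ) ^ 2 * (h : ℝ) ^ 2) with he
  have he0 : 0 < e := by positivity
  refine ⟨e / h, by positivity, max (Real.exp (C₀ + C₀)) (Real.exp C₁ * C₂ ^ h),
    lt_max_of_lt_left (Real.exp_pos _), ?_⟩
  intro N t hN ht
  set C : ℝ := max (Real.exp (C₀ + C₀)) (Real.exp C₁ * C₂ ^ h) with hC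
  have hN1 : (1 : ℝ) ≤ N := by exact_mod_cast hN
  have hN0 : (0 : ℝ) < N := by linarith
  have ht0 : (0 : ℝ) < t := lt_of_lt_of_le (by positivity) ht
  by_cases hcase : (t : ℝ) ^ h ≤ N
  · -- the main case
    set ρ : ℝ := (t : ℝ) ^ h / N with hρ
    have hρ0 : 0 < ρ := by positivity
    have hρ1 : ρ ≤ 1 := by
      rw [hρ, div_le_one hN0]
      exact hcase
    have hρN : ρ * N = (t : ℝ) ^ h := by
      rw [hρ]
      field_simp
    have hroot : (ρ * N) ^ (1 / (h : ℝ)) = t := by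
      rw [hρN, ← Real.rpow_natCast, ← Real.rpow_mul ht0.le, mul_one_div, div_self hh0.ne',
        Real.rpow_one]
    have hρe : (N : ℝ) ^ (-e) ≤ ρ := by
      rw [hρ, le_div_iff₀ hN0]
      calc (N : ℝ) ^ (-e) * N = ((N : ℝ) ^ (1 / (h : ℝ) - e / h)) ^ h := by
            rw [← Real.rpow_natCast ((N : ℝ) ^ (1 / (h : ℝ) - e / h)), ← Real.rpow_mul hN0.le]
            nth_rewrite 2 [← Real.rpow_one (N : ℝ)]
            rw [← Real.rpow_add hN0]
            congr 1
            field_simp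
            ring
        _ ≤ (t : ℝ) ^ h := pow_le_pow_left₀ (by positivity) ht h
    obtain ⟨ι, s, T, D, h1, h2, h3⟩ := hcont N hN ρ hρe hρ1
    rw [hroot] at h1 h2
    set s' : Finset ι := s.filter fun i => (T i).card ≤ t with hs'
    set SS : Finset (Set ℕ) := s'.biUnion fun i => ((D i).powersetCard (t - (T i).card)).image
      fun A => ((T i ∪ A : Finset ℕ) : Set ℕ) with hSS
    have hsub : {B : Set ℕ | B ⊆ Set.Iic N ∧ B.ncard = t ∧ ∀ n, rep B h n ≤ K} ⊆
        (SS : Set (Set ℕ)) := by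
      rintro B ⟨hB1, hBt, hB2⟩
      have hfin : B.Finite := (Set.finite_Iic N).subset hB1
      set I : Finset ℕ := hfin.toFinset with hI
      have hIB : (I : Set ℕ) = B := hfin.coe_toFinset
      have hIt : I.card = t := by
        rw [← hBt, ← hIB, Set.ncard_coe_finset]
      obtain ⟨i, hi, h4, h5⟩ := h3 I (empty_subset _) ⟨fun x hx => by
        rw [mem_range]
        have : x ∈ Set.Iic N := hB1 (hfin.mem_toFinset.1 hx)
        have h6 : x ≤ N := this
        omega, hfree B h K hB2 I fun x hx => hfin.mem_toFinset.1 hx⟩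
      rw [mem_coe, hSS, mem_biUnion]
      refine ⟨i, ?_, ?_⟩
      · rw [hs', mem_filter]
        exact ⟨hi, hIt ▸ card_le_card h4⟩
      rw [mem_image]
      refine ⟨I \ T i, ?_, ?_⟩
      · rw [mem_powersetCard]
        refine ⟨?_, ?_⟩
        · intro x hx
          obtain ⟨h6, h7⟩ := mem_sdiff.1 hx
          rcases mem_union.1 (h5 h6) with h8 | h8
          · exact absurd h8 h7
          · exact h8
        · rw [card_sdiff_of_subset h4, hIt]
      · rw [union_sdiff_of_subset h4, hIB]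
    have hterm : ∀ i ∈ s', (((D i).powersetCard (t - (T i).card)).card : ℝ) ≤
        ρ ^ (T i \ ∅).card * ((1 / ρ) ^ t * Real.exp (C₀ * t)) := by
      intro i hi
      rw [hs', mem_filter] at hi
      rw [card_powersetCard, sdiff_empty]
      have h4 := choose_mul_pow_le hρ0.le (D i).card (t - (T i).card)
      have h5 : (1 + ρ) ^ (D i).card ≤ Real.exp (C₀ * t) := by
        calc (1 + ρ) ^ (D i).card ≤ (Real.exp ρ) ^ (D i).card := by
              refine pow_le_pow_left₀ (by linarith) ?_ _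
              have := Real.add_one_le_exp ρ
              linarith
          _ = Real.exp ((D i).card * ρ) := by rw [← Real.exp_nat_mul]
          _ ≤ Real.exp (C₀ * t) := by
              refine Real.exp_le_exp.2 ?_
              have h6 := (h2 i hi.1).2.2.2.2
              rw [le_div_iff₀ hρ0] at h6
              exact h6
      have h6 : ρ ^ (t - (T i).card) * (ρ ^ (T i).card * (1 / ρ) ^ t) = 1 := by
        rw [← mul_assoc, ← pow_add]
        have h7 : t - (T i).card + (T i).card = t := by omega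
        rw [h7, ← mul_pow, mul_one_div, div_self hρ0.ne', one_pow]
      have h8 : 0 < ρ ^ (T i).card * (1 / ρ) ^ t := by positivity
      calc (((D i).card.choose (t - (T i).card) : ℕ) : ℝ)
          = (((D i).card.choose (t - (T i).card) : ℕ) : ℝ) *
              (ρ ^ (t - (T i).card) * (ρ ^ (T i).card * (1 / ρ) ^ t)) := by rw [h6, mul_one]
        _ = ((((D i).card.choose (t - (T i).card) : ℕ) : ℝ) * ρ ^ (t - (T i).card)) *
              (ρ ^ (T i).card * (1 / ρ) ^ t) := by ring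
        _ ≤ Real.exp (C₀ * t) * (ρ ^ (T i).card * (1 / ρ) ^ t) :=
            mul_le_mul_of_nonneg_right (h4.trans h5) h8.le
        _ = _ := by ring
    have hSScard : (SS.card : ℝ) ≤ Real.exp (C₀ * t) * ((1 / ρ) ^ t * Real.exp (C₀ * t)) := by
      have h4 : (SS.card : ℝ) ≤
          ∑ i ∈ s', (((D i).powersetCard (t - (T i).card)).card : ℝ) := by
        have h5 : SS.card ≤ ∑ i ∈ s', ((D i).powersetCard (t - (T i).card)).card := by
          rw [hSS]
          exact card_biUnion_le.trans (sum_le_sum fun i _ => card_image_le)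
        exact_mod_cast h5
      refine h4.trans ((sum_le_sum hterm).trans ?_)
      rw [← sum_mul]
      refine mul_le_mul_of_nonneg_right ?_ (by positivity)
      exact (sum_le_sum_of_subset_of_nonneg (filter_subset _ _) fun i _ _ => by positivity).trans h1
    have h4 : (({B : Set ℕ | B ⊆ Set.Iic N ∧ B.ncard = t ∧ ∀ n, rep B h n ≤ K}.ncard : ℕ) : ℝ) ≤
        (SS.card : ℝ) := by
      rw [← Set.ncard_coe_finset SS]
      exact_mod_cast Set.ncard_le_ncard hsub (finite_toSet SS)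
    refine h4.trans (hSScard.trans ?_)
    have h5 : Real.exp (C₀ * t) * ((1 / ρ) ^ t * Real.exp (C₀ * t)) =
        (Real.exp (C₀ + C₀) * (1 / ρ)) ^ t := by
      have h6 : Real.exp (C₀ * t) = Real.exp C₀ ^ t := by
        rw [← Real.exp_nat_mul, mul_comm]
      rw [h6, Real.exp_add, mul_pow, mul_pow]
      ring
    rw [h5]
    refine pow_le_pow_left₀ (by positivity) ?_ t
    have h6 : C * N / (t : ℝ) ^ h = C * (1 / ρ) := by
      rw [hρ]
      field_simp
    rw [h6]
    exact mul_le_mul_of_nonneg_right (le_max_left _ _) (by positivity)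
  · push Not at hcase
    have hNt : (N : ℝ) ^ (1 / (h : ℝ)) ≤ t := by
      calc (N : ℝ) ^ (1 / (h : ℝ)) ≤ ((t : ℝ) ^ h) ^ (1 / (h : ℝ)) :=
            Real.rpow_le_rpow hN0.le hcase.le (by positivity)
        _ = t := by
            rw [← Real.rpow_natCast, ← Real.rpow_mul ht0.le, mul_one_div, div_self hh0.ne',
              Real.rpow_one]
    have hC0 : 0 < C := lt_max_of_lt_left (Real.exp_pos _)
    by_cases hbig : (t : ℝ) ≤ C₂ * (N : ℝ) ^ (1 / (h : ℝ))
    · have h1 : (({B : Set ℕ | B ⊆ Set.Iic N ∧ B.ncard = t ∧ ∀ n, rep B h n ≤ K}.ncard : ℕ) : ℝ) ≤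
          ({B : Set ℕ | B ⊆ Set.Iic N ∧ ∀ n, rep B h n ≤ K}.ncard : ℕ) := by
        have hfin : {B : Set ℕ | B ⊆ Set.Iic N ∧ ∀ n, rep B h n ≤ K}.Finite :=
          ((Set.finite_Iic N).finite_subsets).subset fun B hB => hB.1
        have hsub : {B : Set ℕ | B ⊆ Set.Iic N ∧ B.ncard = t ∧ ∀ n, rep B h n ≤ K} ⊆
            {B : Set ℕ | B ⊆ Set.Iic N ∧ ∀ n, rep B h n ≤ K} := fun B hB => ⟨hB.1, hB.2.2⟩
        exact_mod_cast Set.ncard_le_ncard hsub hfin
      refine h1.trans ((htot N hN).trans ?_)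
      calc Real.exp (C₁ * (N : ℝ) ^ (1 / (h : ℝ))) ≤ Real.exp (C₁ * t) :=
            Real.exp_le_exp.2 (mul_le_mul_of_nonneg_left hNt hC₁.le)
        _ = Real.exp C₁ ^ t := by
            rw [← Real.exp_nat_mul, mul_comm]
        _ ≤ (C * N / (t : ℝ) ^ h) ^ t := by
            refine pow_le_pow_left₀ (Real.exp_pos _).le ?_ t
            rw [le_div_iff₀ (by positivity)]
            have h2 : (t : ℝ) ^ h ≤ C₂ ^ h * N := by
              calc (t : ℝ) ^ h ≤ (C₂ * (N : ℝ) ^ (1 / (h : ℝ))) ^ h :=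
                    pow_le_pow_left₀ ht0.le hbig h
                _ = C₂ ^ h * N := by
                    rw [mul_pow, ← Real.rpow_natCast ((N : ℝ) ^ (1 / (h : ℝ))),
                      ← Real.rpow_mul hN0.le, one_div, inv_mul_cancel₀ hh0.ne', Real.rpow_one]
            calc Real.exp C₁ * (t : ℝ) ^ h ≤ Real.exp C₁ * (C₂ ^ h * N) :=
                  mul_le_mul_of_nonneg_left h2 (Real.exp_pos _).le
              _ = (Real.exp C₁ * C₂ ^ h) * N := by ring
              _ ≤ C * N := mul_le_mul_of_nonneg_right (le_max_right _ _) hN0.le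
    · push Not at hbig
      have h1 : {B : Set ℕ | B ⊆ Set.Iic N ∧ B.ncard = t ∧ ∀ n, rep B h n ≤ K} = ∅ := by
        rw [Set.eq_empty_iff_forall_notMem]
        rintro B ⟨hB1, hB2, hB3⟩
        have h2 := hcard N B hN hB1 hB3
        rw [hB2] at h2
        linarith
      rw [h1, Set.ncard_empty, Nat.cast_zero]
      positivity

end Pool.Agent.Y940.CH
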