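import Pool.Agent.Y940.CH.Stm2

/-!
# RH2-CYL: conditioning on a finite part of a random set (helper872)
-/

set_option autoImplicit false

open Finset Filter MeasureTheory ProbabilityTheory

namespace Pool.Agent.Y940.CH

open Pool.Agent.Y940.RS (rset)

universe u

namespace Cyl

variable {Ω : Type u}

open Classical in
/-- the elements up to `N` of the random set -/
noncomputable def patt (E : ℕ → Set Ω) (N : ℕ) (ω : Ω) : Finset ℕ :=
  (range (N + 1)).filter fun a => ω ∈ E a

theorem mem_patt {E : ℕ → Set Ω} {N : ℕ} {ω : Ω} {a : ℕ} :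
    a ∈ patt E N ω ↔ a ≤ N ∧ ω ∈ E a := by
  classical
  unfold patt
  rw [mem_filter, mem_range, Nat.lt_succ_iff]

theorem patt_mem (E : ℕ → Set Ω) (N : ℕ) (ω : Ω) : patt E N ω ∈ (range (N + 1)).powerset := by
  classical
  unfold patt
  rw [mem_powerset]
  exact filter_subset _ _

/-- the cylinder with a given pattern is measurable -/
theorem meas_patt (m : MeasurableSpace Ω) (E : ℕ → Set Ω) (N : ℕ)
    (hE : ∀ n ≤ N, MeasurableSet[m] (E n)) (A : Finset ℕ) :
    MeasurableSet[m] (patt E N ⁻¹' {A}) := by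
  by_cases hA : A ⊆ range (N + 1)
  · have h1 : patt E N ⁻¹' {A} = ⋂ a ∈ range (N + 1), {ω | ω ∈ E a ↔ a ∈ A} := by
      ext ω
      rw [Set.mem_preimage, Set.mem_singleton_iff, Set.mem_iInter₂]
      constructor
      · intro h a ha
        rw [Set.mem_ofPred_eq, ← h, mem_patt]
        have := Nat.lt_succ_iff.1 (mem_range.1 ha)
        exact ⟨fun h2 => ⟨this, h2⟩, fun h2 => h2.2⟩
      · intro h
        ext a
        rw [mem_patt]
        constructor
        · rintro ⟨h2, h3⟩
          exact (h a (mem_range.2 (Nat.lt_succ_iff.2 h2))).1 h3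
        · intro h2
          have h3 := hA h2
          exact ⟨Nat.lt_succ_iff.1 (mem_range.1 h3), (h a h3).2 h2⟩
    rw [h1]
    refine Finset.measurableSet_biInter _ fun a ha => ?_
    have h2 := hE a (Nat.lt_succ_iff.1 (mem_range.1 ha))
    by_cases haA : a ∈ A
    · have h3 : {ω | ω ∈ E a ↔ a ∈ A} = E a := by
        ext ω
        simp [haA]
      rw [h3]
      exact h2
    · have h3 : {ω | ω ∈ E a ↔ a ∈ A} = (E a)ᶜ := by
        ext ω
        simp [haA]
      rw [h3]
      exact h2.compl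
  · have h1 : patt E N ⁻¹' {A} = ∅ := by
      ext ω
      rw [Set.mem_preimage, Set.mem_singleton_iff]
      constructor
      · intro h
        exact absurd (h ▸ mem_powerset.1 (patt_mem E N ω)) hA
      · intro h
        exact absurd h (Set.notMem_empty _)
    rw [h1]
    exact @MeasurableSet.empty Ω m

/-- events which depend on the elements up to `N` only are measurable -/
theorem meas_fin (m : MeasurableSpace Ω) (E : ℕ → Set Ω) (N : ℕ)
    (hE : ∀ n ≤ N, MeasurableSet[m] (E n)) (Q : Set ℕ → Prop)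
    (hQ : ∀ B B' : Set ℕ, (∀ a, a ≤ N → (a ∈ B ↔ a ∈ B')) → Q B → Q B') :
    MeasurableSet[m] {ω | Q (rset E ω)} := by
  classical
  have h1 : {ω | Q (rset E ω)} =
      ⋃ A ∈ (range (N + 1)).powerset.filter (fun A : Finset ℕ => Q (A : Set ℕ)), patt E N ⁻¹' {A} := by
    ext ω
    have hp : ∀ a, a ≤ N → (a ∈ rset E ω ↔ a ∈ ((patt E N ω : Finset ℕ) : Set ℕ)) := by
      intro a ha
      rw [mem_coe, mem_patt]
      exact ⟨fun h => ⟨ha, h⟩, fun h => h.2⟩
    rw [Set.mem_ofPred_eq, Set.mem_iUnion₂]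
    constructor
    · intro h
      exact ⟨patt E N ω, mem_filter.2 ⟨patt_mem E N ω, hQ _ _ hp h⟩, rfl⟩
    · rintro ⟨A, hA, h⟩
      rw [Set.mem_preimage, Set.mem_singleton_iff] at h
      have h2 := (mem_filter.1 hA).2
      rw [← h] at h2
      exact hQ _ _ (fun a ha => (hp a ha).symm) h2
  rw [h1]
  exact Finset.measurableSet_biUnion _ fun A _ => meas_patt m E N hE A

theorem fixed_le {E : ℕ → Set Ω} {N : ℕ} {A : Finset ℕ} {a : ℕ} (h : a ≤ N) (ω : Ω) :
    ω ∈ fixed E N A a ↔ a ∈ A := by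
  unfold fixed
  rw [if_pos h]
  by_cases h2 : a ∈ A <;> simp [h2]

theorem fixed_gt {E : ℕ → Set Ω} {N : ℕ} {A : Finset ℕ} {a : ℕ} (h : ¬ a ≤ N) :
    fixed E N A a = E a := by
  unfold fixed
  rw [if_neg h]

theorem meas_fixed (m : MeasurableSpace Ω) {E : ℕ → Set Ω} {N : ℕ} {A : Finset ℕ}
    (hE : ∀ n, ¬ n ≤ N → MeasurableSet[m] (E n)) (n : ℕ) : MeasurableSet[m] (fixed E N A n) := by
  by_cases h : n ≤ N
  · unfold fixed
    rw [if_pos h]
    by_cases h2 : n ∈ A
    · rw [if_pos h2]
      exact @MeasurableSet.univ Ω m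
    · rw [if_neg h2]
      exact @MeasurableSet.empty Ω m
  · rw [fixed_gt h]
    exact hE n h

theorem rset_fixed {E : ℕ → Set Ω} {N : ℕ} {A : Finset ℕ} {ω : Ω} (h : patt E N ω = A) :
    rset (fixed E N A) ω = rset E ω := by
  ext a
  show ω ∈ fixed E N A a ↔ ω ∈ E a
  by_cases ha : a ≤ N
  · rw [fixed_le ha, ← h, mem_patt]
    exact ⟨fun h => h.2, fun h => ⟨ha, h⟩⟩
  · rw [fixed_gt ha]

theorem indep_fixed [MeasurableSpace Ω] {μ : Measure Ω} [IsProbabilityMeasure μ] {E : ℕ → Set Ω}
    (hE : ∀ n, MeasurableSet (E n)) (hi : iIndepSet E μ) (N : ℕ) (A : Finset ℕ) :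
    iIndepSet (fixed E N A) μ := by
  classical
  rw [iIndepSet_iff_meas_biInter (meas_fixed _ fun n _ => hE n)]
  intro s
  have h1 := (iIndepSet_iff_meas_biInter hE).1 hi
  by_cases h2 : ∃ a ∈ s, a ≤ N ∧ a ∉ A
  · obtain ⟨a, ha, haN, haA⟩ := h2
    have h3 : fixed E N A a = ∅ := by
      unfold fixed
      rw [if_pos haN, if_neg haA]
    have h4 : ⋂ i ∈ s, fixed E N A i = ∅ := by
      rw [Set.eq_empty_iff_forall_notMem]
      intro ω hω
      have := Set.mem_iInter₂.1 hω a ha
      rw [h3] at this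
      exact this
    rw [h4, measure_empty]
    symm
    apply prod_eq_zero ha
    rw [h3, measure_empty]
  · push Not at h2
    have h3 : ∀ a ∈ s, a ≤ N → fixed E N A a = Set.univ := by
      intro a ha haN
      unfold fixed
      rw [if_pos haN, if_pos (h2 a ha haN)]
    have h4 : ⋂ i ∈ s, fixed E N A i = ⋂ i ∈ s.filter (fun a => ¬ a ≤ N), E i := by
      ext ω
      rw [Set.mem_iInter₂, Set.mem_iInter₂]
      constructor
      · intro h i hi
        have h5 := mem_filter.1 hi
        have h6 := h i h5.1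
        rwa [fixed_gt h5.2] at h6
      · intro h i hi
        by_cases h5 : i ≤ N
        · rw [h3 i hi h5]
          exact Set.mem_univ _
        · rw [fixed_gt h5]
          exact h i (mem_filter.2 ⟨hi, h5⟩)
    rw [h4, h1, ← prod_filter_mul_prod_filter_not s (fun a => a ≤ N)]
    have h5 : ∏ x ∈ s.filter (fun a => a ≤ N), μ (fixed E N A x) = 1 := by
      refine prod_eq_one fun a ha => ?_
      have h6 := mem_filter.1 ha
      rw [h3 a h6.1 h6.2, measure_univ]
    rw [h5, one_mul]
    refine prod_congr rfl fun a ha => ?_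
    rw [fixed_gt (mem_filter.1 ha).2]

/-- decomposition according to the pattern -/
theorem real_sum [MeasurableSpace Ω] (μ : Measure Ω) [IsProbabilityMeasure μ] {E : ℕ → Set Ω}
    (hE : ∀ n, MeasurableSet (E n)) (N : ℕ) {S : Set Ω} :
    μ.real S = ∑ A ∈ (range (N + 1)).powerset, μ.real (patt E N ⁻¹' {A} ∩ S) := by
  have h1 := sum_measure_preimage_singleton (μ := μ.restrict S) (range (N + 1)).powerset
    (f := patt E N) (fun A _ => meas_patt _ E N (fun n _ => hE n) A)
  have h2 : patt E N ⁻¹' (((range (N + 1)).powerset : Finset (Finset ℕ)) : Set (Finset ℕ)) =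
      Set.univ := by
    rw [Set.eq_univ_iff_forall]
    intro ω
    exact patt_mem E N ω
  rw [h2, Measure.restrict_apply_univ] at h1
  have h3 : ∀ A ∈ (range (N + 1)).powerset, (μ.restrict S) (patt E N ⁻¹' {A}) =
      μ (patt E N ⁻¹' {A} ∩ S) := fun A _ =>
    Measure.restrict_apply (meas_patt _ E N (fun n _ => hE n) A)
  rw [sum_congr rfl h3] at h1
  unfold Measure.real
  rw [← h1, ENNReal.toReal_sum]
  intro A _
  exact measure_ne_top _ _

end Cyl

open Cyl

/-- CYL -/
theorem cyl_main : S_cyl.{u} := by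
  classical
  intro Ω _ μ _ E hE hi P hP hpos η hη
  -- the events
  have hSm : ∀ N, MeasurableSet {ω | P N (rset E ω)} := fun N =>
    meas_fin _ E N (fun n _ => hE n) (P N) (hP N)
  set GN : ℕ → Set Ω := fun N => {ω | ∀ N' ≤ N, P N' (rset E ω)} with hGN
  have hGNm : ∀ N, MeasurableSet (GN N) := by
    intro N
    have h1 : GN N = ⋂ N' ∈ range (N + 1), {ω | P N' (rset E ω)} := by
      ext ω
      rw [Set.mem_iInter₂]
      constructor
      · intro h N' hN'
        exact h N' (Nat.lt_succ_iff.1 (mem_range.1 hN'))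
      · intro h N' hN'
        exact h N' (mem_range.2 (Nat.lt_succ_iff.2 hN'))
    rw [h1]
    exact Finset.measurableSet_biInter _ fun N' _ => hSm N'
  set G : Set Ω := {ω | ∀ N, P N (rset E ω)} with hG
  have hGi : ⋂ N, GN N = G := by
    ext ω
    rw [Set.mem_iInter]
    constructor
    · intro h N
      exact h N N le_rfl
    · intro h N N' _
      exact h N'
  have hanti : Antitone GN := fun N N' hNN ω hω M hM => hω M (hM.trans hNN)
  have hlim : Tendsto (fun N => μ.real (GN N)) atTop (nhds (μ.real G)) := by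
    have h1 := tendsto_measure_iInter_atTop (μ := μ) (fun N => (hGNm N).nullMeasurableSet) hanti
      ⟨0, measure_ne_top _ _⟩
    rw [hGi] at h1
    exact (ENNReal.tendsto_toReal (measure_ne_top μ G)).comp h1
  have hGpos : 0 < μ.real G := ENNReal.toReal_pos hpos.ne' (measure_ne_top _ _)
  set η' := min η (1 / 2) with hη'
  have hη0 : 0 < η' := lt_min hη (by norm_num)
  have hη1 : η' ≤ 1 / 2 := min_le_right _ _
  have hη2 : η' ≤ η := min_le_left _ _
  have hex : ∃ N, (1 - η') * μ.real (GN N) < μ.real G := by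
    have h1 : Tendsto (fun N => (1 - η') * μ.real (GN N)) atTop (nhds ((1 - η') * μ.real G)) :=
      hlim.const_mul _
    have h2 : (1 - η') * μ.real G < μ.real G := by nlinarith
    exact ((tendsto_order.1 h1).2 _ h2).exists
  obtain ⟨N, hN⟩ := hex
  rw [real_sum μ hE N (S := GN N), real_sum μ hE N (S := G), mul_sum] at hN
  obtain ⟨A, hA, hlt⟩ := exists_lt_of_sum_lt hN
  have hpG : 0 < μ.real (patt E N ⁻¹' {A} ∩ G) :=
    lt_of_le_of_lt (mul_nonneg (by linarith) measureReal_nonneg) hlt
  have hne : (patt E N ⁻¹' {A} ∩ G).Nonempty := by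
    rw [Set.nonempty_iff_ne_empty]
    intro h
    rw [h, measureReal_empty] at hpG
    exact lt_irrefl _ hpG
  obtain ⟨ω₀, hω1, hω2⟩ := hne
  have hCsub : patt E N ⁻¹' {A} ⊆ GN N := by
    intro ω hω N' hN'
    refine hP N' (rset E ω₀) (rset E ω) (fun a ha => ?_) (hω2 N')
    have e1 : patt E N ω = patt E N ω₀ := by
      rw [Set.mem_preimage, Set.mem_singleton_iff] at hω hω1
      rw [hω, hω1]
    have e2 : a ∈ patt E N ω ↔ a ∈ patt E N ω₀ := by rw [e1]
    rw [mem_patt, mem_patt] at e2
    have haN : a ≤ N := ha.trans hN'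
    show ω₀ ∈ E a ↔ ω ∈ E a
    constructor
    · intro h
      exact (e2.2 ⟨haN, h⟩).2
    · intro h
      exact (e2.1 ⟨haN, h⟩).2
  rw [Set.inter_eq_self_of_subset_left hCsub] at hlt
  have hCpos : 0 < μ.real (patt E N ⁻¹' {A}) :=
    hpG.trans_le (measureReal_mono Set.inter_subset_left)
  refine ⟨N, A, fun a ha => ?_, meas_fixed _ fun n _ => hE n, indep_fixed hE hi N A, ?_⟩
  · refine hCpos.trans_le (measureReal_mono ?_)
    intro ω hω
    rw [Set.mem_preimage, Set.mem_singleton_iff] at hω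
    rw [← hω, mem_patt] at ha
    exact ha.2
  · set G' : Set Ω := {ω | ∀ N', P N' (rset (fixed E N A) ω)} with hG'
    have hinter : patt E N ⁻¹' {A} ∩ G = patt E N ⁻¹' {A} ∩ G' := by
      ext ω
      rw [Set.mem_inter_iff, Set.mem_inter_iff]
      refine and_congr_right fun hω => ?_
      rw [Set.mem_preimage, Set.mem_singleton_iff] at hω
      show (∀ N, P N (rset E ω)) ↔ ∀ N', P N' (rset (fixed E N A) ω)
      rw [rset_fixed hω]
    have hind := iIndepSet.indep_generateFrom_of_disjoint hE hi {n | n ≤ N} {n | ¬ n ≤ N} (by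
      rw [Set.disjoint_left]
      intro n h1 h2
      exact h2 h1)
    have hgen : ∀ (S : Set ℕ) (n : ℕ), n ∈ S →
        MeasurableSet[MeasurableSpace.generateFrom {t | ∃ n ∈ S, E n = t}] (E n) :=
      fun S n hn => MeasurableSpace.measurableSet_generateFrom ⟨n, hn, rfl⟩
    have hmC : MeasurableSet[MeasurableSpace.generateFrom {t | ∃ n ∈ {n | n ≤ N}, E n = t}]
        (patt E N ⁻¹' {A}) :=
      meas_patt _ E N (fun n hn => hgen _ n hn) A
    have hmG : MeasurableSet[MeasurableSpace.generateFrom {t | ∃ n ∈ {n | ¬ n ≤ N}, E n = t}]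
        G' := by
      have h1 : G' = ⋂ N', {ω | P N' (rset (fixed E N A) ω)} := by
        ext ω
        rw [Set.mem_iInter]
        rfl
      rw [h1]
      refine MeasurableSet.iInter fun N' => ?_
      refine meas_fin _ (fixed E N A) N' (fun n _ => ?_) (P N') (hP N')
      exact meas_fixed _ (fun k hk => hgen _ k hk) n
    have hmul := (Indep_iff _ _ μ).1 hind _ _ hmC hmG
    have hmulr : μ.real (patt E N ⁻¹' {A} ∩ G') = μ.real (patt E N ⁻¹' {A}) * μ.real G' := by
      unfold Measure.real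
      rw [hmul, ENNReal.toReal_mul]
    rw [hinter, hmulr] at hlt
    have h3 : 1 - η' < μ.real G' := by
      rw [mul_comm] at hlt
      exact lt_of_mul_lt_mul_left hlt hCpos.le
    linarith

end Pool.Agent.Y940.CH
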