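import Pool.Agent.Y940.CH.Stm2

/-! Harris inequality for decreasing events of independent events. -/

set_option autoImplicit false

open Finset Filter MeasureTheory ProbabilityTheory

namespace Pool.Agent.Y940.CH

universe u

/-- some element of `s` is missing -/
theorem harris_meas {Ω : Type u} [MeasurableSpace Ω] (E : ℕ → Set Ω) (U : Set ℕ)
    (J : Finset (Multiset ℕ)) (m : MeasurableSpace Ω) (hE : ∀ n ∈ U, MeasurableSet[m] (E n)) :
    MeasurableSet[m] {ω | ∀ s ∈ J, ∃ a ∈ s, a ∈ U ∧ ω ∉ E a} := by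
  classical
  have h : {ω | ∀ s ∈ J, ∃ a ∈ s, a ∈ U ∧ ω ∉ E a} =
      ⋂ s ∈ J, ⋃ a ∈ s.toFinset.filter (fun a => a ∈ U), (E a)ᶜ := by
    ext ω
    simp only [Set.mem_ofPred_eq, Set.mem_iInter, Set.mem_iUnion, Set.mem_compl_iff,
      Finset.mem_filter, Multiset.mem_toFinset, exists_prop, and_assoc]
  rw [h]
  exact Finset.measurableSet_biInter _ fun s _ => Finset.measurableSet_biUnion _ fun a ha =>
    (hE a (Finset.mem_filter.1 ha).2).compl

/-- Harris inequality for the decreasing events -/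
theorem harris_main : S_harris.{u} := by
  intro Ω _ μ _ E hE hind J
  classical
  induction J using Finset.induction_on with
  | empty => simp
  | insert t J htJ ih =>
    obtain ⟨D, hD⟩ : ∃ D, D = {ω | ∀ s ∈ J, ∃ a ∈ s, ω ∉ E a} := ⟨_, rfl⟩
    obtain ⟨X, hX⟩ : ∃ X, X = ⋂ a ∈ t.toFinset, E a := ⟨_, rfl⟩
    obtain ⟨D', hD'⟩ : ∃ D', D' = {ω | ∀ s ∈ J, ∃ a ∈ s, a ∈ {a : ℕ | a ∉ t.toFinset} ∧ ω ∉ E a} :=
      ⟨_, rfl⟩
    rw [← hD] at ih
    have hXm : MeasurableSet X := by
      rw [hX]
      exact Finset.measurableSet_biInter _ fun a _ => hE a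
    have hw : μ.real X = ∏ a ∈ t.toFinset, μ.real (E a) := by
      rw [hX, measureReal_def, iIndepSet_iff_meas_biInter hE |>.1 hind, ENNReal.toReal_prod]
      rfl
    have hset : {ω | ∀ s ∈ insert t J, ∃ a ∈ s, ω ∉ E a} = D \ X := by
      ext ω
      rw [hD, hX]
      simp only [Set.mem_ofPred_eq, Finset.mem_insert, forall_eq_or_imp, Set.mem_sdiff,
        Set.mem_iInter, Multiset.mem_toFinset, not_forall, exists_prop]
      exact and_comm
    have hDX : D ∩ X = D' ∩ X := by
      ext ω
      rw [hD, hX, hD']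
      simp only [Set.mem_inter_iff, Set.mem_ofPred_eq, Set.mem_iInter, Multiset.mem_toFinset]
      constructor
      · rintro ⟨h1, h2⟩
        refine ⟨fun s hs => ?_, h2⟩
        obtain ⟨a, ha, hb⟩ := h1 s hs
        exact ⟨a, ha, fun hc => hb (h2 a hc), hb⟩
      · rintro ⟨h1, h2⟩
        refine ⟨fun s hs => ?_, h2⟩
        obtain ⟨a, ha, _, hb⟩ := h1 s hs
        exact ⟨a, ha, hb⟩
    have hsub : D' ⊆ D := by
      rw [hD, hD']
      intro ω h s hs
      obtain ⟨a, ha, _, hb⟩ := h s hs
      exact ⟨a, ha, hb⟩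
    have hindep : μ.real (D' ∩ X) = μ.real D' * μ.real X := by
      have h1 := hind.indep_generateFrom_of_disjoint hE {a : ℕ | a ∉ t.toFinset}
        {a : ℕ | a ∈ t.toFinset} (by
          rw [Set.disjoint_left]
          intro a h2 h3
          exact h2 h3)
      rw [Indep_iff] at h1
      have h2 : MeasurableSet[MeasurableSpace.generateFrom
          {s | ∃ n ∈ {a : ℕ | a ∉ t.toFinset}, E n = s}] D' := by
        rw [hD']
        exact harris_meas E _ J _ fun n hn =>
          MeasurableSpace.measurableSet_generateFrom ⟨n, hn, rfl⟩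
      have h3 : MeasurableSet[MeasurableSpace.generateFrom
          {s | ∃ n ∈ {a : ℕ | a ∈ t.toFinset}, E n = s}] X := by
        rw [hX]
        exact Finset.measurableSet_biInter _ fun a ha =>
          MeasurableSpace.measurableSet_generateFrom ⟨a, ha, rfl⟩
      rw [measureReal_def, h1 D' X h2 h3, ENNReal.toReal_mul]
      rfl
    have h4 : μ.real (D' ∩ X) ≤ μ.real D * μ.real X := by
      rw [hindep]
      exact mul_le_mul_of_nonneg_right (measureReal_mono hsub) measureReal_nonneg
    have h5 : μ.real (D ∩ X) + μ.real (D \ X) = μ.real D := measureReal_inter_add_sdiff hXm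
    rw [Finset.prod_insert htJ, hset]
    rw [hDX] at h5
    rw [← hw]
    have h6 : μ.real X ≤ 1 := measureReal_le_one
    have h7 : (1 - μ.real X) * ∏ s ∈ J, (1 - ∏ a ∈ s.toFinset, μ.real (E a)) ≤
        (1 - μ.real X) * μ.real D := mul_le_mul_of_nonneg_left ih (by linarith)
    nlinarith

end Pool.Agent.Y940.CH
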