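import Pool.Agent.Y940.CH.Stm2
/-!
# Derandomization for bases of order `h`: bounded means (MEAN)
-/

set_option autoImplicit false

open Finset Filter MeasureTheory ProbabilityTheory

namespace Pool.Agent.Y940.CH.Mean

open Pool.Agent.Y940.RS (rset cnt chebyshev KW)

universe u

/-- the supports -/
theorem supp_sum (p : ℕ → ℝ) (hp : ∀ a, 0 ≤ p a) (i : ℕ) (H : ℝ) (hH : 0 ≤ H)
    (hlam : ∀ j ≤ i, ∀ σ, lam p j σ ≤ H) (σ : ℕ) (s' : Multiset ℕ) (hs' : s' ∈ MM (i + 1) σ) :
    ∑ s ∈ MM (i + 1) σ, ∏ v ∈ s.toFinset \ s'.toFinset, p v ≤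
      lam p (i + 1) σ + 2 ^ ((i + 1) * (i + 1)) * H := by
  classical
  obtain ⟨g, hg⟩ : ∃ g : Multiset ℕ → Multiset ℕ, g = fun s => s.filter (· ∈ s'.toFinset) :=
    ⟨_, rfl⟩
  obtain ⟨w, hw⟩ : ∃ w : Multiset ℕ → Multiset ℕ, w = fun s => s.filter (fun a => ¬ a ∈ s'.toFinset) :=
    ⟨_, rfl⟩
  have hgw : ∀ s, g s + w s = s := fun s => by
    rw [hg, hw]
    exact Multiset.filter_add_not _ s
  have hsd : ∀ s : Multiset ℕ, s.toFinset \ s'.toFinset = (w s).toFinset := by
    intro s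
    ext a
    simp only [hw, Finset.mem_sdiff, Multiset.mem_toFinset, Multiset.mem_filter]
  simp only [hsd]
  rw [← sum_filter_add_sum_filter_not (MM (i + 1) σ) (fun s => g s = 0)]
  refine add_le_add ?_ ?_
  · calc ∑ s ∈ (MM (i + 1) σ).filter (fun s => g s = 0), ∏ v ∈ (w s).toFinset, p v =
        ∑ s ∈ (MM (i + 1) σ).filter (fun s => g s = 0), ∏ v ∈ s.toFinset, p v := by
          refine sum_congr rfl fun s hs => ?_
          have h1 := (mem_filter.1 hs).2
          have h2 := hgw s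
          rw [h1, zero_add] at h2
          rw [h2]
      _ ≤ lam p (i + 1) σ := sum_le_sum_of_subset_of_nonneg (filter_subset _ _)
          fun _ _ _ => prod_nonneg fun _ _ => hp _
  · obtain ⟨T, hT⟩ : ∃ T : Finset (Multiset ℕ), T = (Multiset.powerset ((i + 1) • s')).toFinset :=
      ⟨_, rfl⟩
    have hmap : ∀ s ∈ (MM (i + 1) σ).filter (fun s => ¬ g s = 0), g s ∈ T := by
      intro s hs
      have h1 := (mem_MM.1 (mem_filter.1 hs).1).1
      rw [hT, Multiset.mem_toFinset, Multiset.mem_powerset, Multiset.le_iff_count]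
      intro a
      rw [hg, Multiset.count_filter, Multiset.count_nsmul]
      split_ifs with h2
      · have h3 : 1 ≤ Multiset.count a s' := Multiset.one_le_count_iff_mem.2
          (Multiset.mem_toFinset.1 h2)
        have h4 : Multiset.count a s ≤ i + 1 := h1 ▸ Multiset.count_le_card a s
        calc Multiset.count a s ≤ (i + 1) * 1 := by omega
          _ ≤ (i + 1) * Multiset.count a s' := Nat.mul_le_mul_left _ h3
      · exact Nat.zero_le _
    have hTc : (T.card : ℝ) ≤ 2 ^ ((i + 1) * (i + 1)) := by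
      have h1 : T.card ≤ 2 ^ ((i + 1) * (i + 1)) := by
        rw [hT]
        refine (Multiset.toFinset_card_le _).trans ?_
        rw [Multiset.card_powerset, Multiset.card_nsmul, (mem_MM.1 hs').1]
      exact_mod_cast h1
    rw [← sum_fiberwise_of_maps_to hmap]
    refine (sum_le_card_nsmul T _ H fun y _ => ?_).trans ?_
    · rcases (((MM (i + 1) σ).filter (fun s => ¬ g s = 0)).filter
        (fun s => g s = y)).eq_empty_or_nonempty with h0 | ⟨s0, hs0⟩
      · rw [h0, sum_empty]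
        exact hH
      · have hy : y ≠ 0 := by
          rw [mem_filter, mem_filter] at hs0
          rw [← hs0.2]
          exact hs0.1.2
        have hyc : 1 ≤ Multiset.card y := Multiset.card_pos.2 hy
        have hinj : Set.InjOn w ((((MM (i + 1) σ).filter (fun s => ¬ g s = 0)).filter
            (fun s => g s = y) : Finset (Multiset ℕ)) : Set (Multiset ℕ)) := by
          intro s hs s1 hs1 h
          rw [mem_coe, mem_filter] at hs hs1
          rw [← hgw s, ← hgw s1, hs.2, hs1.2, h]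
        have e := sum_image (f := fun x : Multiset ℕ => ∏ v ∈ x.toFinset, p v) hinj
        rw [← e]
        refine le_trans ?_ (hlam (i + 1 - Multiset.card y) (by omega) (σ - y.sum))
        refine sum_le_sum_of_subset_of_nonneg ?_ fun _ _ _ => prod_nonneg fun _ _ => hp _
        intro x hx
        obtain ⟨s, hs, rfl⟩ := mem_image.1 hx
        rw [mem_filter, mem_filter, mem_MM] at hs
        have h1 := congrArg Multiset.card (hgw s)
        have h2 := congrArg Multiset.sum (hgw s)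
        rw [Multiset.card_add, hs.2, hs.1.1.1] at h1
        rw [Multiset.sum_add, hs.2, hs.1.1.2] at h2
        rw [mem_MM]
        omega
    · rw [nsmul_eq_mul]
      exact mul_le_mul_of_nonneg_right hTc hH

/-- many representations of a number by `i` elements give many by `h` elements -/
theorem cnt_le {Ω : Type u} (E : ℕ → Set Ω) (ω : Ω) (h K i σ : ℕ) (hi : i + 1 ≤ h)
    (hK : ∀ n, rep (rset E ω) h n ≤ K) :
    cnt E (MM (i + 1) σ) (fun s => s.toFinset) ω ≤ K := by
  classical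
  unfold cnt
  rcases ((MM (i + 1) σ).filter fun s => ∀ v ∈ s.toFinset, ω ∈ E v).eq_empty_or_nonempty with
    h0 | ⟨s0, hs0⟩
  · rw [h0, card_empty]
    exact Nat.zero_le _
  · rw [mem_filter, mem_MM] at hs0
    have hpos : 0 < Multiset.card s0 := by rw [hs0.1.1]; omega
    obtain ⟨a, ha⟩ := Multiset.card_pos_iff_exists_mem.1 hpos
    have haE : ω ∈ E a := hs0.2 a (Multiset.mem_toFinset.2 ha)
    refine le_trans ?_ (hK (σ + (h - (i + 1)) * a))
    have hinj : Function.Injective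
        (fun s : Multiset ℕ => s + Multiset.replicate (h - (i + 1)) a) :=
      fun s s' hss => add_right_cancel hss
    rw [← card_image_of_injective _ hinj]
    refine Forms.card_le_rep _ fun s hs => ?_
    obtain ⟨s1, hs1, rfl⟩ := mem_image.1 hs
    rw [mem_filter, mem_MM] at hs1
    refine ⟨?_, fun b hb => ?_, ?_⟩
    · simp only [Multiset.card_add, Multiset.card_replicate]
      omega
    · simp only [Multiset.mem_add] at hb
      rcases hb with hb | hb
      · exact hs1.2 b (Multiset.mem_toFinset.2 hb)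
      · rw [Multiset.eq_of_mem_replicate hb]
        exact haE
    · simp only [Multiset.sum_add, Multiset.sum_replicate, smul_eq_mul]
      omega

theorem lam_zero (p : ℕ → ℝ) (σ : ℕ) : lam p 0 σ ≤ 1 := by
  classical
  unfold lam
  have h1 : MM 0 σ ⊆ {0} := by
    intro s hs
    rw [mem_singleton]
    exact Multiset.card_eq_zero.1 (mem_MM.1 hs).1
  have h2 : ∀ s ∈ MM 0 σ, ∏ a ∈ s.toFinset, p a = 1 := by
    intro s hs
    rw [mem_singleton.1 (h1 hs)]
    simp
  rw [sum_congr rfl h2, sum_const, nsmul_eq_mul, mul_one]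
  have h3 := card_le_card h1
  rw [card_singleton] at h3
  exact_mod_cast h3

/-- the hypotheses -/
def Hyp {Ω : Type u} [MeasurableSpace Ω] (μ : Measure Ω) (E : ℕ → Set Ω) (h K : ℕ) : Prop :=
  (∀ n, MeasurableSet (E n)) ∧ iIndepSet E μ ∧
    1 / 2 ≤ μ.real {ω | ∀ n, rep (rset E ω) h n ≤ K}

theorem ind_step (h K i : ℕ) (hi : i + 1 ≤ h) (H : ℝ) (hH : 0 ≤ H) {Ω : Type u}
    [MeasurableSpace Ω] (μ : Measure Ω) [IsProbabilityMeasure μ] (E : ℕ → Set Ω)
    (hyp : Hyp μ E h K) (hlam : ∀ j ≤ i, ∀ σ, lam (fun a => μ.real (E a)) j σ ≤ H) (σ : ℕ) :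
    lam (fun a => μ.real (E a)) (i + 1) σ ≤ 2 * K + 8 * (2 ^ ((i + 1) * (i + 1)) * H) := by
  obtain ⟨hm, hind, hhalf⟩ := hyp
  have hp : ∀ a, 0 ≤ μ.real (E a) := fun a => measureReal_nonneg
  obtain ⟨m, hmd⟩ : ∃ m, m = lam (fun a => μ.real (E a)) (i + 1) σ := ⟨_, rfl⟩
  obtain ⟨D, hD⟩ : ∃ D : ℝ, D = 2 ^ ((i + 1) * (i + 1)) * H := ⟨_, rfl⟩
  have hD0 : 0 ≤ D := by rw [hD]; positivity
  rw [← hmd, ← hD]
  have hK0 : (0 : ℝ) ≤ K := Nat.cast_nonneg K
  by_cases hc : m ≤ 2 * K
  · linarith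
  push Not at hc
  have hsum : ∑ s ∈ MM (i + 1) σ, ∏ v ∈ s.toFinset, μ.real (E v) = m := hmd.symm
  have hcheb := chebyshev (μ := μ) (E := E) (k := i + 1) (KW.of_indep hm hind _) (MM (i + 1) σ)
    (fun s : Multiset ℕ => s.toFinset)
    (fun s hs => (Multiset.toFinset_card_le s).trans (mem_MM.1 hs).1.le) D (fun s' hs' => by
      have h1 := supp_sum (fun a => μ.real (E a)) hp i H hH hlam σ s' hs'
      rw [← hmd, ← hD] at h1
      rw [hsum]
      exact h1) (K : ℝ) (by rw [hsum]; linarith)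
  rw [hsum] at hcheb
  have hsub : {ω | ∀ n, rep (rset E ω) h n ≤ K} ⊆
      {ω | (cnt E (MM (i + 1) σ) (fun s : Multiset ℕ => s.toFinset) ω : ℝ) ≤ K} := by
    intro ω hω
    have h1 := cnt_le E ω h K i σ hi hω
    show (cnt E (MM (i + 1) σ) (fun s : Multiset ℕ => s.toFinset) ω : ℝ) ≤ K
    exact_mod_cast h1
  have h2 := hhalf.trans (measureReal_mono hsub)
  have h3 : (m / 2) ^ 2 ≤ (m - K) ^ 2 := pow_le_pow_left₀ (by linarith) (by linarith) 2
  have h4 : 1 / 2 * (m / 2) ^ 2 ≤ D * m := by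
    refine le_trans ?_ hcheb
    exact mul_le_mul h2 h3 (by positivity) measureReal_nonneg
  have hm0 : 0 < m := by linarith
  have h5 : m * m ≤ (8 * D) * m := by nlinarith
  have h6 := le_of_mul_le_mul_right h5 hm0
  linarith

theorem ind_all (h K : ℕ) : ∀ i ≤ h, ∃ H : ℝ, 0 < H ∧ ∀ (Ω : Type u) [MeasurableSpace Ω]
    (μ : Measure Ω) [IsProbabilityMeasure μ] (E : ℕ → Set Ω), Hyp μ E h K → ∀ j ≤ i, ∀ σ,
      lam (fun a => μ.real (E a)) j σ ≤ H := by
  intro i
  induction i with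
  | zero =>
    intro _
    refine ⟨1, one_pos, fun Ω _ μ _ E _ j hj σ => ?_⟩
    rw [Nat.le_zero.1 hj]
    exact lam_zero _ σ
  | succ i ih =>
    intro hi
    obtain ⟨H, hH0, hH⟩ := ih (by omega)
    refine ⟨H + (2 * K + 8 * (2 ^ ((i + 1) * (i + 1)) * H)), by positivity,
      fun Ω _ μ _ E hyp j hj σ => ?_⟩
    have h0 : 0 ≤ 2 * (K : ℝ) + 8 * (2 ^ ((i + 1) * (i + 1)) * H) := by positivity
    rcases Nat.lt_or_ge j (i + 1) with h1 | h1
    · have := hH Ω μ E hyp j (by omega) σ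
      linarith
    · have h2 : j = i + 1 := by omega
      rw [h2]
      have := ind_step h K i hi H hH0.le μ E hyp (hH Ω μ E hyp) σ
      linarith

end Pool.Agent.Y940.CH.Mean

namespace Pool.Agent.Y940.CH

universe u

theorem mean_main : Pool.Agent.Y940.CH.S_mean.{u} := by
  intro h K
  obtain ⟨H, hH0, hH⟩ := Mean.ind_all.{u} h K h le_rfl
  exact ⟨H, hH0, fun Ω _ μ _ E hm hind hhalf n => hH Ω μ E ⟨hm, hind, hhalf⟩ h le_rfl n⟩

end Pool.Agent.Y940.CH
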