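import Pool.Agent.Y940.CT.Prob
/-!
# Random sequences
-/

set_option autoImplicit false

open Finset Filter MeasureTheory ProbabilityTheory

namespace Pool.Agent.Y940.CH

open Pool.Agent.Y940.CT (Sub)

universe u

theorem seq_step {Ω : Type u} [MeasurableSpace Ω] {μ : Measure Ω} [IsProbabilityMeasure μ]
    {X : ℕ → Ω → ℕ} (hX : ∀ k, Measurable (X k)) (hi : iIndepFun X μ) (T : Finset ℕ) (n : ℕ)
    (hn : n ∉ T) :
    μ ({ω | ∃ k, X k ω = n} ∩ ⋂ t ∈ T, {ω | ∃ k, X k ω = t}) ≤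
      (∑' k, μ {ω | X k ω = n}) * μ (⋂ t ∈ T, {ω | ∃ k, X k ω = t}) := by
  have h1 : {ω | ∃ k, X k ω = n} ∩ ⋂ t ∈ T, {ω | ∃ k, X k ω = t} ⊆
      ⋃ k, ({ω | X k ω = n} ∩ ⋂ t ∈ T, ⋃ j ∈ ({k}ᶜ : Set ℕ), {ω | X j ω = t}) := by
    rintro ω ⟨⟨k, hk⟩, h2⟩
    rw [Set.mem_iUnion]
    refine ⟨k, hk, ?_⟩
    rw [Set.mem_iInter₂] at h2 ⊢
    intro t ht
    obtain ⟨j, hj⟩ := h2 t ht
    rw [Set.mem_iUnion₂]
    refine ⟨j, ?_, hj⟩
    intro hjk
    have hjk' : j = k := hjk
    subst hjk'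
    rw [hk] at hj
    rw [← hj] at ht
    exact hn ht
  refine (measure_mono h1).trans ((measure_iUnion_le _).trans ?_)
  rw [← ENNReal.tsum_mul_right]
  refine ENNReal.tsum_le_tsum fun k => ?_
  have hind : Indep (⨆ i ∈ ({k} : Set ℕ), MeasurableSpace.comap (X i) inferInstance)
      (⨆ i ∈ ({k}ᶜ : Set ℕ), MeasurableSpace.comap (X i) inferInstance) μ :=
    indep_iSup_of_disjoint (fun i => (hX i).comap_le) hi disjoint_compl_right
  rw [Indep_iff] at hind
  have h2 := hind {ω | X k ω = n} (⋂ t ∈ T, ⋃ j ∈ ({k}ᶜ : Set ℕ), {ω | X j ω = t}) ?_ ?_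
  · rw [h2]
    refine mul_le_mul_right ?_ _
    refine measure_mono ?_
    intro ω hω
    rw [Set.mem_iInter₂] at hω ⊢
    intro t ht
    have h3 := hω t ht
    rw [Set.mem_iUnion₂] at h3
    obtain ⟨j, _, hj⟩ := h3
    exact ⟨j, hj⟩
  · have h3 : MeasurableSpace.comap (X k) inferInstance ≤
        ⨆ i ∈ ({k} : Set ℕ), MeasurableSpace.comap (X i) inferInstance :=
      le_iSup₂_of_le k (Set.mem_singleton k) le_rfl
    exact h3 _ ⟨{n}, measurableSet_singleton n, rfl⟩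
  · refine Finset.measurableSet_biInter _ fun t _ => ?_
    refine MeasurableSet.biUnion (Set.to_countable _) fun j hj => ?_
    have h3 : MeasurableSpace.comap (X j) inferInstance ≤
        ⨆ i ∈ ({k}ᶜ : Set ℕ), MeasurableSpace.comap (X i) inferInstance :=
      le_iSup₂_of_le j hj le_rfl
    exact h3 _ ⟨{t}, measurableSet_singleton t, rfl⟩

/-- the set of the values of a sequence of independent random natural numbers -/
theorem sub_seq {Ω : Type u} [MeasurableSpace Ω] {μ : Measure Ω} [IsProbabilityMeasure μ]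
    {X : ℕ → Ω → ℕ} (hX : ∀ k, Measurable (X k)) (hi : iIndepFun X μ)
    (hs : ∀ n, Summable fun k => μ.real {ω | X k ω = n}) :
    Sub μ (fun n => {ω | ∃ k, X k ω = n}) (fun n => ∑' k, μ.real {ω | X k ω = n}) := by
  classical
  have hsum : ∀ n, ∑' k, μ {ω | X k ω = n} = ENNReal.ofReal (∑' k, μ.real {ω | X k ω = n}) := by
    intro n
    rw [ENNReal.ofReal_tsum_of_nonneg (fun _ => measureReal_nonneg) (hs n)]
    refine tsum_congr fun k => ?_
    rw [ofReal_measureReal]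
  have hnn : ∀ n, 0 ≤ ∑' k, μ.real {ω | X k ω = n} := fun n => tsum_nonneg fun _ => measureReal_nonneg
  refine ⟨hnn, fun T => ?_⟩
  have key : μ (⋂ n ∈ T, {ω | ∃ k, X k ω = n}) ≤
      ∏ n ∈ T, ENNReal.ofReal (∑' k, μ.real {ω | X k ω = n}) := by
    induction T using Finset.induction_on with
    | empty => simp
    | insert n T hn ih =>
      rw [prod_insert hn, ← hsum n]
      have h1 : ⋂ t ∈ insert n T, {ω | ∃ k, X k ω = t} =
          {ω | ∃ k, X k ω = n} ∩ ⋂ t ∈ T, {ω | ∃ k, X k ω = t} := by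
        rw [Finset.set_biInter_insert]
      rw [h1]
      exact (seq_step hX hi T n hn).trans (mul_le_mul_right ih _)
  rw [measureReal_def]
  refine ENNReal.toReal_le_of_le_ofReal (prod_nonneg fun n _ => hnn n) ?_
  refine key.trans (le_of_eq ?_)
  rw [ENNReal.ofReal_prod_of_nonneg fun n _ => hnn n]

end Pool.Agent.Y940.CH
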