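import Pool.Agent.Y940.CT.Prob2
/-!
# Sets with bounded representation function of order `h`: definitions
-/

set_option autoImplicit false

open Finset

namespace Pool.Agent.Y940.CH

/-- `r_{A,h}(n)`: the number of multisets of `h` elements of `A` with sum `n` -/
noncomputable def rep (A : Set ℕ) (h n : ℕ) : ℕ :=
  {s : Multiset ℕ | Multiset.card s = h ∧ (∀ a ∈ s, a ∈ A) ∧ s.sum = n}.ncard

/-- For `2 ≤ i ≤ h` there are no `k` pairwise disjoint subsets of `I` with `i` elements and with the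
same sum. -/
def FreeH (h k : ℕ) (I : Finset ℕ) : Prop :=
  ∀ i σ : ℕ, 2 ≤ i → i ≤ h → ∀ q : Fin k → Finset ℕ,
    (∀ l, q l ⊆ I ∧ (q l).card = i ∧ ∑ x ∈ q l, x = σ) → ∃ l l', l ≠ l' ∧ ¬ Disjoint (q l) (q l')

/-- the members of `FF` with sum `σ` which contain `T` -/
def fam (FF : Finset (Finset ℕ)) (σ : ℕ) (T : Finset ℕ) : Finset (Finset ℕ) :=
  FF.filter fun S => ∑ x ∈ S, x = σ ∧ T ⊆ S

/-- the sums of more than `g` members of `FF` -/
noncomputable def rich (FF : Finset (Finset ℕ)) (g : ℝ) : Finset ℕ :=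
  (FF.image fun S => ∑ x ∈ S, x).filter fun σ => g < ((fam FF σ ∅).card : ℝ)

/-- the members of `FF` with a rich sum -/
noncomputable def richPart (FF : Finset (Finset ℕ)) (g : ℝ) : Finset (Finset ℕ) :=
  FF.filter fun S => g < ((fam FF (∑ x ∈ S, x) ∅).card : ℝ)

/-- the good sets with `i` elements: all subsets with `i - 1` elements are good and the sum is not
rich -/
noncomputable def Gd (U : Finset ℕ) (G : ℕ → ℝ) : ℕ → Finset (Finset ℕ)
  | 0 => {∅}
  | i + 1 => ((U.powersetCard (i + 1)).filter fun S => ∀ T ∈ S.powersetCard i, T ∈ Gd U G i).filter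
      fun S => ((fam ((U.powersetCard (i + 1)).filter fun S => ∀ T ∈ S.powersetCard i, T ∈ Gd U G i)
        (∑ x ∈ S, x) ∅).card : ℝ) ≤ G (i + 1)

/-- the sets with `i` elements whose subsets with `i - 1` elements are all good -/
noncomputable def Fm (U : Finset ℕ) (G : ℕ → ℝ) : ℕ → Finset (Finset ℕ)
  | 0 => ∅
  | i + 1 => (U.powersetCard (i + 1)).filter fun S => ∀ T ∈ S.powersetCard i, T ∈ Gd U G i

theorem Gd_succ (U : Finset ℕ) (G : ℕ → ℝ) (i : ℕ) : Gd U G (i + 1) =
    (Fm U G (i + 1)).filter fun S => ((fam (Fm U G (i + 1)) (∑ x ∈ S, x) ∅).card : ℝ) ≤ G (i + 1) :=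
  rfl

/-- pairwise disjoint -/
def PD {k : ℕ} (q : Fin k → Finset ℕ) : Prop := ∀ l l', l ≠ l' → Disjoint (q l) (q l')

open Classical in
/-- the weighted hypergraph of the unions of `k` pairwise disjoint members of `FF` with the same rich
sum -/
noncomputable def wt (FF : Finset (Finset ℕ)) (g : ℝ) (k : ℕ) (e : Finset ℕ) : ℝ :=
  ∑ σ ∈ rich FF g, ∑ q ∈ Fintype.piFinset (fun _ : Fin k => fam FF σ ∅),
    if PD q ∧ e = univ.biUnion q then (1 / ((fam FF σ ∅).card : ℝ)) ^ (k - 1) else 0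

end Pool.Agent.Y940.CH
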