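import Pool.Agent.Y940.CH.Stm

/-!
Elementary statements about the number of representations by multisets (job RH-FORMS).
-/

set_option autoImplicit false

open Finset Filter

namespace Pool.Agent.Y940.CH.Forms

open Pool.Agent.Y940.CH
open Pool.Agent.Y940.CT (count seg count_eq)

theorem fin_reps (A : Set ℕ) (h n : ℕ) :
    {s : Multiset ℕ | Multiset.card s = h ∧ (∀ a ∈ s, a ∈ A) ∧ s.sum = n}.Finite := by
  classical
  refine ((finite_toSet ((range (n + 1)).sym h)).image
    (fun m : Sym ℕ h => (m : Multiset ℕ))).subset ?_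
  rintro s ⟨h1, -, h3⟩
  refine ⟨Sym.mk s h1, mem_coe.2 (mem_sym_iff.2 ?_), rfl⟩
  intro a ha
  have ha' : a ∈ s := ha
  have := Multiset.le_sum_of_mem ha'
  rw [mem_range]
  omega

theorem card_le_rep {A : Set ℕ} {h n : ℕ} (F : Finset (Multiset ℕ))
    (hF : ∀ s ∈ F, Multiset.card s = h ∧ (∀ a ∈ s, a ∈ A) ∧ s.sum = n) :
    F.card ≤ rep A h n := by
  unfold rep
  rw [← Set.ncard_coe_finset F]
  exact Set.ncard_le_ncard (fun s hs => hF s hs) (fin_reps A h n)

theorem freeH_of (B : Set ℕ) (h K : ℕ) (hB : ∀ n, rep B h n ≤ K) (I : Finset ℕ)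
    (hI : ∀ x ∈ I, x ∈ B) : FreeH h (K + 1) I := by
  classical
  intro i σ h2 hi q hq
  by_contra hcon
  have hdis : ∀ l l', l ≠ l' → Disjoint (q l) (q l') := by
    intro l l' hl
    by_contra hd
    exact hcon ⟨l, l', hl, hd⟩
  have hne : ∀ l, (q l).Nonempty := by
    intro l
    rw [← card_pos, (hq l).2.1]
    omega
  obtain ⟨b, hb⟩ := hne 0
  have hbB : b ∈ B := hI b ((hq 0).1 hb)
  have hinj : Function.Injective fun l : Fin (K + 1) =>
      (q l).val + Multiset.replicate (h - i) b := by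
    intro l l' hl
    have h1 : (q l).val = (q l').val := add_right_cancel hl
    have h2 : q l = q l' := Finset.val_injective h1
    by_contra hll
    have h3 := hdis l l' hll
    rw [h2, disjoint_self_iff_empty] at h3
    exact (hne l').ne_empty h3
  have h1 := card_le_rep (A := B) (h := h) (n := σ + (h - i) * b)
    (univ.image fun l : Fin (K + 1) => (q l).val + Multiset.replicate (h - i) b) (by
      intro s hs
      obtain ⟨l, -, rfl⟩ := mem_image.1 hs
      refine ⟨?_, ?_, ?_⟩
      · rw [Multiset.card_add, Multiset.card_replicate]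
        have : Multiset.card (q l).val = i := (hq l).2.1
        omega
      · intro a ha
        rcases Multiset.mem_add.1 ha with h | h
        · exact hI a ((hq l).1 h)
        · rw [Multiset.eq_of_mem_replicate h]; exact hbB
      · rw [Multiset.sum_add, Multiset.sum_replicate, smul_eq_mul]
        congr 1
        have := (hq l).2.2
        rw [← this, Finset.sum_eq_multiset_sum, Multiset.map_id'])
  rw [card_image_of_injective _ hinj, card_univ, Fintype.card_fin] at h1
  have := hB (σ + (h - i) * b)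
  omega

theorem choose_le (B : Set ℕ) (h K M : ℕ) (hB : ∀ n, rep B h n ≤ K) :
    (seg B M).card.choose h ≤ K * (h * M + 1) := by
  classical
  have h1 : ((seg B M).powersetCard h).card ≤ K * (range (h * M + 1)).card := by
    refine card_le_mul_card_image_of_maps_to (f := fun S : Finset ℕ => ∑ x ∈ S, x) ?_ K ?_
    · intro S hS
      obtain ⟨hS1, hS2⟩ := mem_powersetCard.1 hS
      rw [mem_range]
      have : ∑ x ∈ S, x ≤ S.card • M := by
        apply sum_le_card_nsmul
        intro x hx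
        have := hS1 hx
        unfold seg at this
        rw [mem_filter, mem_Icc] at this
        exact this.1.2
      rw [hS2, smul_eq_mul] at this
      omega
    · intro σ _
      have h2 := card_le_rep (A := B) (h := h) (n := σ)
        ((((seg B M).powersetCard h).filter fun S => ∑ x ∈ S, x = σ).image fun S => S.val) (by
          intro s hs
          obtain ⟨S, hS, rfl⟩ := mem_image.1 hs
          obtain ⟨hS1, hS2⟩ := mem_filter.1 hS
          obtain ⟨hS3, hS4⟩ := mem_powersetCard.1 hS1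
          refine ⟨hS4, ?_, ?_⟩
          · intro a ha
            have := hS3 ha
            unfold seg at this
            rw [mem_filter] at this
            exact this.2
          · rw [← hS2, Finset.sum_eq_multiset_sum, Multiset.map_id'])
      rw [card_image_of_injective _ Finset.val_injective] at h2
      exact h2.trans (hB σ)
  rwa [card_powersetCard, card_range] at h1

theorem count_le (h K : ℕ) (hh : 2 ≤ h) : ∃ C : ℝ, 0 < C ∧ ∀ B : Set ℕ, (∀ n, rep B h n ≤ K) →
    ∀ M : ℕ, count B M ≤ C * ((M : ℝ) + 1) ^ (1 / (h : ℝ)) := by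
  have hh0 : (0 : ℝ) < h := by exact_mod_cast (by omega : 0 < h)
  have hh1 : (1 : ℝ) ≤ h := by exact_mod_cast (by omega : 1 ≤ h)
  set D : ℝ := (h.factorial : ℝ) * K * h with hD
  have hD0 : 0 ≤ D := by positivity
  refine ⟨h + D ^ (1 / (h : ℝ)), by positivity, ?_⟩
  intro B hB M
  rw [count_eq]
  set m := (seg B M).card with hm
  have h1 := choose_le B h K M hB
  rw [← hm] at h1
  have h2 : (m + 1 - h) ^ h ≤ h.factorial * (K * (h * M + 1)) := by
    refine (Nat.pow_sub_le_descFactorial m h).trans ?_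
    rw [Nat.descFactorial_eq_factorial_mul_choose]
    exact Nat.mul_le_mul_left _ h1
  have h3 : (((m + 1 - h : ℕ) : ℝ)) ^ h ≤ D * ((M : ℝ) + 1) := by
    have h4 : (((m + 1 - h) ^ h : ℕ) : ℝ) ≤ ((h.factorial * (K * (h * M + 1)) : ℕ) : ℝ) := by
      exact_mod_cast h2
    push_cast at h4
    refine h4.trans ?_
    rw [hD]
    have h5 : (h : ℝ) * M + 1 ≤ h * (M + 1) := by nlinarith
    have h6 : (0 : ℝ) ≤ (h.factorial : ℝ) * K := by positivity
    calc (h.factorial : ℝ) * (K * (h * M + 1)) = (h.factorial : ℝ) * K * (h * M + 1) := by ring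
      _ ≤ (h.factorial : ℝ) * K * (h * (M + 1)) := mul_le_mul_of_nonneg_left h5 h6
      _ = (h.factorial : ℝ) * K * h * (M + 1) := by ring
  have hM0 : (0 : ℝ) < (M : ℝ) + 1 := by positivity
  have h4 : ((m + 1 - h : ℕ) : ℝ) ≤ D ^ (1 / (h : ℝ)) * ((M : ℝ) + 1) ^ (1 / (h : ℝ)) := by
    rw [← Real.mul_rpow hD0 hM0.le]
    have h5 : ((m + 1 - h : ℕ) : ℝ) = ((((m + 1 - h : ℕ) : ℝ)) ^ h) ^ (1 / (h : ℝ)) := by
      rw [← Real.rpow_natCast, ← Real.rpow_mul (by positivity), mul_one_div_cancel hh0.ne',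
        Real.rpow_one]
    rw [h5]
    exact Real.rpow_le_rpow (by positivity) h3 (by positivity)
  have h5 : (m : ℝ) ≤ ((m + 1 - h : ℕ) : ℝ) + h := by
    exact_mod_cast (by omega : m ≤ (m + 1 - h) + h)
  have h6 : (1 : ℝ) ≤ ((M : ℝ) + 1) ^ (1 / (h : ℝ)) :=
    Real.one_le_rpow (by linarith [(Nat.cast_nonneg M : (0 : ℝ) ≤ M)]) (by positivity)
  nlinarith

theorem mem_image_sum {B : Set ℕ} {h N n : ℕ} {F : Finset ℕ} (hF : ∀ a ∈ B, a ≤ N → a ∈ F)
    (hn : n ≤ N) (hr : 1 ≤ rep B h n) :
    n ∈ (Fintype.piFinset fun _ : Fin h => F).image fun f => ∑ i, f i := by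
  classical
  unfold rep at hr
  obtain ⟨s, h1, h2, h3⟩ := (Set.ncard_pos (fin_reps B h n)).1 hr
  induction s using Quot.inductionOn with
  | h l =>
    have h1' : l.length = h := h1
    subst h1'
    have h3' : l.sum = n := by
      have := h3
      simpa using this
    refine mem_image.2 ⟨fun i => l.get i, ?_, ?_⟩
    · rw [Fintype.mem_piFinset]
      intro i
      have hm : l.get i ∈ l := List.get_mem l i
      refine hF _ (h2 _ hm) ?_
      have := List.single_le_sum (l := l) (by intro x _; exact Nat.zero_le x) _ hm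
      omega
    · rw [← h3']
      simp [Fin.sum_univ_getElem]

theorem count_ge (B : Set ℕ) (h : ℕ) (hh : 2 ≤ h) (hB : ∀ᶠ n in atTop, 1 ≤ rep B h n) :
    ∀ᶠ N : ℕ in atTop, 1 / 2 * (N : ℝ) ^ (1 / (h : ℝ)) ≤ count B N := by
  classical
  obtain ⟨n₀, hn₀⟩ := eventually_atTop.1 hB
  have hh0 : (0 : ℝ) < h := by exact_mod_cast (by omega : 0 < h)
  filter_upwards [eventually_ge_atTop (3 * n₀), eventually_ge_atTop (4 ^ h)] with N hN hN4
  set F : Finset ℕ := insert 0 (seg B N) with hF
  have hkey : ∀ a ∈ B, a ≤ N → a ∈ F := by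
    intro a ha haN
    rw [hF, mem_insert]
    rcases Nat.eq_zero_or_pos a with h | h
    · exact Or.inl h
    · right
      unfold seg
      rw [mem_filter, mem_Icc]
      exact ⟨⟨h, haN⟩, ha⟩
  have h1 : Icc n₀ N ⊆ (Fintype.piFinset fun _ : Fin h => F).image fun f => ∑ i, f i := by
    intro n hn
    obtain ⟨hn1, hn2⟩ := mem_Icc.1 hn
    exact mem_image_sum hkey hn2 (hn₀ n hn1)
  have h2 : (Icc n₀ N).card ≤ F.card ^ h := by
    refine (card_le_card h1).trans (card_image_le.trans ?_)
    rw [Fintype.card_piFinset]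
    simp
  rw [Nat.card_Icc] at h2
  have h3 : F.card ≤ (seg B N).card + 1 := card_insert_le _ _
  have h4 : N + 1 - n₀ ≤ ((seg B N).card + 1) ^ h := h2.trans (Nat.pow_le_pow_left h3 h)
  rw [count_eq]
  by_contra h8
  push Not at h8
  obtain ⟨x, hx⟩ : ∃ x : ℝ, x = (N : ℝ) ^ (1 / (h : ℝ)) := ⟨_, rfl⟩
  rw [← hx] at h8
  have hxh : x ^ h = N := by
    rw [hx, ← Real.rpow_natCast, ← Real.rpow_mul (by positivity), one_div_mul_cancel hh0.ne',
      Real.rpow_one]
  have hx4 : 4 ≤ x := by
    have h5 : ((4 : ℝ) ^ h) ≤ N := by exact_mod_cast hN4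
    have h6 : (4 : ℝ) = ((4 : ℝ) ^ h) ^ (1 / (h : ℝ)) := by
      rw [← Real.rpow_natCast, ← Real.rpow_mul (by positivity), mul_one_div_cancel hh0.ne',
        Real.rpow_one]
    rw [hx, h6]
    exact Real.rpow_le_rpow (by positivity) h5 (by positivity)
  have h5 : ((N + 1 - n₀ : ℕ) : ℝ) ≤ (((seg B N).card : ℝ) + 1) ^ h := by exact_mod_cast h4
  rw [Nat.cast_sub (by omega)] at h5
  push_cast at h5
  have h6 : (((seg B N).card : ℝ) + 1) ^ h ≤ (3 / 4 * x) ^ h :=
    pow_le_pow_left₀ (by positivity) (by linarith) h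
  have h7 : (3 / 4 * x) ^ h ≤ 9 / 16 * N := by
    rw [mul_pow, hxh]
    refine mul_le_mul_of_nonneg_right ?_ (Nat.cast_nonneg N)
    calc (3 / 4 : ℝ) ^ h ≤ (3 / 4 : ℝ) ^ 2 := pow_le_pow_of_le_one (by norm_num) (by norm_num) hh
      _ = 9 / 16 := by norm_num
  have h9 : (3 * (n₀ : ℝ)) ≤ N := by exact_mod_cast hN
  have h10 : (0 : ℝ) ≤ n₀ := Nat.cast_nonneg _
  linarith

theorem order_two (B : Set ℕ) (h : ℕ) (hh : 2 ≤ h)
    (hB : ∀ᶠ n in atTop, 1 ≤ Pool.Agent.Y940.RS.rep B n) : ∀ᶠ n in atTop, 1 ≤ rep B h n := by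
  obtain ⟨n₀, hn₀⟩ := eventually_atTop.1 hB
  have key : ∀ n ≥ n₀, ∃ x ∈ B, ∃ y ∈ B, x + y = n := by
    intro n hn
    have h2 := hn₀ n hn
    unfold Pool.Agent.Y940.RS.rep at h2
    obtain ⟨⟨a, b⟩, ha, hb, hab⟩ := (Set.ncard_pos (Pool.Agent.Y940.RS.rep_finite B n)).1 h2
    exact ⟨a, ha, b, hb, hab⟩
  obtain ⟨b, hb, -⟩ := key n₀ le_rfl
  filter_upwards [eventually_ge_atTop (n₀ + (h - 2) * b)] with n hn
  obtain ⟨x, hx, y, hy, hxy⟩ := key (n - (h - 2) * b) (by omega)
  have h1 := card_le_rep (A := B) (h := h) (n := n)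
    {(x ::ₘ y ::ₘ Multiset.replicate (h - 2) b)} (by
      intro s hs
      rw [mem_singleton] at hs
      subst hs
      refine ⟨?_, ?_, ?_⟩
      · rw [Multiset.card_cons, Multiset.card_cons, Multiset.card_replicate]
        omega
      · intro a ha
        rw [Multiset.mem_cons, Multiset.mem_cons] at ha
        rcases ha with rfl | rfl | ha
        · exact hx
        · exact hy
        · rw [Multiset.eq_of_mem_replicate ha]; exact hb
      · rw [Multiset.sum_cons, Multiset.sum_cons, Multiset.sum_replicate, smul_eq_mul]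
        omega)
  simpa using h1

theorem main : Pool.Agent.Y940.CH.S_forms :=
  ⟨fin_reps, freeH_of,
    fun h K hh => count_le h K hh, count_ge,
    order_two⟩

end Pool.Agent.Y940.CH.Forms
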