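import Pool.Agent.Y940.CH.Stm
/-!
# Sets with bounded representation function of order `h`: iteration of the containers

Contributed by helper447.
-/

set_option autoImplicit false
set_option linter.all false

open Finset

namespace Pool.Agent.Y940.CH.Iter

open Pool.Agent.Y940.CT (RCov)

theorem freeH_mono {h k : ℕ} {I J : Finset ℕ} (hJ : J ⊆ I) (hI : FreeH h k I) : FreeH h k J :=
  fun i σ h1 h2 q hq => hI i σ h1 h2 q fun l => ⟨(hq l).1.trans hJ, (hq l).2⟩

theorem main : Pool.Agent.Y940.CH.S_iter := by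
  classical
  intro hS h k hh hk
  obtain ⟨δ, hδ0, hδ1, c, hc, η, hη0, hη1, y, hy, L, hL, hstep⟩ := hS h k hh hk
  have hh0 : (0 : ℝ) < h := by
    have : 0 < h := by omega
    exact_mod_cast this
  have hk0 : (0 : ℝ) < k := by
    have : 0 < k := by omega
    exact_mod_cast this
  have hh1 : 1 / (h : ℝ) ≤ 1 := by
    rw [div_le_one hh0]
    have : 1 ≤ h := by omega
    exact_mod_cast this
  have hh2 : 0 < 1 / (h : ℝ) := by positivity
  obtain ⟨A, hAc, hAδ⟩ : ∃ A : ℝ, c ≤ A ∧ (δ < 1 → c ≤ A * ((1 / (1 - δ)) ^ η - 1)) := by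
    by_cases hδ : δ < 1
    · have h1 : 1 < (1 / (1 - δ)) ^ η := by
        apply Real.one_lt_rpow _ hη0
        rw [lt_div_iff₀ (by linarith)]
        linarith
      have h2 : 0 < (1 / (1 - δ)) ^ η - 1 := by linarith
      refine ⟨c + c / ((1 / (1 - δ)) ^ η - 1), ?_, fun _ => ?_⟩
      · have : 0 < c / ((1 / (1 - δ)) ^ η - 1) := div_pos hc h2
        linarith
      · rw [add_mul, div_mul_cancel₀ _ h2.ne']
        have : 0 < c * ((1 / (1 - δ)) ^ η - 1) := mul_pos hc h2
        linarith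
    · exact ⟨c, le_rfl, fun h1 => absurd h1 hδ⟩
  have hA0 : 0 < A := hc.trans_le hAc
  have hy0 : 0 < y := by linarith
  have hL0 : 0 < L := by linarith
  refine ⟨2 * L * (2 * A + y), by positivity, fun N hN ρ hρN hρle => ?_⟩
  have hN1 : (1 : ℝ) ≤ N := by exact_mod_cast hN
  have hρpos : 0 < ρ := lt_of_lt_of_le (by positivity) hρN
  set R : ℝ := (L * (N + 1)) ^ (1 / (h : ℝ)) with hR
  have hLN : (N : ℝ) ≤ L * (N + 1) := by nlinarith
  have hLN0 : 0 < L * ((N : ℝ) + 1) := by positivity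
  have hR0 : 0 < R := Real.rpow_pos_of_pos hLN0 _
  have hNR : (N : ℝ) ^ (1 / (h : ℝ)) ≤ R := Real.rpow_le_rpow (by positivity) hLN hh2.le
  have hNp : 0 < (N : ℝ) ^ (1 / (h : ℝ)) := by positivity
  have hRρ : R ^ (-(1 / (4 * (k : ℝ) ^ 2 * h))) ≤ ρ := by
    refine le_trans ?_ hρN
    have h1 : R ^ (-(1 / (4 * (k : ℝ) ^ 2 * h))) ≤
        ((N : ℝ) ^ (1 / (h : ℝ))) ^ (-(1 / (4 * (k : ℝ) ^ 2 * h))) := by
      refine Real.rpow_le_rpow_of_nonpos hNp hNR ?_
      have : 0 < 1 / (4 * (k : ℝ) ^ 2 * h) := by positivity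
      linarith
    refine h1.trans (le_of_eq ?_)
    rw [← Real.rpow_mul (by positivity)]
    congr 1
    field_simp
  set W : ℝ := R * ρ ^ (1 / (h : ℝ)) with hW
  have hW0 : 0 < W := mul_pos hR0 (Real.rpow_pos_of_pos hρpos _)
  set Γ : ℝ := y * (W / ρ) with hΓ
  have hΓ0 : 0 < Γ := by positivity
  -- the potential
  set Φ : ℝ → ℝ := fun m => A * W * (2 - (Γ / m) ^ η) with hΦ
  have hmain : ∀ n : ℕ, ∀ U : Finset ℕ, U.card = n → U ⊆ range (N + 1) → Γ < U.card →
      RCov ρ ∅ (fun I => I ⊆ U ∧ FreeH h k I) U (Real.exp (Φ U.card)) Γ := by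
    intro n
    induction n using Nat.strong_induction_on with
    | _ n ih =>
    intro U hUn hU hUΓ
    have h1 := hstep N U R ρ hU hR hρpos hρle hRρ hUΓ.le
    set m : ℝ := (U.card : ℝ) with hmdef
    have hm0 : 0 < m := hΓ0.trans hUΓ
    set ψ : ℝ := (Γ / m) ^ η with hψ
    have hψ0 : 0 ≤ ψ := by positivity
    have hψ1 : ψ ≤ 1 := by
      rw [hψ]
      refine Real.rpow_le_one (by positivity) ?_ hη0.le
      rw [div_le_one hm0]
      linarith
    set f : ℝ := c * W * ψ with hf
    have hΦm : Φ m = A * W * (2 - ψ) := rfl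
    have h2 : RCov ρ ∅ (fun I => I ⊆ U ∧ FreeH h k I) U (Real.exp f * Real.exp (Φ m - f)) Γ := by
      refine RCov.comp hρpos.le (fun I J hJI hI => ⟨hJI.trans hI.1, freeH_mono hJI hI.2⟩) h1
        (Real.exp_pos _).le ?_
      intro C hC hCm
      by_cases hCΓ : (C.card : ℝ) ≤ Γ
      · refine (RCov.one (ρ := ρ) (F := ∅) (P := fun I => I ⊆ C) (Subset.refl C)
          (disjoint_empty_left _) hCΓ (fun I _ hI => by rwa [empty_union])).mono
          (fun I _ hI => hI.1) ?_ le_rfl
        refine Real.one_le_exp ?_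
        rw [hΦm, hf]
        have h3 : c * W * ψ ≤ A * W * (2 - ψ) := by
          have h4 : W * ψ ≤ W * (2 - ψ) := mul_le_mul_of_nonneg_left (by linarith) hW0.le
          have h5 : 0 ≤ W * (2 - ψ) := mul_nonneg hW0.le (by linarith)
          calc c * W * ψ = c * (W * ψ) := by ring
            _ ≤ c * (W * (2 - ψ)) := mul_le_mul_of_nonneg_left h4 hc.le
            _ ≤ A * (W * (2 - ψ)) := mul_le_mul_of_nonneg_right hAc h5
            _ = _ := by ring
        linarith
      · push Not at hCΓ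
        set m' : ℝ := (C.card : ℝ) with hm'def
        have hm'0 : 0 < m' := hΓ0.trans hCΓ
        have hδ2 : 0 < 1 - δ := by
          by_contra h
          have h3 : (1 - δ) * m ≤ 0 := mul_nonpos_of_nonpos_of_nonneg (by linarith) hm0.le
          linarith
        have hlt : C.card < n := by
          rw [← hUn]
          have h3 : m' < m := by nlinarith
          rw [hm'def, hmdef] at h3
          exact_mod_cast h3
        have h3 := ih C.card hlt C rfl (hC.trans hU) hCΓ
        refine h3.mono (fun I _ hI => ⟨hI.1, hI.2.2⟩) (Real.exp_le_exp.2 ?_) le_rfl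
        rw [hΦm, hf]
        have hΦm' : Φ m' = A * W * (2 - (Γ / m') ^ η) := rfl
        rw [hΦm']
        set ψ' : ℝ := (Γ / m') ^ η with hψ'
        have h4 : (1 / (1 - δ)) ^ η * ψ ≤ ψ' := by
          rw [hψ', hψ, ← Real.mul_rpow (by positivity) (by positivity)]
          refine Real.rpow_le_rpow (by positivity) ?_ hη0.le
          rw [div_mul_div_comm, one_mul]
          exact div_le_div_of_nonneg_left hΓ0.le hm'0 hCm
        have h5 := hAδ (by linarith)
        have h6 : c * W * ψ ≤ A * W * (ψ' - ψ) := by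
          have h7 : ((1 / (1 - δ)) ^ η - 1) * ψ ≤ ψ' - ψ := by linarith
          have h8 : 0 ≤ W * ψ := by positivity
          calc c * W * ψ = c * (W * ψ) := by ring
            _ ≤ A * ((1 / (1 - δ)) ^ η - 1) * (W * ψ) := mul_le_mul_of_nonneg_right h5 h8
            _ = A * W * (((1 / (1 - δ)) ^ η - 1) * ψ) := by ring
            _ ≤ A * W * (ψ' - ψ) := mul_le_mul_of_nonneg_left h7 (by positivity)
        linarith
    rw [← Real.exp_add, add_sub_cancel] at h2
    exact h2
  -- the size of the parameters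
  have hWle : W ≤ 2 * L * (ρ * N) ^ (1 / (h : ℝ)) := by
    rw [hW, hR, ← Real.mul_rpow hLN0.le hρpos.le]
    have h1 : L * (N + 1) * ρ ≤ 2 * L * (ρ * N) := by
      have : L * ρ ≤ L * ρ * N := le_mul_of_one_le_right (by positivity) hN1
      nlinarith
    refine (Real.rpow_le_rpow (by positivity) h1 hh2.le).trans ?_
    rw [Real.mul_rpow (by positivity) (by positivity)]
    refine mul_le_mul_of_nonneg_right ?_ (by positivity)
    calc (2 * L) ^ (1 / (h : ℝ)) ≤ (2 * L) ^ (1 : ℝ) :=
          Real.rpow_le_rpow_of_exponent_le (by linarith) hh1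
      _ = 2 * L := Real.rpow_one _
  have hs0 : 0 ≤ (ρ * N) ^ (1 / (h : ℝ)) := by positivity
  have hγ : Γ ≤ 2 * L * (2 * A + y) * (ρ * N) ^ (1 / (h : ℝ)) / ρ := by
    rw [hΓ, ← mul_div_assoc]
    refine div_le_div_of_nonneg_right ?_ hρpos.le
    calc y * W ≤ y * (2 * L * (ρ * N) ^ (1 / (h : ℝ))) := mul_le_mul_of_nonneg_left hWle hy0.le
      _ = 2 * L * y * (ρ * N) ^ (1 / (h : ℝ)) := by ring
      _ ≤ 2 * L * (2 * A + y) * (ρ * N) ^ (1 / (h : ℝ)) := by
          refine mul_le_mul_of_nonneg_right ?_ hs0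
          exact mul_le_mul_of_nonneg_left (by linarith) (by positivity)
  by_cases hbig : ((range (N + 1)).card : ℝ) ≤ Γ
  · refine (RCov.one (ρ := ρ) (F := ∅) (P := fun I => I ⊆ range (N + 1)) (Subset.refl _)
      (disjoint_empty_left _) hbig (fun I _ hI => by rwa [empty_union])).mono
      (fun I _ hI => hI.1) ?_ hγ
    exact Real.one_le_exp (by positivity)
  · push Not at hbig
    refine (hmain _ (range (N + 1)) rfl (Subset.refl _) hbig).mono (fun I _ hI => hI) ?_ hγ
    refine Real.exp_le_exp.2 ?_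
    have h7 : Φ ((range (N + 1)).card : ℝ) =
        A * W * (2 - (Γ / ((range (N + 1)).card : ℝ)) ^ η) := rfl
    rw [h7]
    have h8 : 0 ≤ (Γ / ((range (N + 1)).card : ℝ)) ^ η := by positivity
    calc A * W * (2 - (Γ / ((range (N + 1)).card : ℝ)) ^ η) ≤ A * W * 2 :=
          mul_le_mul_of_nonneg_left (by linarith) (by positivity)
      _ = 2 * A * W := by ring
      _ ≤ 2 * A * (2 * L * (ρ * N) ^ (1 / (h : ℝ))) :=
          mul_le_mul_of_nonneg_left hWle (by positivity)
      _ = 2 * L * (2 * A) * (ρ * N) ^ (1 / (h : ℝ)) := by ring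
      _ ≤ 2 * L * (2 * A + y) * (ρ * N) ^ (1 / (h : ℝ)) := by
          refine mul_le_mul_of_nonneg_right ?_ hs0
          exact mul_le_mul_of_nonneg_left (by linarith) (by positivity)

end Pool.Agent.Y940.CH.Iter
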