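import Pool.Agent.Y940.CH.Stm
/-!
# Sets with bounded representation function of order `h`: the families of the recursion (LEV)
-/

set_option autoImplicit false

open Finset

namespace Pool.Agent.Y940.CH.Lev

open Pool.Agent.Y940.CH

variable (U : Finset ℕ) (G : ℕ → ℝ)

theorem mem_Fm (i : ℕ) (S : Finset ℕ) : S ∈ Fm U G (i + 1) ↔
    (S ⊆ U ∧ S.card = i + 1) ∧ ∀ T, T ⊆ S → T.card = i → T ∈ Gd U G i := by
  show S ∈ (U.powersetCard (i + 1)).filter (fun S => ∀ T ∈ S.powersetCard i, T ∈ Gd U G i) ↔ _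
  rw [mem_filter, mem_powersetCard]
  refine and_congr_right fun _ => ?_
  constructor
  · intro h T hT hc
    exact h T (mem_powersetCard.2 ⟨hT, hc⟩)
  · intro h T hT
    rw [mem_powersetCard] at hT
    exact h T hT.1 hT.2

theorem mem_Gd (i : ℕ) (S : Finset ℕ) : S ∈ Gd U G (i + 1) ↔ S ∈ Fm U G (i + 1) ∧
    ((fam (Fm U G (i + 1)) (∑ x ∈ S, x) ∅).card : ℝ) ≤ G (i + 1) := by
  rw [Gd_succ, mem_filter]

theorem mem_fam (FF : Finset (Finset ℕ)) (σ : ℕ) (T S : Finset ℕ) :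
    S ∈ fam FF σ T ↔ S ∈ FF ∧ ∑ x ∈ S, x = σ ∧ T ⊆ S := by
  unfold fam
  rw [mem_filter]

theorem empty_Gd : (∅ : Finset ℕ) ∈ Gd U G 0 := mem_singleton_self _

theorem sub_Gd : ∀ (i : ℕ) (S : Finset ℕ), S ∈ Fm U G (i + 1) → ∀ T ⊆ S, T.card ≤ i →
    T ∈ Gd U G T.card := by
  intro i
  induction i with
  | zero =>
    intro S _ T _ hT
    have h1 : T = ∅ := card_eq_zero.1 (Nat.le_zero.1 hT)
    rw [h1, card_empty]
    exact empty_Gd U G
  | succ i ih =>
    intro S hS T hT hc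
    have hS' := (mem_Fm U G (i + 1) S).1 hS
    rcases Nat.lt_or_ge i T.card with h1 | h1
    · have h2 : T.card = i + 1 := by omega
      rw [h2]
      exact hS'.2 T hT h2
    · obtain ⟨S', h3, h4, h5⟩ := Finset.exists_subsuperset_card_eq (n := i + 1) hT (by omega)
        (by rw [hS'.1.2]; omega)
      have h6 := hS'.2 S' h4 h5
      exact ih S' ((mem_Gd U G i S').1 h6).1 T h3 h1

theorem fib (h0 : 1 ≤ G 0) (j : ℕ) (T : Finset ℕ) (hT : T ∈ Gd U G j) :
    (((Gd U G j).filter fun S => ∑ x ∈ S, x = ∑ x ∈ T, x).card : ℝ) ≤ G j := by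
  cases j with
  | zero =>
    have h1 : ((Gd U G 0).filter fun S => ∑ x ∈ S, x = ∑ x ∈ T, x).card ≤ 1 :=
      (card_filter_le _ _).trans (by show ({∅} : Finset (Finset ℕ)).card ≤ 1; simp)
    have h2 : (((Gd U G 0).filter fun S => ∑ x ∈ S, x = ∑ x ∈ T, x).card : ℝ) ≤ 1 := by
      exact_mod_cast h1
    exact h2.trans h0
  | succ j =>
    refine le_trans ?_ ((mem_Gd U G j T).1 hT).2
    have h1 : ((Gd U G (j + 1)).filter fun S => ∑ x ∈ S, x = ∑ x ∈ T, x).card ≤
        (fam (Fm U G (j + 1)) (∑ x ∈ T, x) ∅).card := by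
      refine card_le_card fun S hS => ?_
      rw [mem_filter] at hS
      rw [mem_fam]
      exact ⟨((mem_Gd U G j S).1 hS.1).1, hS.2, empty_subset _⟩
    exact_mod_cast h1

theorem part1 (h0 : 1 ≤ G 0) (hG : ∀ j, 0 ≤ G j) (i σ : ℕ) (T : Finset ℕ) (hi : 1 ≤ i)
    (hT : T.Nonempty) (hTi : T.card ≤ i) :
    ((fam (Fm U G i) σ T).card : ℝ) ≤ G (i - T.card) := by
  obtain ⟨i, rfl⟩ : ∃ k, i = k + 1 := ⟨i - 1, by omega⟩
  have hT1 : 1 ≤ T.card := card_pos.2 hT
  rcases (fam (Fm U G (i + 1)) σ T).eq_empty_or_nonempty with h1 | ⟨S0, hS0⟩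
  · rw [h1, card_empty, Nat.cast_zero]
    exact hG _
  have hval : ∀ S ∈ fam (Fm U G (i + 1)) σ T, S \ T ∈ Gd U G (i + 1 - T.card) ∧
      ∑ x ∈ S \ T, x = σ - ∑ x ∈ T, x := by
    intro S hS
    rw [mem_fam] at hS
    obtain ⟨h2, h3, h4⟩ := hS
    have h5 : (S \ T).card = i + 1 - T.card := by
      rw [card_sdiff_of_subset h4, ((mem_Fm U G i S).1 h2).1.2]
    refine ⟨?_, ?_⟩
    · rw [← h5]
      exact sub_Gd U G i S h2 _ sdiff_subset (by omega)
    · have h6 := sum_sdiff (f := fun x : ℕ => x) h4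
      omega
  refine le_trans ?_ (fib U G h0 (i + 1 - T.card) (S0 \ T) (hval S0 hS0).1)
  have h2 : (fam (Fm U G (i + 1)) σ T).card ≤
      ((Gd U G (i + 1 - T.card)).filter fun S => ∑ x ∈ S, x = ∑ x ∈ S0 \ T, x).card := by
    refine card_le_card_of_injOn (fun S => S \ T) (fun S hS => ?_) (fun S hS S' hS' h => ?_)
    · rw [mem_coe, mem_filter]
      exact ⟨(hval S hS).1, (hval S hS).2.trans (hval S0 hS0).2.symm⟩
    · rw [mem_coe, mem_fam] at hS hS'
      simp only at h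
      rw [← sdiff_union_of_subset hS.2.2, h, sdiff_union_of_subset hS'.2.2]
  exact_mod_cast h2

/-! ### the second part -/

theorem Gd_one (hG : 1 ≤ G 1) : U.powersetCard 1 ⊆ Gd U G 1 := by
  intro S hS
  rw [mem_powersetCard] at hS
  rw [mem_Gd]
  refine ⟨?_, ?_⟩
  · rw [mem_Fm]
    refine ⟨hS, fun T _ hT => ?_⟩
    rw [card_eq_zero.1 hT]
    exact empty_Gd U G
  · refine le_trans ?_ hG
    have h1 : (fam (Fm U G (0 + 1)) (∑ x ∈ S, x) ∅).card ≤ 1 := by
      rw [card_le_one]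
      intro A hA B hB
      rw [mem_fam, mem_Fm] at hA hB
      obtain ⟨a, rfl⟩ := card_eq_one.1 hA.1.1.2
      obtain ⟨b, rfl⟩ := card_eq_one.1 hB.1.1.2
      have h2 := hA.2.1.trans hB.2.1.symm
      rw [sum_singleton, sum_singleton] at h2
      rw [h2]
    exact_mod_cast h1

theorem rec_bad (i : ℕ) : (U.powersetCard (i + 1) \ Gd U G (i + 1)).card ≤
    U.card * (U.powersetCard i \ Gd U G i).card +
      (richPart (Fm U G (i + 1)) (G (i + 1))).card := by
  have h1 : U.powersetCard (i + 1) \ Gd U G (i + 1) ⊆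
      (U ×ˢ (U.powersetCard i \ Gd U G i)).image (fun p => insert p.1 p.2) ∪
        richPart (Fm U G (i + 1)) (G (i + 1)) := by
    intro S hS
    rw [mem_sdiff, mem_powersetCard, mem_Gd] at hS
    obtain ⟨⟨hSU, hSc⟩, hS2⟩ := hS
    rw [mem_union]
    by_cases hF : S ∈ Fm U G (i + 1)
    · right
      unfold richPart
      rw [mem_filter]
      refine ⟨hF, ?_⟩
      by_contra hcon
      exact hS2 ⟨hF, not_lt.1 hcon⟩
    · left
      rw [mem_Fm] at hF
      push Not at hF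
      obtain ⟨T, hTS, hTc, hTG⟩ := hF ⟨hSU, hSc⟩
      have h2 : (S \ T).card = 1 := by
        rw [card_sdiff_of_subset hTS, hSc, hTc]
        omega
      obtain ⟨v, hv⟩ := card_eq_one.1 h2
      have hvS : v ∈ S := by
        have : v ∈ S \ T := by rw [hv]; exact mem_singleton_self v
        exact (mem_sdiff.1 this).1
      rw [mem_image]
      refine ⟨(v, T), ?_, ?_⟩
      · rw [mem_product, mem_sdiff, mem_powersetCard]
        exact ⟨hSU hvS, ⟨hTS.trans hSU, hTc⟩, hTG⟩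
      · simp only
        rw [insert_eq, ← hv, sdiff_union_of_subset hTS]
  refine (card_le_card h1).trans ((card_union_le _ _).trans ?_)
  refine Nat.add_le_add_right (card_image_le.trans ?_) _
  rw [card_product]

theorem bad_bound (h : ℕ) (δ : ℝ) (hG : 1 ≤ G 1)
    (hr : ∀ i, 2 ≤ i → i ≤ h →
      ((richPart (Fm U G i) (G i)).card : ℝ) ≤ δ * (U.card : ℝ) ^ i) (i : ℕ) (hi : i + 1 ≤ h) :
    ((U.powersetCard (i + 1) \ Gd U G (i + 1)).card : ℝ) ≤ i * δ * (U.card : ℝ) ^ (i + 1) := by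
  induction i with
  | zero =>
    rw [sdiff_eq_empty_iff_subset.2 (Gd_one U G hG)]
    simp
  | succ i ih =>
    have h1 := ih (by omega)
    have h2 := hr (i + 1 + 1) (by omega) hi
    have h3 : ((U.powersetCard (i + 1 + 1) \ Gd U G (i + 1 + 1)).card : ℝ) ≤
        U.card * (U.powersetCard (i + 1) \ Gd U G (i + 1)).card +
          (richPart (Fm U G (i + 1 + 1)) (G (i + 1 + 1))).card := by
      exact_mod_cast rec_bad U G (i + 1)
    have h4 : (U.card : ℝ) * (U.powersetCard (i + 1) \ Gd U G (i + 1)).card ≤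
        U.card * (i * δ * (U.card : ℝ) ^ (i + 1)) := mul_le_mul_of_nonneg_left h1 (by positivity)
    have h5 : ((i + 1 : ℕ) : ℝ) * δ * (U.card : ℝ) ^ (i + 1 + 1) =
        U.card * (i * δ * (U.card : ℝ) ^ (i + 1)) + δ * (U.card : ℝ) ^ (i + 1 + 1) := by
      push_cast
      ring
    rw [h5]
    linarith

theorem good_bound (h N : ℕ) (B : ℝ) (hB : 0 ≤ B) (hU : U ⊆ range (N + 1)) (hh : 1 ≤ h)
    (hG : G h ≤ B) : ((Gd U G h).card : ℝ) ≤ (h * N + 1 : ℕ) * B := by
  obtain ⟨h, rfl⟩ : ∃ k, h = k + 1 := ⟨h - 1, by omega⟩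
  have h1 : Set.MapsTo (fun S : Finset ℕ => ∑ x ∈ S, x) ((Gd U G (h + 1) : Finset (Finset ℕ)) :
      Set (Finset ℕ)) ((range ((h + 1) * N + 1) : Finset ℕ) : Set ℕ) := by
    intro S hS
    rw [mem_coe, mem_Gd, mem_Fm] at hS
    rw [mem_coe, mem_range]
    have h2 : ∑ x ∈ S, x ≤ ∑ _x ∈ S, N := by
      refine sum_le_sum fun x hx => ?_
      have := mem_range.1 (hU (hS.1.1.1 hx))
      omega
    rw [sum_const, hS.1.1.2, smul_eq_mul] at h2
    simp only
    omega
  rw [card_eq_sum_card_fiberwise h1]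
  push_cast
  have h3 : ∀ σ ∈ range ((h + 1) * N + 1),
      (((Gd U G (h + 1)).filter fun S => ∑ x ∈ S, x = σ).card : ℝ) ≤ B := by
    intro σ _
    rcases ((Gd U G (h + 1)).filter fun S => ∑ x ∈ S, x = σ).eq_empty_or_nonempty with h4 | ⟨T, hT⟩
    · rw [h4, card_empty, Nat.cast_zero]
      exact hB
    · rw [mem_filter, mem_Gd] at hT
      refine le_trans ?_ (hT.1.2.trans hG)
      have h5 : ((Gd U G (h + 1)).filter fun S => ∑ x ∈ S, x = σ).card ≤
          (fam (Fm U G (h + 1)) (∑ x ∈ T, x) ∅).card := by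
        refine card_le_card fun S hS => ?_
        rw [mem_filter] at hS
        rw [mem_fam, hT.2]
        exact ⟨((mem_Gd U G h S).1 hS.1).1, hS.2, empty_subset _⟩
      exact_mod_cast h5
  refine (sum_le_sum h3).trans ?_
  rw [sum_const, card_range, nsmul_eq_mul]
  push_cast
  exact le_rfl

theorem choose_bound (h M : ℕ) (hM : 2 * h ≤ M) :
    (1 / (2 ^ h * (h.factorial : ℝ))) * (M : ℝ) ^ h ≤ (M.choose h : ℝ) := by
  have h1 := Nat.pow_le_choose (α := ℝ) h M
  have h2 : ((M : ℝ) / 2) ^ h ≤ ((M + 1 - h : ℕ) : ℝ) ^ h := by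
    refine pow_le_pow_left₀ (by positivity) ?_ h
    rw [Nat.cast_sub (by omega)]
    push_cast
    have : (2 * h : ℝ) ≤ M := by exact_mod_cast hM
    linarith
  have h3 : (0 : ℝ) < h.factorial := by exact_mod_cast h.factorial_pos
  have h4 : (1 / (2 ^ h * (h.factorial : ℝ))) * (M : ℝ) ^ h = ((M : ℝ) / 2) ^ h / h.factorial := by
    rw [div_pow]
    field_simp
  rw [h4]
  refine (div_le_div_of_nonneg_right h2 h3.le).trans ?_
  exact h1

theorem main : Pool.Agent.Y940.CH.S_lev := by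
  refine ⟨fun U G h0 hG i σ T hi hT hTi => part1 U G h0 hG i σ T hi hT hTi, fun h hh => ?_⟩
  have hf : (0 : ℝ) < h.factorial := by exact_mod_cast h.factorial_pos
  obtain ⟨κ, hκ⟩ : ∃ κ : ℝ, κ = 1 / (2 ^ h * (h.factorial : ℝ)) := ⟨_, rfl⟩
  have hκ0 : 0 < κ := by rw [hκ]; positivity
  have hκ1 : κ ≤ 1 := by
    rw [hκ, div_le_one (by positivity)]
    have h1 : (1 : ℝ) ≤ 2 ^ h := one_le_pow₀ (by norm_num)
    have h2 : (1 : ℝ) ≤ h.factorial := by exact_mod_cast h.factorial_pos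
    nlinarith
  have hh0 : (2 : ℝ) ≤ h := by exact_mod_cast hh
  obtain ⟨δ, hδ⟩ : ∃ δ : ℝ, δ = κ / (2 * h) := ⟨_, rfl⟩
  have hδ0 : 0 < δ := by rw [hδ]; positivity
  have hδ1 : h * δ = κ / 2 := by rw [hδ]; field_simp
  have hL1 : 1 ≤ h / δ := by
    rw [le_div_iff₀ hδ0]
    nlinarith
  refine ⟨δ, hδ0, h / δ, hL1, fun N U G hU hM hG1 hGh => ?_⟩
  by_contra hcon
  push Not at hcon
  have h1 := bad_bound U G h δ hG1 (fun i hi hi' => (hcon i hi hi').le) (h - 1) (by omega)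
  have e1 : h - 1 + 1 = h := by omega
  rw [e1] at h1
  have hB : (0 : ℝ) ≤ (U.card : ℝ) ^ h / (h / δ * (N + 1)) := by positivity
  have h2 := good_bound U G h N _ hB hU (by omega) hGh
  have h3 := choose_bound h U.card hM
  rw [← hκ] at h3
  have h4 : (U.card.choose h : ℝ) ≤
      (U.powersetCard h \ Gd U G h).card + (Gd U G h).card := by
    have h5 : (U.powersetCard h).card ≤ (U.powersetCard h \ Gd U G h).card + (Gd U G h).card := by
      rw [add_comm]
      refine le_trans (card_le_card ?_) (card_union_le _ _)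
      intro S hS
      rw [mem_union, mem_sdiff]
      by_cases hSG : S ∈ Gd U G h
      · exact Or.inl hSG
      · exact Or.inr ⟨hS, hSG⟩
    rw [card_powersetCard] at h5
    exact_mod_cast h5
  have hMp : (0 : ℝ) < (U.card : ℝ) ^ h := by
    have : 0 < U.card := by omega
    positivity
  have h6 : ((h * N + 1 : ℕ) : ℝ) * ((U.card : ℝ) ^ h / (h / δ * (N + 1))) ≤
      δ * (U.card : ℝ) ^ h := by
    have h7 : (h * (N + 1) : ℝ) * ((U.card : ℝ) ^ h / (h / δ * (N + 1))) =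
        δ * (U.card : ℝ) ^ h := by
      have : (0 : ℝ) < h := by linarith
      field_simp
    rw [← h7]
    refine mul_le_mul_of_nonneg_right ?_ hB
    push_cast
    nlinarith
  have h8 : ((h - 1 : ℕ) : ℝ) * δ * (U.card : ℝ) ^ h + δ * (U.card : ℝ) ^ h =
      κ / 2 * (U.card : ℝ) ^ h := by
    rw [Nat.cast_sub (by omega), ← hδ1]
    push_cast
    ring
  nlinarith

end Pool.Agent.Y940.CH.Lev
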