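import Pool.Agent.Y940.CH.Step2
import Pool.Agent.Y940.CH.Lev
import Pool.Agent.Y940.CH.Iter
import Pool.Agent.Y940.CH.Prob
import Pool.Agent.Y940.CH.Forms
import Pool.Agent.Y940.CT.Thresh
import Pool.Agent.Y940.CT.Forms
/-!
# Sets with bounded representation function of order `h` inside random sets
-/

set_option autoImplicit false

open Finset Filter MeasureTheory ProbabilityTheory

namespace Pool.Agent.Y940.CH

open Pool.Agent.Y940.RS (rset)
open Pool.Agent.Y940.CT (RCov Sub count seg count_eq count_split)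

universe u

theorem cont_main : S_cont := Iter.main (step_main Lev.main)

theorem ae_main : S_ae.{u} := prob_main cont_main

theorem rep_le_of_subset {B B' : Set ℕ} (hBB : B ⊆ B') (h n : ℕ) : rep B h n ≤ rep B' h n := by
  unfold rep
  refine Set.ncard_le_ncard ?_ (Forms.fin_reps B' h n)
  rintro s ⟨h1, h2, h3⟩
  exact ⟨h1, fun a ha => hBB (h2 a ha), h3⟩

theorem mem_seg {B : Set ℕ} {N n : ℕ} : n ∈ seg B N ↔ n ∈ Icc 1 N ∧ n ∈ B := by
  simp only [seg, mem_filter]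

/-- the basic bound for all subsets -/
theorem ae_subsets (h K : ℕ) (hh : 2 ≤ h) : ∃ C : ℝ, 0 < C ∧
    ∀ (Ω : Type u) [MeasurableSpace Ω] (μ : Measure Ω) [IsProbabilityMeasure μ] (E : ℕ → Set Ω)
      (p : ℕ → ℝ), Sub μ E p → ∀ (M : ℕ → ℕ) (ϖ : ℕ → ℝ),
      (∀ᶠ N : ℕ in atTop, (N : ℝ) ^ (-(1 / (4 * ((K : ℝ) + 1) ^ 2 * (h : ℝ) ^ 2))) ≤ ϖ N ∧
        ϖ N ≤ 1 / 3 ∧ ∀ n, M N < n → n ≤ N → p n ≤ ϖ N) →
      ∀ᵐ ω ∂μ, ∀ B : Set ℕ, B ⊆ rset E ω → (∀ n, rep B h n ≤ K) →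
        ∀ᶠ N : ℕ in atTop, count B N ≤
          C * ((M N : ℝ) + 1) ^ (1 / (h : ℝ)) + C * (ϖ N * N) ^ (1 / (h : ℝ)) := by
  classical
  obtain ⟨C₁, hC₁, hae⟩ := ae_main.{u} h (K + 1) hh (by omega)
  obtain ⟨_, hfree, hcount, _, _⟩ := Forms.main
  obtain ⟨C₂, hC₂, hcnt⟩ := hcount h K hh
  refine ⟨max C₁ C₂, lt_max_of_lt_left hC₁, ?_⟩
  intro Ω _ μ _ E p hE M ϖ hev
  have hev' : ∀ᶠ N : ℕ in atTop, (N : ℝ) ^ (-(1 / (4 * ((K + 1 : ℕ) : ℝ) ^ 2 * (h : ℝ) ^ 2))) ≤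
      ϖ N ∧ ϖ N ≤ 1 / 3 ∧ ∀ n, M N < n → n ≤ N → p n ≤ ϖ N := by
    push_cast
    exact hev
  filter_upwards [hae Ω μ E p hE M ϖ hev'] with ω hω B hB hK
  filter_upwards [hω, hev] with N hN hN2
  have h1 := hN ((seg B N).filter fun n => M N < n) (fun n hn => by
    rw [mem_filter] at hn
    obtain ⟨h2, h3⟩ := hn
    unfold seg at h2
    rw [mem_filter, mem_Icc] at h2
    exact ⟨h3, h2.1.2, hB h2.2⟩) (hfree B h K hK _ (fun x hx => by
      rw [mem_filter] at hx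
      obtain ⟨h2, _⟩ := hx
      unfold seg at h2
      exact (mem_filter.1 h2).2))
  have h2 := count_split B (M N) N
  have h3 := hcnt B hK (M N)
  have hϖ : 0 ≤ ϖ N := le_trans (by positivity) hN2.1
  have h4 : 0 ≤ ((M N : ℝ) + 1) ^ (1 / (h : ℝ)) := by positivity
  have h5 : 0 ≤ (ϖ N * N) ^ (1 / (h : ℝ)) := by positivity
  have h6 : C₂ * ((M N : ℝ) + 1) ^ (1 / (h : ℝ)) ≤ max C₁ C₂ * ((M N : ℝ) + 1) ^ (1 / (h : ℝ)) :=
    mul_le_mul_of_nonneg_right (le_max_right _ _) h4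
  have h7 : C₁ * (ϖ N * N) ^ (1 / (h : ℝ)) ≤ max C₁ C₂ * (ϖ N * N) ^ (1 / (h : ℝ)) :=
    mul_le_mul_of_nonneg_right (le_max_left _ _) h5
  linarith

theorem sub_restrict {Ω : Type u} [MeasurableSpace Ω] {μ : Measure Ω} [IsProbabilityMeasure μ]
    {E : ℕ → Set Ω} {p : ℕ → ℝ} (hE : Sub μ E p) (ε : ℝ) :
    Sub μ (fun n => if p n ≤ ε then E n else ∅) (fun n => if p n ≤ ε then p n else 0) := by
  classical
  refine ⟨fun n => ?_, fun T => ?_⟩
  · simp only
    split_ifs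
    · exact hE.1 n
    · exact le_rfl
  · by_cases hall : ∀ n ∈ T, p n ≤ ε
    · have h1 : ⋂ n ∈ T, (if p n ≤ ε then E n else ∅) = ⋂ n ∈ T, E n :=
        Set.iInter₂_congr fun n hn => if_pos (hall n hn)
      have h2 : ∏ n ∈ T, (if p n ≤ ε then p n else 0) = ∏ n ∈ T, p n :=
        prod_congr rfl fun n hn => if_pos (hall n hn)
      rw [h1, h2]
      exact hE.2 T
    · push Not at hall
      obtain ⟨n, hn, hn2⟩ := hall
      have h1 : ⋂ n ∈ T, (if p n ≤ ε then E n else ∅) = ∅ := by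
        rw [Set.eq_empty_iff_forall_notMem]
        intro ω hω
        rw [Set.mem_iInter₂] at hω
        have h3 := hω n hn
        rw [if_neg (not_le.2 hn2)] at h3
        exact h3
      have h2 : ∏ n ∈ T, (if p n ≤ ε then p n else 0) = 0 :=
        prod_eq_zero hn (if_neg (not_le.2 hn2))
      rw [h1, h2]
      simp

/-- localisation -/
theorem localisation (h K : ℕ) (hh : 2 ≤ h) : ∃ C : ℝ, 0 < C ∧ ∀ c : ℝ, 0 < c →
    ∀ (Ω : Type u) [MeasurableSpace Ω] (μ : Measure Ω) [IsProbabilityMeasure μ]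
      (E : ℕ → Set Ω) (p : ℕ → ℝ), Sub μ E p →
      ∀ᵐ ω ∂μ, ∀ B : Set ℕ, B ⊆ rset E ω → (∀ n, rep B h n ≤ K) →
        ∀ᶠ N : ℕ in atTop, count (B ∩ {n | p n ≤ c ^ h / C}) N < c * (N : ℝ) ^ (1 / (h : ℝ)) := by
  classical
  obtain ⟨C₀, hC₀, hmain⟩ := ae_subsets.{u} h K hh
  obtain ⟨_, hfree, hcount, _, _⟩ := Forms.main
  obtain ⟨C₂, hC₂, hcnt⟩ := hcount h K hh
  have hh0 : (0 : ℝ) < h := by exact_mod_cast (by omega : 0 < h)
  set b : ℝ := 8 * (C₀ + C₂) + 1 with hb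
  have hb0 : 0 < b := by positivity
  refine ⟨b ^ h, by positivity, ?_⟩
  intro c hc Ω _ μ _ E p hE
  set ε : ℝ := c ^ h / b ^ h with hε
  have hε0 : 0 < ε := by positivity
  have hlimN : Tendsto (fun N : ℕ => (N : ℝ) ^ (1 / (h : ℝ))) atTop atTop :=
    (tendsto_rpow_atTop (by positivity)).comp tendsto_natCast_atTop_atTop
  -- the `h`-th root of `ε`
  have hroot : ε ^ (1 / (h : ℝ)) = c / b := by
    rw [hε, ← div_pow, ← Real.rpow_natCast, ← Real.rpow_mul (by positivity), mul_one_div,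
      div_self hh0.ne', Real.rpow_one]
  by_cases hbig : 1 / 3 < ε
  · -- the trivial bound
    have h1 : 1 / 2 ≤ c / b := by
      rw [← hroot]
      calc (1 / 2 : ℝ) ≤ (1 / 3 : ℝ) ^ (1 / 2 : ℝ) := by
            rw [← Real.sqrt_eq_rpow]
            refine Real.le_sqrt_of_sq_le ?_
            norm_num
        _ ≤ (1 / 3 : ℝ) ^ (1 / (h : ℝ)) := by
            refine Real.rpow_le_rpow_of_exponent_ge (by norm_num) (by norm_num) ?_
            exact one_div_le_one_div_of_le (by norm_num) (by exact_mod_cast hh)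
        _ ≤ ε ^ (1 / (h : ℝ)) := Real.rpow_le_rpow (by norm_num) hbig.le (by positivity)
    rw [div_le_div_iff₀ (by norm_num) hb0] at h1
    refine Eventually.of_forall fun ω B _ hK => ?_
    filter_upwards [eventually_ge_atTop 1] with N hN
    have hN1 : (1 : ℝ) ≤ N := by exact_mod_cast hN
    have h7 := hcnt (B ∩ {n | p n ≤ ε})
      (fun n => (rep_le_of_subset Set.inter_subset_left h n).trans (hK n)) N
    refine lt_of_le_of_lt h7 ?_
    have h9 : (0 : ℝ) < (N : ℝ) ^ (1 / (h : ℝ)) := by positivity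
    have h8 : ((N : ℝ) + 1) ^ (1 / (h : ℝ)) ≤ 2 * (N : ℝ) ^ (1 / (h : ℝ)) := by
      calc ((N : ℝ) + 1) ^ (1 / (h : ℝ)) ≤ (2 * (N : ℝ)) ^ (1 / (h : ℝ)) :=
            Real.rpow_le_rpow (by linarith) (by linarith) (by positivity)
        _ = 2 ^ (1 / (h : ℝ)) * (N : ℝ) ^ (1 / (h : ℝ)) := Real.mul_rpow (by norm_num) (by linarith)
        _ ≤ 2 * (N : ℝ) ^ (1 / (h : ℝ)) := by
            refine mul_le_mul_of_nonneg_right ?_ h9.le
            nth_rewrite 2 [← Real.rpow_one (2 : ℝ)]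
            refine Real.rpow_le_rpow_of_exponent_le (by norm_num) ?_
            rw [div_le_one hh0]
            exact_mod_cast (by omega : 1 ≤ h)
    calc C₂ * ((N : ℝ) + 1) ^ (1 / (h : ℝ))
        ≤ C₂ * (2 * (N : ℝ) ^ (1 / (h : ℝ))) := mul_le_mul_of_nonneg_left h8 hC₂.le
      _ = (2 * C₂) * (N : ℝ) ^ (1 / (h : ℝ)) := by ring
      _ < c * (N : ℝ) ^ (1 / (h : ℝ)) := by
          refine mul_lt_mul_of_pos_right ?_ h9
          rw [hb] at h1
          linarith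
  · push Not at hbig
    have hlim : Tendsto (fun N : ℕ =>
        (N : ℝ) ^ (-(1 / (4 * ((K : ℝ) + 1) ^ 2 * (h : ℝ) ^ 2)))) atTop (nhds 0) :=
      (tendsto_rpow_neg_atTop (by positivity)).comp tendsto_natCast_atTop_atTop
    have h1 := hmain Ω μ _ _ (sub_restrict hE ε) (fun _ => 0) (fun _ => ε) (by
      filter_upwards [hlim.eventually (Iic_mem_nhds hε0)] with N hN
      refine ⟨hN, hbig, fun n _ _ => ?_⟩
      by_cases h : p n ≤ ε
      · rw [if_pos h]
        exact h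
      · rw [if_neg h]
        exact hε0.le)
    filter_upwards [h1] with ω hω B hB hK
    have h2 := hω (B ∩ {n | p n ≤ ε}) (by
      rintro n ⟨hn1, hn2⟩
      have h2 : ω ∈ E n := hB hn1
      have h3 : p n ≤ ε := hn2
      change ω ∈ if p n ≤ ε then E n else ∅
      rw [if_pos h3]
      exact h2) (fun n => (rep_le_of_subset Set.inter_subset_left h n).trans (hK n))
    filter_upwards [h2, hlimN.eventually_gt_atTop (C₀ / (c / 2))] with N h3 h4
    have h9 : (0 : ℝ) ≤ (N : ℝ) ^ (1 / (h : ℝ)) := by positivity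
    rw [div_lt_iff₀ (by positivity)] at h4
    have h5 : C₀ * (ε * N) ^ (1 / (h : ℝ)) ≤ c / 2 * (N : ℝ) ^ (1 / (h : ℝ)) := by
      rw [Real.mul_rpow hε0.le (Nat.cast_nonneg N), hroot, ← mul_assoc]
      refine mul_le_mul_of_nonneg_right ?_ h9
      rw [← mul_div_assoc, div_le_iff₀ hb0, hb]
      nlinarith
    have h6 : (((0 : ℕ) : ℝ) + 1) ^ (1 / (h : ℝ)) = 1 := by
      norm_num
    rw [h6, mul_one] at h3
    linarith

theorem little_o {Ω : Type u} [MeasurableSpace Ω] {μ : Measure Ω} [IsProbabilityMeasure μ]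
    {E : ℕ → Set Ω} {p : ℕ → ℝ} (hE : Sub μ E p) (hp : Tendsto p atTop (nhds 0)) :
    ∀ᵐ ω ∂μ, ∀ h : ℕ, 2 ≤ h → ∀ B : Set ℕ, B ⊆ rset E ω → (∃ K, ∀ n, rep B h n ≤ K) →
      Tendsto (fun N : ℕ => count B N / (N : ℝ) ^ (1 / (h : ℝ))) atTop (nhds 0) := by
  classical
  have h1 : ∀ h K j : ℕ, ∀ᵐ ω ∂μ, 2 ≤ h → ∀ B : Set ℕ, B ⊆ rset E ω → (∀ n, rep B h n ≤ K) →
      ∀ᶠ N : ℕ in atTop, count B N < 1 / ((j : ℝ) + 1) * (N : ℝ) ^ (1 / (h : ℝ)) := by
    intro h K j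
    by_cases hh : 2 ≤ h
    · obtain ⟨C, hC, hmain⟩ := localisation.{u} h K hh
      have hh0 : (0 : ℝ) < h := by exact_mod_cast (by omega : 0 < h)
      set c : ℝ := 1 / (2 * ((j : ℝ) + 1)) with hc
      have hc0 : 0 < c := by positivity
      obtain ⟨n₀, hn₀⟩ := eventually_atTop.1
        (hp.eventually (Iic_mem_nhds (show (0 : ℝ) < c ^ h / C by positivity)))
      have hlimN : Tendsto (fun N : ℕ => (N : ℝ) ^ (1 / (h : ℝ))) atTop atTop :=
        (tendsto_rpow_atTop (by positivity)).comp tendsto_natCast_atTop_atTop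
      filter_upwards [hmain c hc0 Ω μ E p hE] with ω hω _ B hB hK
      filter_upwards [hω B hB hK, hlimN.eventually_gt_atTop ((n₀ : ℝ) / c)] with N h2 h3
      rw [div_lt_iff₀ hc0] at h3
      have h4 : count B N ≤ count (B ∩ {n | p n ≤ c ^ h / C}) N + n₀ := by
        rw [count_eq, count_eq]
        have h5 : seg B N ⊆ seg (B ∩ {n | p n ≤ c ^ h / C}) N ∪ range n₀ := by
          intro n hn
          rw [mem_seg] at hn
          rw [mem_union, mem_range, mem_seg]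
          by_cases hn2 : n < n₀
          · exact Or.inr hn2
          · left
            exact ⟨hn.1, hn.2, hn₀ n (by omega)⟩
        have h6 := (card_le_card h5).trans (card_union_le _ _)
        rw [card_range] at h6
        exact_mod_cast h6
      have h5 : 1 / ((j : ℝ) + 1) = c + c := by
        rw [hc]
        field_simp
        norm_num
      rw [h5, add_mul]
      linarith
    · exact Eventually.of_forall fun ω h => absurd h hh
  have h2 : ∀ᵐ ω ∂μ, ∀ h K j : ℕ, 2 ≤ h → ∀ B : Set ℕ, B ⊆ rset E ω → (∀ n, rep B h n ≤ K) →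
      ∀ᶠ N : ℕ in atTop, count B N < 1 / ((j : ℝ) + 1) * (N : ℝ) ^ (1 / (h : ℝ)) :=
    ae_all_iff.2 fun h => ae_all_iff.2 fun K => ae_all_iff.2 fun j => h1 h K j
  filter_upwards [h2] with ω hω h hh B hB hK
  obtain ⟨K, hK⟩ := hK
  have hh0 : (0 : ℝ) < h := by exact_mod_cast (by omega : 0 < h)
  rw [tendsto_order]
  constructor
  · intro a ha
    refine Eventually.of_forall fun N => lt_of_lt_of_le ha ?_
    unfold count
    positivity
  · intro a ha
    obtain ⟨j, hj⟩ := exists_nat_one_div_lt ha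
    filter_upwards [hω h K j hh B hB hK, eventually_gt_atTop 0] with N h3 h4
    have h5 : 0 < (N : ℝ) ^ (1 / (h : ℝ)) :=
      Real.rpow_pos_of_pos (by exact_mod_cast h4) _
    rw [div_lt_iff₀ h5]
    exact h3.trans (mul_lt_mul_of_pos_right hj h5)

theorem no_basis {B : Set ℕ} {h : ℕ} (hh : 2 ≤ h) (hB : ∀ᶠ n in atTop, 1 ≤ rep B h n)
    (h2 : Tendsto (fun N : ℕ => count B N / (N : ℝ) ^ (1 / (h : ℝ))) atTop (nhds 0)) : False := by
  obtain ⟨_, _, _, h3, _⟩ := Forms.main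
  obtain ⟨N, h4, h5, h6⟩ := ((h3 B h hh hB).and
    ((h2.eventually (Iio_mem_nhds (show (0 : ℝ) < 1 / 2 by norm_num))).and
      (eventually_gt_atTop 0))).exists
  have h7 : 0 < (N : ℝ) ^ (1 / (h : ℝ)) := Real.rpow_pos_of_pos (by exact_mod_cast h6) _
  have h8 : count B N / (N : ℝ) ^ (1 / (h : ℝ)) < 1 / 2 := h5
  rw [div_lt_iff₀ h7] at h8
  linarith

/-- the number of sets with bounded representation function -/
theorem counting (h K : ℕ) (hh : 2 ≤ h) : ∃ C : ℝ, 0 < C ∧ ∀ N : ℕ, 1 ≤ N →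
    (({B : Set ℕ | B ⊆ Set.Iic N ∧ ∀ n, rep B h n ≤ K}.ncard : ℕ) : ℝ) ≤
      Real.exp (C * (N : ℝ) ^ (1 / (h : ℝ))) := by
  classical
  obtain ⟨C, hC, hcont⟩ := cont_main h (K + 1) hh (by omega)
  obtain ⟨_, hfree, _, _, _⟩ := Forms.main
  refine ⟨C + C, by positivity, fun N hN => ?_⟩
  have hN1 : (1 : ℝ) ≤ N := by exact_mod_cast hN
  obtain ⟨ι, s, T, D, h1, h2, h3⟩ := hcont N hN 1
    (Real.rpow_le_one_of_one_le_of_nonpos hN1 (by
      have : 0 ≤ 1 / (4 * ((K + 1 : ℕ) : ℝ) ^ 2 * (h : ℝ) ^ 2) := by positivity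
      linarith)) le_rfl
  simp only [one_pow, sum_const, nsmul_eq_mul, mul_one, one_mul, div_one] at h1 h2
  set 𝒮 : Finset (Set ℕ) := s.biUnion fun i => ((D i).powerset).image
    fun A => ((T i ∪ A : Finset ℕ) : Set ℕ) with hS
  have hsub : {B : Set ℕ | B ⊆ Set.Iic N ∧ ∀ n, rep B h n ≤ K} ⊆ (𝒮 : Set (Set ℕ)) := by
    rintro B ⟨hB1, hB2⟩
    have hfin : B.Finite := (Set.finite_Iic N).subset hB1
    set I : Finset ℕ := hfin.toFinset with hI
    have hIB : (I : Set ℕ) = B := hfin.coe_toFinset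
    obtain ⟨i, hi, h4, h5⟩ := h3 I (empty_subset _) ⟨fun x hx => by
      rw [mem_range]
      have : x ∈ Set.Iic N := hB1 (hfin.mem_toFinset.1 hx)
      have h6 : x ≤ N := this
      omega, hfree B h K hB2 I fun x hx => hfin.mem_toFinset.1 hx⟩
    rw [mem_coe, hS, mem_biUnion]
    refine ⟨i, hi, ?_⟩
    rw [mem_image]
    refine ⟨I \ T i, ?_, ?_⟩
    · rw [mem_powerset]
      intro x hx
      obtain ⟨h6, h7⟩ := mem_sdiff.1 hx
      rcases mem_union.1 (h5 h6) with h8 | h8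
      · exact absurd h8 h7
      · exact h8
    · rw [union_sdiff_of_subset h4, hIB]
  have hcard : (𝒮.card : ℝ) ≤ Real.exp ((C + C) * (N : ℝ) ^ (1 / (h : ℝ))) := by
    have h4 : (𝒮.card : ℝ) ≤ ∑ i ∈ s, (2 : ℝ) ^ (D i).card := by
      have h5 : 𝒮.card ≤ ∑ i ∈ s, 2 ^ (D i).card := by
        rw [hS]
        refine card_biUnion_le.trans (sum_le_sum fun i _ => ?_)
        rw [← card_powerset]
        exact card_image_le
      exact_mod_cast h5
    have h6 : ∀ i ∈ s, (2 : ℝ) ^ (D i).card ≤ Real.exp (C * (N : ℝ) ^ (1 / (h : ℝ))) := by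
      intro i hi
      calc (2 : ℝ) ^ (D i).card ≤ (Real.exp 1) ^ (D i).card := by
            refine pow_le_pow_left₀ (by norm_num) ?_ _
            have := Real.add_one_le_exp (1 : ℝ)
            linarith
        _ = Real.exp (D i).card := by
            rw [← Real.exp_nat_mul, mul_one]
        _ ≤ _ := Real.exp_le_exp.2 (h2 i hi).2.2.2.2
    refine h4.trans ((sum_le_sum h6).trans ?_)
    rw [sum_const, nsmul_eq_mul, add_mul, Real.exp_add]
    exact mul_le_mul_of_nonneg_right h1 (Real.exp_pos _).le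
  refine le_trans ?_ hcard
  rw [← Set.ncard_coe_finset 𝒮]
  exact_mod_cast Set.ncard_le_ncard hsub (finite_toSet 𝒮)

end Pool.Agent.Y940.CH
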