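import Pool.Agent.Y940.CH.Stm
import Pool.Agent.Y940.RS.Basis
/-!
# Unbounded representations of the level sets (by helper764)
-/

set_option autoImplicit false

open Finset Filter MeasureTheory ProbabilityTheory

namespace Pool.Agent.Y940.CH

open Pool.Agent.Y940.RS (rset)

universe u

namespace Level

theorem reps_finite (A : Set ℕ) (h n : ℕ) :
    {s : Multiset ℕ | Multiset.card s = h ∧ (∀ a ∈ s, a ∈ A) ∧ s.sum = n}.Finite := by
  classical
  refine (Multiset.toFinset (Multiset.powerset (h • (Finset.range (n + 1)).val))).finite_toSet.subset ?_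
  rintro s ⟨h1, -, h2⟩
  rw [mem_coe, Multiset.mem_toFinset, Multiset.mem_powerset, Multiset.le_iff_count]
  intro a
  rw [Multiset.count_nsmul]
  by_cases ha : a ∈ s
  · have h3 : a ≤ n := by
      rw [← h2]
      exact Multiset.le_sum_of_mem ha
    have h4 : 1 ≤ Multiset.count a (Finset.range (n + 1)).val :=
      Multiset.one_le_count_iff_mem.2
        (show a ∈ (Finset.range (n + 1)).val from Finset.mem_range.2 (by omega))
    calc Multiset.count a s ≤ Multiset.card s := Multiset.count_le_card a s
      _ = h * 1 := by rw [h1, mul_one]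
      _ ≤ _ := Nat.mul_le_mul_left _ h4
  · rw [Multiset.count_eq_zero.2 ha]
    exact Nat.zero_le _

/-- sunflowers of multisets -/
theorem sunf (L : Set ℕ) (m : ℕ) : ∀ (h : ℕ) (FF : Finset (Multiset ℕ)) (n : ℕ),
    (∀ s ∈ FF, Multiset.card s = h ∧ (∀ a ∈ s, a ∈ L) ∧ s.sum = n) → (h * m) ^ h < FF.card →
    ∃ i, 1 ≤ i ∧ i ≤ h ∧ ∃ (n' : ℕ) (G : Finset (Multiset ℕ)), G.card = m ∧
      (∀ s ∈ G, Multiset.card s = i ∧ (∀ a ∈ s, a ∈ L) ∧ s.sum = n') ∧
      (∀ s ∈ G, ∀ t ∈ G, s ≠ t → Disjoint s.toFinset t.toFinset) := by
  classical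
  intro h
  induction h with
  | zero =>
    intro FF n hF hc
    exfalso
    have h1 : FF ⊆ {0} := by
      intro s hs
      rw [Finset.mem_singleton]
      exact Multiset.card_eq_zero.1 (hF s hs).1
    have h2 := Finset.card_le_card h1
    rw [Finset.card_singleton] at h2
    rw [pow_zero] at hc
    omega
  | succ h ih =>
    intro FF n hF hc
    set PP : Finset (Finset (Multiset ℕ)) := FF.powerset.filter fun G =>
      ∀ s ∈ G, ∀ t ∈ G, s ≠ t → Disjoint s.toFinset t.toFinset with hPP
    have hne : PP.Nonempty := ⟨∅, by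
      rw [hPP, Finset.mem_filter, Finset.mem_powerset]
      exact ⟨Finset.empty_subset _, fun s hs => absurd hs (Finset.notMem_empty s)⟩⟩
    obtain ⟨G, hG, hmax⟩ := Finset.exists_max_image PP Finset.card hne
    rw [hPP, Finset.mem_filter, Finset.mem_powerset] at hG
    obtain ⟨hGF, hGd⟩ := hG
    by_cases hm : m ≤ G.card
    · obtain ⟨G', hG', hG'c⟩ := Finset.exists_subset_card_eq hm
      exact ⟨h + 1, by omega, le_rfl, n, G', hG'c, fun s hs => hF s (hGF (hG' hs)),
        fun s hs t ht => hGd s (hG' hs) t (hG' ht)⟩
    · set V : Finset ℕ := G.biUnion Multiset.toFinset with hV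
      have hVc : V.card ≤ (h + 1) * m := by
        refine (Finset.card_biUnion_le_card_mul G _ (h + 1) fun s hs => ?_).trans ?_
        · exact (Multiset.toFinset_card_le s).trans (hF s (hGF hs)).1.le
        · rw [mul_comm]
          exact Nat.mul_le_mul_left _ (by omega)
      have hmeet : ∀ s ∈ FF, ∃ x ∈ V, x ∈ s := by
        intro s hs
        by_cases hsG : s ∈ G
        · have h1 : 0 < Multiset.card s := by rw [(hF s hs).1]; omega
          obtain ⟨x, hx⟩ := Multiset.card_pos_iff_exists_mem.1 h1
          exact ⟨x, Finset.mem_biUnion.2 ⟨s, hsG, Multiset.mem_toFinset.2 hx⟩, hx⟩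
        · by_contra hcon
          push Not at hcon
          have h1 : insert s G ∈ PP := by
            rw [hPP, Finset.mem_filter, Finset.mem_powerset]
            refine ⟨Finset.insert_subset hs hGF, ?_⟩
            have h2 : ∀ t ∈ G, Disjoint s.toFinset t.toFinset := by
              intro t ht
              rw [Finset.disjoint_left]
              intro x hx1 hx2
              exact hcon x (Finset.mem_biUnion.2 ⟨t, ht, hx2⟩) (Multiset.mem_toFinset.1 hx1)
            intro a ha b hb hab
            rcases Finset.mem_insert.1 ha with ha' | ha'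
            · rcases Finset.mem_insert.1 hb with hb' | hb'
              · exact absurd (ha'.trans hb'.symm) hab
              · rw [ha']
                exact h2 b hb'
            · rcases Finset.mem_insert.1 hb with hb' | hb'
              · rw [hb']
                exact (h2 a ha').symm
              · exact hGd a ha' b hb' hab
          have h2 := hmax _ h1
          rw [Finset.card_insert_of_notMem hsG] at h2
          omega
      choose! f hfV hfs using hmeet
      have hpig : V.card * ((h + 1) * m) ^ h < FF.card := by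
        refine lt_of_le_of_lt ?_ hc
        rw [pow_succ, mul_comm]
        exact Nat.mul_le_mul_left _ hVc
      obtain ⟨x, hxV, hx⟩ := Finset.exists_lt_card_fiber_of_mul_lt_card_of_maps_to hfV hpig
      set F1 := FF.filter fun s => f s = x with hF1
      have hF1x : ∀ s ∈ F1, x ∈ s ∧ s ∈ FF := by
        intro s hs
        rw [hF1, Finset.mem_filter] at hs
        refine ⟨?_, hs.1⟩
        rw [← hs.2]
        exact hfs s hs.1
      have hinj : Set.InjOn (fun s : Multiset ℕ => s.erase x) (F1 : Set (Multiset ℕ)) := by
        intro s hs t ht hst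
        have h1 := Multiset.cons_erase (hF1x s hs).1
        have h2 := Multiset.cons_erase (hF1x t ht).1
        simp only at hst
        rw [← h1, ← h2, hst]
      have hA : ∀ s ∈ F1.image (fun s : Multiset ℕ => s.erase x),
          Multiset.card s = h ∧ (∀ a ∈ s, a ∈ L) ∧ s.sum = n - x := by
        intro s hs
        obtain ⟨t, ht, rfl⟩ := Finset.mem_image.1 hs
        obtain ⟨hxt, htF⟩ := hF1x t ht
        obtain ⟨h1, h2, h3⟩ := hF t htF
        refine ⟨?_, fun a ha => h2 a (Multiset.mem_of_mem_erase ha), ?_⟩
        · rw [Multiset.card_erase_of_mem hxt, h1, Nat.pred_succ]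
        · have h4 := congrArg Multiset.sum (Multiset.cons_erase hxt)
          rw [Multiset.sum_cons, h3] at h4
          omega
      have hB : (h * m) ^ h < (F1.image fun s : Multiset ℕ => s.erase x).card := by
        rw [Finset.card_image_of_injOn hinj]
        refine lt_of_le_of_lt ?_ hx
        exact Nat.pow_le_pow_left (Nat.mul_le_mul_right _ (by omega)) _
      obtain ⟨i, hi1, hi2, n', G', hG'⟩ := ih _ _ hA hB
      exact ⟨i, hi1, by omega, n', G', hG'⟩

end Level

open Level in
theorem level_main : S_level.{u} := by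
  classical
  intro Ω _ μ _ E hE hind h hh ε hε hL K
  set q : ℝ := (min ε 1) ^ h with hq
  have hmin0 : 0 < min ε 1 := lt_min hε one_pos
  have hmin1 : min ε 1 ≤ 1 := min_le_right _ _
  have hq0 : 0 < q := pow_pos hmin0 h
  have hq1 : q ≤ 1 := pow_le_one₀ hmin0.le hmin1
  set S : Set Ω := {ω | ∀ n, rep (rset E ω) h n ≤ K} with hS
  have hbound : ∀ M : ℕ, μ.real S ≤ (K + 1) * (1 - q) ^ M := by
    intro M
    obtain ⟨n, hn⟩ := hL ((h * ((K + 1) * M)) ^ h)
    have hfin := reps_finite {n | ε ≤ μ.real (E n)} h n
    obtain ⟨i, hi1, hih, n', G, hGc, hG, hGd⟩ := sunf {n | ε ≤ μ.real (E n)} ((K + 1) * M) h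
      hfin.toFinset n (fun s hs => hfin.mem_toFinset.1 hs) (by
        rw [← Set.ncard_eq_toFinset_card _ hfin]
        exact hn)
    set e : Fin (K + 1) × Fin M ≃ G := finProdFinEquiv.trans (Finset.equivFinOfCardEq hGc).symm with he
    set t : Fin (K + 1) × Fin M → Multiset ℕ := fun x => (e x : Multiset ℕ) with ht
    have htG : ∀ x, t x ∈ G := fun x => (e x).2
    have htinj : ∀ x y, t x = t y → x = y := by
      intro x y hxy
      exact e.injective (Subtype.ext hxy)
    set W : Fin (K + 1) × Fin M → Finset ℕ := fun x => (t x).toFinset with hW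
    have hWd : ∀ x y, x ≠ y → Disjoint (W x) (W y) := by
      intro x y hxy
      exact hGd _ (htG x) _ (htG y) fun hc => hxy (htinj x y hc)
    set X : Fin (K + 1) × Fin M → Set Ω := fun x => ⋂ v ∈ W x, E v with hX
    have hXm : ∀ x, MeasurableSet (X x) := fun x => Finset.measurableSet_biInter _ fun v _ => hE v
    have hXi : iIndepSet X μ := RS.indep_blocks hE hind W hWd
    have hYi : iIndepSet (fun x => (X x)ᶜ) μ := RS.indep_compl hXm hXi
    have hXq : ∀ x, q ≤ μ.real (X x) := by
      intro x
      have h1 : μ.real (X x) = ∏ v ∈ W x, μ.real (E v) := by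
        rw [measureReal_def, hX]
        simp only
        rw [hind.meas_biInter, ENNReal.toReal_prod]
        rfl
      obtain ⟨h2, h3, -⟩ := hG _ (htG x)
      have h4 : (W x).card ≤ h := by
        refine (Multiset.toFinset_card_le _).trans ?_
        rw [h2]
        exact hih
      rw [h1]
      calc q = (min ε 1) ^ h := hq
        _ ≤ (min ε 1) ^ (W x).card := pow_le_pow_of_le_one hmin0.le hmin1 h4
        _ = ∏ _v ∈ W x, min ε 1 := by rw [prod_const]
        _ ≤ ∏ v ∈ W x, μ.real (E v) := by
          refine prod_le_prod (fun _ _ => hmin0.le) fun v hv => ?_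
          exact (min_le_left _ _).trans (h3 v (Multiset.mem_toFinset.1 hv))
    have hsub : S ⊆ ⋃ g ∈ (Finset.univ : Finset (Fin (K + 1))),
        ⋂ x ∈ (Finset.univ : Finset (Fin M)).image (fun j => (g, j)), (X x)ᶜ := by
      intro ω hω
      by_contra hcon
      rw [Set.mem_iUnion₂] at hcon
      push Not at hcon
      have h1 : ∀ g : Fin (K + 1), ∃ j : Fin M, ω ∈ X (g, j) := by
        intro g
        have h2 := hcon g (Finset.mem_univ g)
        rw [Set.mem_iInter₂] at h2
        push Not at h2
        obtain ⟨x, hx, hx2⟩ := h2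
        obtain ⟨j, -, rfl⟩ := Finset.mem_image.1 hx
        exact ⟨j, by simpa using hx2⟩
      choose j hj using h1
      have h2 : ∀ g, ∀ a ∈ t (g, j g), ω ∈ E a := by
        intro g a ha
        have h3 := hj g
        rw [hX] at h3
        simp only at h3
        rw [Set.mem_iInter₂] at h3
        exact h3 a (Multiset.mem_toFinset.2 ha)
      have h3 : 0 < Multiset.card (t (0, j 0)) := by
        rw [(hG _ (htG _)).1]
        omega
      obtain ⟨b, hb⟩ := Multiset.card_pos_iff_exists_mem.1 h3
      have h4 := hω (n' + (h - i) * b)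
      have hfin2 := reps_finite (rset E ω) h (n' + (h - i) * b)
      have h5 : (Finset.univ.image fun g : Fin (K + 1) => t (g, j g) + Multiset.replicate (h - i) b).card =
          K + 1 := by
        rw [Finset.card_image_of_injective, Finset.card_univ, Fintype.card_fin]
        intro g g' hgg
        have h6 : t (g, j g) = t (g', j g') := add_right_cancel hgg
        exact (Prod.ext_iff.1 (htinj _ _ h6)).1
      have h6 : (Finset.univ.image fun g : Fin (K + 1) => t (g, j g) + Multiset.replicate (h - i) b) ⊆
          hfin2.toFinset := by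
        intro s hs
        obtain ⟨g, -, rfl⟩ := Finset.mem_image.1 hs
        rw [Set.Finite.mem_toFinset]
        obtain ⟨h7, -, h8⟩ := hG _ (htG (g, j g))
        refine ⟨?_, ?_, ?_⟩
        · rw [Multiset.card_add, Multiset.card_replicate, h7]
          omega
        · intro a ha
          rcases Multiset.mem_add.1 ha with ha | ha
          · exact h2 g a ha
          · rw [Multiset.eq_of_mem_replicate ha]
            exact h2 0 b hb
        · rw [Multiset.sum_add, Multiset.sum_replicate, h8, smul_eq_mul]
      have h7 := Finset.card_le_card h6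
      rw [h5, ← Set.ncard_eq_toFinset_card _ hfin2] at h7
      unfold rep at h4
      omega
    have hterm : ∀ g : Fin (K + 1),
        μ.real (⋂ x ∈ (Finset.univ : Finset (Fin M)).image (fun j => (g, j)), (X x)ᶜ) ≤ (1 - q) ^ M := by
      intro g
      have h1 : μ.real (⋂ x ∈ (Finset.univ : Finset (Fin M)).image (fun j => (g, j)), (X x)ᶜ) =
          ∏ j : Fin M, (1 - μ.real (X (g, j))) := by
        rw [measureReal_def, hYi.meas_biInter, ENNReal.toReal_prod, prod_image]
        · refine prod_congr rfl fun j _ => ?_
          rw [← probReal_compl_eq_one_sub (μ := μ) (hXm (g, j))]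
          rfl
        · intro a _ b _ hab
          exact (Prod.ext_iff.1 hab).2
      rw [h1]
      calc ∏ j : Fin M, (1 - μ.real (X (g, j))) ≤ ∏ _j : Fin M, (1 - q) := by
            refine prod_le_prod (fun j _ => ?_) fun j _ => ?_
            · have : μ.real (X (g, j)) ≤ 1 := measureReal_le_one
              linarith
            · have := hXq (g, j)
              linarith
        _ = (1 - q) ^ M := by rw [prod_const, Finset.card_univ, Fintype.card_fin]
    calc μ.real S ≤ μ.real (⋃ g ∈ (Finset.univ : Finset (Fin (K + 1))),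
          ⋂ x ∈ (Finset.univ : Finset (Fin M)).image (fun j => (g, j)), (X x)ᶜ) :=
          measureReal_mono hsub (measure_ne_top _ _)
      _ ≤ ∑ g : Fin (K + 1),
          μ.real (⋂ x ∈ (Finset.univ : Finset (Fin M)).image (fun j => (g, j)), (X x)ᶜ) :=
          measureReal_biUnion_finset_le _ _
      _ ≤ ∑ _g : Fin (K + 1), (1 - q) ^ M := sum_le_sum fun g _ => hterm g
      _ = (K + 1) * (1 - q) ^ M := by
          rw [sum_const, Finset.card_univ, Fintype.card_fin, nsmul_eq_mul]
          push_cast
          ring
  have hlim : Tendsto (fun M : ℕ => ((K : ℝ) + 1) * (1 - q) ^ M) atTop (nhds (((K : ℝ) + 1) * 0)) :=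
    (tendsto_pow_atTop_nhds_zero_of_lt_one (by linarith) (by linarith)).const_mul _
  rw [mul_zero] at hlim
  have h0 : μ.real S ≤ 0 := ge_of_tendsto' hlim hbound
  have h1 : μ.real S = 0 := le_antisymm h0 measureReal_nonneg
  rwa [measureReal_eq_zero_iff (measure_ne_top _ _)] at h1

end Pool.Agent.Y940.CH
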