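import Pool.Agent.Y940.CH.Stm2
import Pool.Agent.Y940.CH.Level
import Pool.Agent.Y940.CH.Fin
/-!
# Derandomization for bases of order `h`
-/

set_option autoImplicit false

open Finset Filter MeasureTheory ProbabilityTheory

namespace Pool.Agent.Y940.CH

open Pool.Agent.Y940.RS (rset prod_one_sub_ge)
open Pool.Agent.Y940.CT (count)

universe u

theorem rep_pos {B : Set ℕ} {h n : ℕ} (h1 : 1 ≤ rep B h n) :
    ∃ s : Multiset ℕ, Multiset.card s = h ∧ (∀ a ∈ s, a ∈ B) ∧ s.sum = n := by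
  unfold rep at h1
  exact (Set.ncard_pos (Forms.fin_reps B h n)).1 h1

theorem rep_zero {B : Set ℕ} {h n : ℕ} (h1 : rep B h n = 0) {s : Multiset ℕ}
    (hs : Multiset.card s = h) (hsum : s.sum = n) : ∃ a ∈ s, a ∉ B := by
  by_contra hcon
  push Not at hcon
  unfold rep at h1
  rw [Set.ncard_eq_zero (Forms.fin_reps B h n)] at h1
  have h2 : s ∈ {s : Multiset ℕ | Multiset.card s = h ∧ (∀ a ∈ s, a ∈ B) ∧ s.sum = n} :=
    ⟨hs, hcon, hsum⟩
  rw [h1] at h2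
  exact h2

theorem rep_local {B B' : Set ℕ} {h N : ℕ} (hBB : ∀ a, a ≤ N → (a ∈ B ↔ a ∈ B')) :
    rep B h N = rep B' h N := by
  unfold rep
  congr 1
  ext s
  constructor
  · rintro ⟨h1, h2, h3⟩
    refine ⟨h1, fun a ha => (hBB a ?_).1 (h2 a ha), h3⟩
    rw [← h3]
    exact Multiset.le_sum_of_mem ha
  · rintro ⟨h1, h2, h3⟩
    refine ⟨h1, fun a ha => (hBB a ?_).2 (h2 a ha), h3⟩
    rw [← h3]
    exact Multiset.le_sum_of_mem ha

theorem level_bdd {Ω : Type u} [MeasurableSpace Ω] {μ : Measure Ω} [IsProbabilityMeasure μ]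
    {E : ℕ → Set Ω} (hm : ∀ n, MeasurableSet (E n)) (hi : iIndepSet E μ) {h : ℕ} (hh : 2 ≤ h)
    (hpos : 0 < μ {ω | ∃ K, ∀ n, rep (rset E ω) h n ≤ K}) {ε : ℝ} (hε : 0 < ε) :
    ∃ K, ∀ n, rep {n | ε ≤ μ.real (E n)} h n ≤ K := by
  by_contra hcon
  push Not at hcon
  have h1 := level_main Ω μ E hm hi h hh ε hε hcon
  refine hpos.ne' ?_
  have h2 : {ω | ∃ K, ∀ n, rep (rset E ω) h n ≤ K} =
      ⋃ K : ℕ, {ω | ∀ n, rep (rset E ω) h n ≤ K} := by
    ext ω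
    rw [Set.mem_iUnion]
    exact Iff.rfl
  rw [h2, measure_iUnion_null_iff]
  exact h1

theorem level_basis (hmean : S_mean.{u}) (hharris : S_harris.{u}) (hcyl : S_cyl.{u})
    {Ω : Type u} [MeasurableSpace Ω] {μ : Measure Ω} [IsProbabilityMeasure μ] {E : ℕ → Set Ω}
    (hm : ∀ n, MeasurableSet (E n)) (hi : iIndepSet E μ) {h : ℕ}
    (hpos : 0 < μ {ω | (∀ᶠ n in atTop, 1 ≤ rep (rset E ω) h n) ∧
      ∃ K, ∀ n, rep (rset E ω) h n ≤ K}) :
    ∃ ε₀ : ℝ, 0 < ε₀ ∧ ∀ ε : ℝ, 0 < ε → ε ≤ ε₀ →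
      ∀ᶠ n in atTop, 1 ≤ rep {n | ε ≤ μ.real (E n)} h n := by
  classical
  by_contra hcon
  push Not at hcon
  have hB : ∀ ε : ℝ, 0 < ε → ∃ᶠ n : ℕ in atTop, rep {k | ε ≤ μ.real (E k)} h n = 0 := by
    intro ε hε
    obtain ⟨ε', h1, h2, h3⟩ := hcon ε hε
    refine Frequently.mono h3 ?_
    intro n hn
    have h4 : rep {k | ε ≤ μ.real (E k)} h n ≤ rep {k | ε' ≤ μ.real (E k)} h n := by
      refine rep_le_of_subset ?_ h n
      intro k hk
      exact h2.trans hk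
    omega
  -- uniform constants
  have hKn : ∃ K n₀ : ℕ, 0 < μ {ω | (∀ n, n₀ ≤ n → 1 ≤ rep (rset E ω) h n) ∧
      ∀ n, rep (rset E ω) h n ≤ K} := by
    by_contra hcon2
    push Not at hcon2
    refine hpos.ne' ?_
    refine measure_mono_null (t := ⋃ K : ℕ, ⋃ n₀ : ℕ, {ω | (∀ n, n₀ ≤ n →
      1 ≤ rep (rset E ω) h n) ∧ ∀ n, rep (rset E ω) h n ≤ K}) ?_ ?_
    · rintro ω ⟨h1, K, h2⟩
      obtain ⟨n₀, h3⟩ := eventually_atTop.1 h1
      rw [Set.mem_iUnion₂]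
      exact ⟨K, n₀, h3, h2⟩
    · rw [measure_iUnion_null_iff]
      intro K
      rw [measure_iUnion_null_iff]
      intro n₀
      exact nonpos_iff_eq_zero.1 (hcon2 K n₀)
  obtain ⟨K, n₀, hKn⟩ := hKn
  obtain ⟨H, hH0, hH⟩ := hmean h K
  set P : ℕ → Set ℕ → Prop := fun N B => (n₀ ≤ N → 1 ≤ rep B h N) ∧ rep B h N ≤ K with hP
  have hloc : ∀ (N : ℕ) (B B' : Set ℕ), (∀ a, a ≤ N → (a ∈ B ↔ a ∈ B')) → P N B → P N B' := by
    intro N B B' hBB hPB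
    rw [hP] at hPB ⊢
    simp only at hPB ⊢
    rw [← rep_local hBB]
    exact hPB
  have hpos2 : 0 < μ {ω | ∀ N, P N (rset E ω)} := by
    refine hKn.trans_le (measure_mono ?_)
    rintro ω ⟨h1, h2⟩ N
    exact ⟨fun h3 => h1 N h3, h2 N⟩
  set η : ℝ := min (1 / 2) (Real.exp (-(2 * H))) with hη
  have hη0 : 0 < η := lt_min (by norm_num) (Real.exp_pos _)
  obtain ⟨N, A, hA, hm', hi', hP'⟩ := hcyl Ω μ E hm hi P hloc hpos2 η hη0
  set E' : ℕ → Set Ω := fixed E N A with hE'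
  have hhalf : 1 / 2 ≤ μ.real {ω | ∀ n, rep (rset E' ω) h n ≤ K} := by
    have h1 : η ≤ 1 / 2 := min_le_left _ _
    have h2 : μ.real {ω | ∀ N', P N' (rset E' ω)} ≤
        μ.real {ω | ∀ n, rep (rset E' ω) h n ≤ K} := by
      refine measureReal_mono ?_
      intro ω hω n
      exact (hω n).2
    linarith
  have hlam := hH Ω μ E' hm' hi' hhalf
  -- the level
  have hεex : ∃ ε : ℝ, 0 < ε ∧ ε ≤ 1 / 2 ∧ ∀ a ∈ A, ε ≤ μ.real (E a) := by
    have h1 : ∀ᶠ ε in nhdsWithin (0 : ℝ) (Set.Ioi 0), ∀ a ∈ A, ε ≤ μ.real (E a) := by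
      rw [eventually_all_finset]
      intro a ha
      filter_upwards [Ioc_mem_nhdsGT (hA a ha)] with ε hε
      exact hε.2
    have h2 : ∀ᶠ ε in nhdsWithin (0 : ℝ) (Set.Ioi 0), 0 < ε ∧ ε ≤ 1 / 2 :=
      Ioc_mem_nhdsGT (by norm_num)
    obtain ⟨ε, h3, h4, h5⟩ := (h1.and h2).exists
    exact ⟨ε, h4, h5, h3⟩
  obtain ⟨ε, hε0, hε1, hε2⟩ := hεex
  obtain ⟨n, hn0, hn⟩ := ((hB ε hε0).and_eventually (eventually_ge_atTop n₀)).exists
  set w : Multiset ℕ → ℝ := fun s => ∏ a ∈ s.toFinset, μ.real (E' a) with hw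
  have hw0 : ∀ s, 0 ≤ w s := fun s => prod_nonneg fun a _ => measureReal_nonneg
  have hw1 : ∀ s ∈ MM h n, w s ≤ 1 / 2 := by
    intro s hs
    obtain ⟨h1, h2⟩ := mem_MM.1 hs
    obtain ⟨a, ha, haL⟩ := rep_zero hn0 h1 h2
    have haε : μ.real (E a) < ε := not_le.1 haL
    have h3 : μ.real (E' a) ≤ 1 / 2 := by
      rw [hE']
      unfold fixed
      by_cases haN : a ≤ N
      · rw [if_pos haN]
        have haA : a ∉ A := fun h => absurd (hε2 a h) (not_le.2 haε)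
        rw [if_neg haA]
        simp
      · rw [if_neg haN]
        linarith
    have h4 : w s ≤ μ.real (E' a) := by
      rw [hw]
      simp only
      have haF : a ∈ s.toFinset := Multiset.mem_toFinset.2 ha
      rw [← mul_prod_erase s.toFinset (fun a => μ.real (E' a)) haF]
      refine mul_le_of_le_one_right measureReal_nonneg ?_
      exact prod_le_one (fun _ _ => measureReal_nonneg) fun _ _ => measureReal_le_one
    linarith
  have hsum : ∑ s ∈ MM h n, w s ≤ H := hlam n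
  set D : Set Ω := {ω | ∀ s ∈ MM h n, ∃ a ∈ s, ω ∉ E' a} with hD
  have hDge : Real.exp (-(2 * H)) ≤ μ.real D := by
    refine le_trans ?_ (hharris Ω μ E' hm' hi' (MM h n))
    refine le_trans ?_ (prod_one_sub_ge (MM h n) w (fun s _ => hw0 s) hw1)
    refine Real.exp_le_exp.2 ?_
    linarith
  have hDm : MeasurableSet D := by
    have h1 : D = ⋂ s ∈ MM h n, ⋃ a ∈ s.toFinset, (E' a)ᶜ := by
      ext ω
      rw [hD, Set.mem_iInter₂]
      constructor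
      · intro h2 s hs
        obtain ⟨a, ha, h3⟩ := h2 s hs
        rw [Set.mem_iUnion₂]
        exact ⟨a, Multiset.mem_toFinset.2 ha, h3⟩
      · intro h2 s hs
        have h3 := h2 s hs
        rw [Set.mem_iUnion₂] at h3
        obtain ⟨a, ha, h4⟩ := h3
        exact ⟨a, Multiset.mem_toFinset.1 ha, h4⟩
    rw [h1]
    exact Finset.measurableSet_biInter _ fun s _ =>
      Finset.measurableSet_biUnion _ fun a _ => (hm' a).compl
  have hGD : {ω | ∀ N', P N' (rset E' ω)} ⊆ Dᶜ := by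
    intro ω hω hωD
    obtain ⟨s, h1, h2, h3⟩ := rep_pos ((hω n).1 hn)
    obtain ⟨a, ha, h4⟩ := hωD s (mem_MM.2 ⟨h1, h3⟩)
    exact h4 (h2 a ha)
  have h1 : μ.real {ω | ∀ N', P N' (rset E' ω)} ≤ 1 - μ.real D := by
    rw [← probReal_compl_eq_one_sub hDm]
    exact measureReal_mono hGD
  have h2 : η ≤ Real.exp (-(2 * H)) := min_le_right _ _
  linarith

/-- **Derandomization for bases of order `h`.** -/
theorem derand (hmean : S_mean.{u}) (hharris : S_harris.{u}) (hcyl : S_cyl.{u})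
    {Ω : Type u} [MeasurableSpace Ω] {μ : Measure Ω} [IsProbabilityMeasure μ] {E : ℕ → Set Ω}
    (hm : ∀ n, MeasurableSet (E n)) (hi : iIndepSet E μ) {h : ℕ} (hh : 2 ≤ h)
    (hpos : 0 < μ {ω | (∀ᶠ n in atTop, 1 ≤ rep (rset E ω) h n) ∧
      ∃ K, ∀ n, rep (rset E ω) h n ≤ K}) :
    ∃ ε₀ : ℝ, 0 < ε₀ ∧ ∀ ε : ℝ, 0 < ε → ε ≤ ε₀ →
      (∀ᶠ n in atTop, 1 ≤ rep {n | ε ≤ μ.real (E n)} h n) ∧
      ∃ K, ∀ n, rep {n | ε ≤ μ.real (E n)} h n ≤ K := by
  obtain ⟨ε₀, h1, h2⟩ := level_basis hmean hharris hcyl hm hi hpos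
  refine ⟨ε₀, h1, fun ε h3 h4 => ⟨h2 ε h3 h4, level_bdd hm hi hh ?_ h3⟩⟩
  refine hpos.trans_le (measure_mono ?_)
  rintro ω ⟨_, h5⟩
  exact h5

end Pool.Agent.Y940.CH
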