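import Pool.Agent.Y940.CH.Fin
/-!
# Power saving for polynomially decaying probabilities, order `h`
-/

set_option autoImplicit false

open Finset Filter MeasureTheory ProbabilityTheory

namespace Pool.Agent.Y940.CH

open Pool.Agent.Y940.RS (rset)
open Pool.Agent.Y940.CT (Sub count)

universe u

theorem power_saving (h K : ℕ) (hh : 2 ≤ h) (δ : ℝ) (hδ : 0 < δ) : ∃ κ : ℝ, 0 < κ ∧
    ∀ (Ω : Type u) [MeasurableSpace Ω] (μ : Measure Ω) [IsProbabilityMeasure μ] (E : ℕ → Set Ω)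
      (p : ℕ → ℝ), Sub μ E p → (∀ᶠ n : ℕ in atTop, p n ≤ (n : ℝ) ^ (-δ)) →
      ∀ᵐ ω ∂μ, ∀ B : Set ℕ, B ⊆ rset E ω → (∀ n, rep B h n ≤ K) →
        ∀ᶠ N : ℕ in atTop, count B N ≤ (N : ℝ) ^ (1 / (h : ℝ) - κ) := by
  classical
  obtain ⟨C, hC, hae⟩ := ae_subsets.{u} h K hh
  have hh0 : (0 : ℝ) < h := by exact_mod_cast (by omega : 0 < h)
  have hh2 : (2 : ℝ) ≤ h := by exact_mod_cast hh
  set e : ℝ := 1 / (4 * ((K : ℝ) + 1) ^ 2 * (h : ℝ) ^ 2) with he
  have he0 : 0 < e := by positivity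
  have he1 : e ≤ 1 / 4 := by
    rw [he, div_le_div_iff₀ (by positivity) (by norm_num)]
    have h1 : (1 : ℝ) ≤ ((K : ℝ) + 1) ^ 2 :=
      one_le_pow₀ (by have : (0 : ℝ) ≤ K := Nat.cast_nonneg K; linarith)
    have h2 : (1 : ℝ) ≤ (h : ℝ) ^ 2 := one_le_pow₀ (by linarith)
    nlinarith
  set κ₀ : ℝ := min (δ / 2) e with hκ₀
  have hκ₀0 : 0 < κ₀ := lt_min (by positivity) he0
  have hκ₀1 : κ₀ ≤ 1 / 4 := (min_le_right _ _).trans he1
  refine ⟨κ₀ / (2 * h), by positivity, ?_⟩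
  intro Ω _ μ _ E p hE hp
  obtain ⟨n₀, hn₀⟩ := eventually_atTop.1 hp
  have hlim : Tendsto (fun N : ℕ => (N : ℝ) ^ (-κ₀)) atTop (nhds 0) :=
    (tendsto_rpow_neg_atTop hκ₀0).comp tendsto_natCast_atTop_atTop
  have hlim2 : Tendsto (fun N : ℕ => (N : ℝ) ^ (κ₀ / (2 * h))) atTop atTop :=
    (tendsto_rpow_atTop (by positivity)).comp tendsto_natCast_atTop_atTop
  have h1 := hae Ω μ E p hE (fun N => Nat.sqrt N) (fun N => (N : ℝ) ^ (-κ₀)) ?_
  · filter_upwards [h1] with ω hω B hB hK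
    filter_upwards [hω B hB hK, eventually_ge_atTop 1,
      hlim2.eventually_ge_atTop (3 * C)] with N hN1 hN2 hN3
    have hNr : (1 : ℝ) ≤ N := by exact_mod_cast hN2
    have hN0 : (0 : ℝ) < N := by linarith
    have hM : ((Nat.sqrt N : ℕ) : ℝ) ≤ Real.sqrt N := Real.nat_sqrt_le_real_sqrt
    have hs1 : 1 ≤ Real.sqrt N := Real.one_le_sqrt.2 hNr
    have h2 : (((Nat.sqrt N : ℕ) : ℝ) + 1) ^ (1 / (h : ℝ)) ≤
        2 * (N : ℝ) ^ (1 / (h : ℝ) - κ₀ / h) := by
      calc (((Nat.sqrt N : ℕ) : ℝ) + 1) ^ (1 / (h : ℝ))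
          ≤ (2 * Real.sqrt N) ^ (1 / (h : ℝ)) :=
            Real.rpow_le_rpow (by positivity) (by linarith) (by positivity)
        _ = 2 ^ (1 / (h : ℝ)) * (Real.sqrt N) ^ (1 / (h : ℝ)) :=
            Real.mul_rpow (by norm_num) (Real.sqrt_nonneg _)
        _ ≤ 2 * (N : ℝ) ^ (1 / (h : ℝ) - κ₀ / h) := by
            refine mul_le_mul ?_ ?_ (by positivity) (by norm_num)
            · nth_rewrite 2 [← Real.rpow_one (2 : ℝ)]
              refine Real.rpow_le_rpow_of_exponent_le (by norm_num) ?_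
              rw [div_le_one hh0]
              linarith
            · rw [Real.sqrt_eq_rpow, ← Real.rpow_mul hN0.le]
              refine Real.rpow_le_rpow_of_exponent_le hNr ?_
              rw [← sub_div, div_mul_div_comm, one_mul, div_le_div_iff₀ (by positivity) hh0]
              nlinarith
    have h4 : ((N : ℝ) ^ (-κ₀) * N) ^ (1 / (h : ℝ)) = (N : ℝ) ^ (1 / (h : ℝ) - κ₀ / h) := by
      nth_rewrite 2 [← Real.rpow_one (N : ℝ)]
      rw [← Real.rpow_add hN0, ← Real.rpow_mul hN0.le]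
      congr 1
      field_simp
      ring
    rw [h4] at hN1
    have h5 : (N : ℝ) ^ (1 / (h : ℝ) - κ₀ / (2 * h)) =
        (N : ℝ) ^ (κ₀ / (2 * h)) * (N : ℝ) ^ (1 / (h : ℝ) - κ₀ / h) := by
      rw [← Real.rpow_add hN0]
      congr 1
      field_simp
      ring
    rw [h5]
    have h6 : 0 ≤ (N : ℝ) ^ (1 / (h : ℝ) - κ₀ / h) := by positivity
    calc count B N ≤ C * (2 * (N : ℝ) ^ (1 / (h : ℝ) - κ₀ / h)) +
          C * (N : ℝ) ^ (1 / (h : ℝ) - κ₀ / h) := by
            have := mul_le_mul_of_nonneg_left h2 hC.le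
            linarith
      _ = (3 * C) * (N : ℝ) ^ (1 / (h : ℝ) - κ₀ / h) := by ring
      _ ≤ _ := mul_le_mul_of_nonneg_right hN3 h6
  · filter_upwards [hlim.eventually (Iic_mem_nhds (show (0 : ℝ) < 1 / 3 by norm_num)),
      eventually_ge_atTop (n₀ ^ 2 + 1)] with N h2 h3
    have hN1 : 1 ≤ N := by omega
    have hNr : (1 : ℝ) ≤ N := by exact_mod_cast hN1
    have hN0 : (0 : ℝ) < N := by linarith
    refine ⟨?_, h2, fun n hn1 hn2 => ?_⟩
    · refine Real.rpow_le_rpow_of_exponent_le hNr ?_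
      have h4 := min_le_right (δ / 2) e
      rw [← hκ₀] at h4
      linarith
    · have h4 : n₀ ≤ n := by
        have h5 : n₀ ≤ Nat.sqrt N := by
          rw [Nat.le_sqrt']
          omega
        omega
      refine (hn₀ n h4).trans ?_
      have h6 : Real.sqrt N ≤ n := by
        have h7 : N < n ^ 2 := by
          have h8 : Nat.sqrt N < n := hn1
          rw [Nat.sqrt_lt'] at h8
          exact h8
        rw [Real.sqrt_le_left (by positivity)]
        exact_mod_cast h7.le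
      have hs0 : 0 < Real.sqrt N := Real.sqrt_pos.2 hN0
      calc (n : ℝ) ^ (-δ) ≤ (Real.sqrt N) ^ (-δ) :=
            Real.rpow_le_rpow_of_nonpos hs0 h6 (by linarith)
        _ = (N : ℝ) ^ (-(δ / 2)) := by
            rw [Real.sqrt_eq_rpow, ← Real.rpow_mul hN0.le]
            congr 1
            ring
        _ ≤ (N : ℝ) ^ (-κ₀) := by
            refine Real.rpow_le_rpow_of_exponent_le hNr ?_
            have := min_le_left (δ / 2) e
            linarith

end Pool.Agent.Y940.CH
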