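import Pool.Agent.Y940.CH.Stm
/-!
# The codegrees of the hypergraph of `k` disjoint sets with the same sum
-/

set_option autoImplicit false

open Finset

namespace Pool.Agent.Y940.CH

open Pool.Agent.Y940.CT (Spread deg Ind)

theorem mem_fam {FF : Finset (Finset ℕ)} {σ : ℕ} {T S : Finset ℕ} :
    S ∈ fam FF σ T ↔ S ∈ FF ∧ ∑ x ∈ S, x = σ ∧ T ⊆ S := by
  unfold fam
  rw [mem_filter]

theorem fam_card_pos {FF : Finset (Finset ℕ)} {σ : ℕ} {g : ℝ} (hg : 0 < g) (h : σ ∈ rich FF g) :
    0 < ((fam FF σ ∅).card : ℝ) ∧ g < ((fam FF σ ∅).card : ℝ) := by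
  unfold rich at h
  have := (mem_filter.1 h).2
  exact ⟨hg.trans this, this⟩

/-- tuples with prescribed subsets -/
theorem card_tuples (FF : Finset (Finset ℕ)) (σ k : ℕ) (P : Fin k → Finset ℕ) :
    ((Fintype.piFinset (fun l : Fin k => fam FF σ (P l))).card : ℝ) =
      ∏ l, ((fam FF σ (P l)).card : ℝ) := by
  rw [Fintype.card_piFinset]
  push_cast
  rfl

theorem sum_fam_le {U : Finset ℕ} {s : ℕ} {FF : Finset (Finset ℕ)} (R : Finset ℕ)
    (hFF : ∀ S ∈ FF, S ⊆ U ∧ S.card = s) (T : Finset ℕ) :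
    ∑ σ ∈ R, ((fam FF σ T).card : ℝ) ≤ (U.card : ℝ) ^ (s - T.card) := by
  classical
  have h1 : ∑ σ ∈ R, (fam FF σ T).card ≤ (FF.filter fun S => T ⊆ S).card := by
    have h2 : ∀ σ, fam FF σ T = (FF.filter fun S => T ⊆ S).filter fun S => ∑ x ∈ S, x = σ := by
      intro σ
      ext S
      rw [mem_fam, mem_filter, mem_filter]
      tauto
    simp_rw [h2]
    rw [sum_card_fiberwise_eq_card_filter]
    exact card_filter_le _ _
  have h3 : (FF.filter fun S => T ⊆ S).card ≤ (U.powersetCard (s - T.card)).card := by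
    refine card_le_card_of_injOn (fun S => S \ T) ?_ ?_
    · intro S hS
      rw [mem_coe, mem_filter] at hS
      rw [mem_coe, mem_powersetCard]
      refine ⟨sdiff_subset.trans (hFF S hS.1).1, ?_⟩
      rw [card_sdiff_of_subset hS.2, (hFF S hS.1).2]
    · intro S hS S' hS' h
      rw [mem_coe, mem_filter] at hS hS'
      simp only at h
      rw [← sdiff_union_of_subset hS.2, ← sdiff_union_of_subset hS'.2, h]
  rw [card_powersetCard] at h3
  have h4 : U.card.choose (s - T.card) ≤ U.card ^ (s - T.card) := Nat.choose_le_pow _ _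
  exact_mod_cast h1.trans (h3.trans h4)

open Classical in
/-- the number of tuples which are not pairwise disjoint -/
theorem not_pd_le {U : Finset ℕ} {s k : ℕ} {FF : Finset (Finset ℕ)} {σ : ℕ}
    (hs : 1 ≤ s) (hk : 1 ≤ k)
    (hFF : ∀ S ∈ FF, S ⊆ U ∧ S.card = s)
    (hv : ∀ v : ℕ, 2 * (k : ℝ) ^ 2 * s * (fam FF σ {v}).card ≤ (fam FF σ ∅).card) :
    (((Fintype.piFinset (fun _ : Fin k => fam FF σ ∅)).filter fun q => ¬ PD q).card : ℝ) ≤
      ((fam FF σ ∅).card : ℝ) ^ k / 2 := by
  classical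
  set f : ℝ := ((fam FF σ ∅).card : ℝ) with hf
  have hk0 : (0 : ℝ) < k := by exact_mod_cast hk
  have hs0 : (0 : ℝ) < s := by exact_mod_cast hs
  have hf0 : 0 ≤ f := by positivity
  set P : Fin k → Fin k → ℕ → Fin k → Finset ℕ := fun l l' v l'' =>
    if l'' = l ∨ l'' = l' then {v} else ∅ with hP
  have hsub : (Fintype.piFinset (fun _ : Fin k => fam FF σ ∅)).filter (fun q => ¬ PD q) ⊆
      (univ : Finset (Fin k)).offDiag.biUnion fun x => U.biUnion fun v =>
        Fintype.piFinset (fun l'' => fam FF σ (P x.1 x.2 v l'')) := by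
    intro q hq
    rw [mem_filter, Fintype.mem_piFinset] at hq
    obtain ⟨hq1, hq2⟩ := hq
    unfold PD at hq2
    push Not at hq2
    obtain ⟨l, l', hne, hd⟩ := hq2
    rw [not_disjoint_iff] at hd
    obtain ⟨v, hv1, hv2⟩ := hd
    rw [mem_biUnion]
    refine ⟨(l, l'), ?_, ?_⟩
    · rw [mem_offDiag]
      exact ⟨mem_univ _, mem_univ _, hne⟩
    rw [mem_biUnion]
    refine ⟨v, (hFF _ (mem_fam.1 (hq1 l)).1).1 hv1, ?_⟩
    rw [Fintype.mem_piFinset]
    intro l''
    rw [mem_fam]
    obtain ⟨h1, h2, _⟩ := mem_fam.1 (hq1 l'')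
    refine ⟨h1, h2, ?_⟩
    rw [hP]
    simp only
    split_ifs with h3
    · rw [singleton_subset_iff]
      rcases h3 with rfl | rfl
      · exact hv1
      · exact hv2
    · exact empty_subset _
  have hterm : ∀ x ∈ (univ : Finset (Fin k)).offDiag,
      ((U.biUnion fun v => Fintype.piFinset (fun l'' => fam FF σ (P x.1 x.2 v l''))).card : ℝ) ≤
        f ^ k / (2 * (k : ℝ) ^ 2) := by
    intro x hx
    rw [mem_offDiag] at hx
    obtain ⟨_, _, hne⟩ := hx
    have hk2 : 2 ≤ k := by
      by_contra h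
      have h1 : k = 1 := by omega
      subst h1
      exact hne (Subsingleton.elim _ _)
    have h1 : ((U.biUnion fun v => Fintype.piFinset (fun l'' => fam FF σ (P x.1 x.2 v l''))).card
        : ℝ) ≤ ∑ v ∈ U, ((Fintype.piFinset (fun l'' => fam FF σ (P x.1 x.2 v l''))).card : ℝ) := by
      exact_mod_cast card_biUnion_le
    refine h1.trans ?_
    have h2 : ∀ v ∈ U, ((Fintype.piFinset (fun l'' => fam FF σ (P x.1 x.2 v l''))).card : ℝ) ≤
        (fam FF σ {v}).card * (f / (2 * (k : ℝ) ^ 2 * s) * f ^ (k - 2)) := by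
      intro v _
      rw [card_tuples]
      have h3 : ∀ l'' : Fin k, ((fam FF σ (P x.1 x.2 v l'')).card : ℝ) =
          if l'' = x.1 ∨ l'' = x.2 then ((fam FF σ {v}).card : ℝ) else f := by
        intro l''
        rw [hP]
        simp only
        split_ifs <;> rfl
      simp_rw [h3]
      rw [prod_ite, prod_const, prod_const]
      have h4 : (univ.filter fun l'' : Fin k => l'' = x.1 ∨ l'' = x.2) = {x.1, x.2} := by
        ext l''
        simp
      have h5 : (univ.filter fun l'' : Fin k => l'' = x.1 ∨ l'' = x.2).card = 2 := by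
        rw [h4]
        exact card_pair hne
      have h6 : (univ.filter fun l'' : Fin k => ¬ (l'' = x.1 ∨ l'' = x.2)).card = k - 2 := by
        have h7 := card_filter_add_card_filter_not (s := (univ : Finset (Fin k)))
          (fun l'' => l'' = x.1 ∨ l'' = x.2)
        rw [h5, card_univ, Fintype.card_fin] at h7
        omega
      rw [h5, h6, sq]
      have h8 : ((fam FF σ {v}).card : ℝ) ≤ f / (2 * (k : ℝ) ^ 2 * s) := by
        rw [le_div_iff₀ (by positivity)]
        linarith [hv v]
      calc ((fam FF σ {v}).card : ℝ) * (fam FF σ {v}).card * f ^ (k - 2)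
          = (fam FF σ {v}).card * ((fam FF σ {v}).card * f ^ (k - 2)) := by ring
        _ ≤ _ := by
            refine mul_le_mul_of_nonneg_left ?_ (by positivity)
            exact mul_le_mul_of_nonneg_right h8 (by positivity)
    refine (sum_le_sum h2).trans ?_
    rw [← sum_mul]
    have h9 : ∑ v ∈ U, ((fam FF σ {v}).card : ℝ) ≤ s * f := by
      have h10 : ∀ v, ((fam FF σ {v}).card : ℝ) = ∑ S ∈ fam FF σ ∅, if v ∈ S then (1 : ℝ) else 0 := by
        intro v
        rw [sum_boole]
        congr 2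
        ext S
        rw [mem_filter, mem_fam, mem_fam, singleton_subset_iff]
        simp only [empty_subset, and_true]
        tauto
      simp_rw [h10]
      rw [sum_comm, hf, mul_comm, ← nsmul_eq_mul, ← sum_const]
      refine sum_le_sum fun S hS => ?_
      rw [sum_boole]
      have h11 := (hFF S (mem_fam.1 hS).1).2
      rw [← h11]
      have h12 : (U.filter fun v => v ∈ S).card ≤ S.card :=
        card_le_card fun v hv => (mem_filter.1 hv).2
      exact_mod_cast h12
    refine (mul_le_mul_of_nonneg_right h9 (by positivity)).trans (le_of_eq ?_)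
    obtain ⟨j, rfl⟩ : ∃ j, k = j + 2 := ⟨k - 2, by omega⟩
    rw [Nat.add_sub_cancel, pow_add f j 2]
    field_simp
  have h1 := card_le_card hsub
  have h2 : (((univ : Finset (Fin k)).offDiag.biUnion fun x => U.biUnion fun v =>
        Fintype.piFinset (fun l'' => fam FF σ (P x.1 x.2 v l''))).card : ℝ) ≤
      ∑ x ∈ (univ : Finset (Fin k)).offDiag, ((U.biUnion fun v =>
        Fintype.piFinset (fun l'' => fam FF σ (P x.1 x.2 v l''))).card : ℝ) := by
    exact_mod_cast card_biUnion_le
  have h3 : (((Fintype.piFinset (fun _ : Fin k => fam FF σ ∅)).filter fun q => ¬ PD q).card : ℝ) ≤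
      ((univ : Finset (Fin k)).offDiag.biUnion fun x => U.biUnion fun v =>
        Fintype.piFinset (fun l'' => fam FF σ (P x.1 x.2 v l''))).card := by exact_mod_cast h1
  refine (h3.trans (h2.trans (sum_le_sum hterm))).trans ?_
  rw [sum_const, nsmul_eq_mul, offDiag_card, card_univ, Fintype.card_fin]
  have h4 : ((k * k - k : ℕ) : ℝ) ≤ (k : ℝ) ^ 2 := by
    have : k * k - k ≤ k * k := Nat.sub_le _ _
    have h5 : ((k * k - k : ℕ) : ℝ) ≤ ((k * k : ℕ) : ℝ) := by exact_mod_cast this
    rw [sq]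
    push_cast at h5 ⊢
    exact h5
  calc ((k * k - k : ℕ) : ℝ) * (f ^ k / (2 * (k : ℝ) ^ 2))
      ≤ (k : ℝ) ^ 2 * (f ^ k / (2 * (k : ℝ) ^ 2)) :=
        mul_le_mul_of_nonneg_right h4 (by positivity)
    _ = f ^ k / 2 := by field_simp

end Pool.Agent.Y940.CH
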