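import Pool.Agent.Y940.CH.Spr
/-!
# The hypergraph of `k` disjoint sets with the same sum is well distributed
-/

set_option autoImplicit false

open Finset

namespace Pool.Agent.Y940.CH

open Pool.Agent.Y940.CT (Spread deg Ind)

open Classical in
theorem sum_wt {U : Finset ℕ} {FF : Finset (Finset ℕ)} (g : ℝ) (k : ℕ)
    (hFF : ∀ S ∈ FF, S ⊆ U) (f : Finset ℕ → Prop) :
    ∑ e ∈ U.powerset, (if f e then wt FF g k e else 0) =
      ∑ σ ∈ rich FF g, ∑ q ∈ Fintype.piFinset (fun _ : Fin k => fam FF σ ∅),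
        if PD q ∧ f (univ.biUnion q) then (1 / ((fam FF σ ∅).card : ℝ)) ^ (k - 1) else 0 := by
  unfold wt
  have h1 : ∀ e, (if f e then ∑ σ ∈ rich FF g, ∑ q ∈ Fintype.piFinset (fun _ : Fin k =>
      fam FF σ ∅), (if PD q ∧ e = univ.biUnion q then
        (1 / ((fam FF σ ∅).card : ℝ)) ^ (k - 1) else 0) else 0) = ∑ σ ∈ rich FF g,
        ∑ q ∈ Fintype.piFinset (fun _ : Fin k => fam FF σ ∅),
          if (PD q ∧ f e) ∧ e = univ.biUnion q then
            (1 / ((fam FF σ ∅).card : ℝ)) ^ (k - 1) else 0 := by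
    intro e
    by_cases h : f e
    · rw [if_pos h]
      simp only [h, and_true]
    · rw [if_neg h]
      simp only [h, and_false, false_and, if_false, sum_const_zero]
  simp_rw [h1]
  rw [sum_comm]
  refine sum_congr rfl fun σ _ => ?_
  rw [sum_comm]
  refine sum_congr rfl fun q hq => ?_
  have hq' : univ.biUnion q ⊆ U := by
    intro x hx
    rw [mem_biUnion] at hx
    obtain ⟨l, _, hl⟩ := hx
    exact hFF _ (mem_fam.1 (Fintype.mem_piFinset.1 hq l)).1 hl
  rw [sum_eq_single (univ.biUnion q)]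
  · simp
  · intro e _ he
    rw [if_neg (fun h => he h.2)]
  · intro h
    exact absurd (mem_powerset.2 hq') h

theorem wt_nonneg (FF : Finset (Finset ℕ)) (g : ℝ) (k : ℕ) (e : Finset ℕ) : 0 ≤ wt FF g k e := by
  classical
  refine sum_nonneg fun σ _ => sum_nonneg fun q _ => ?_
  split_ifs <;> positivity

theorem wt_ne {FF : Finset (Finset ℕ)} {g : ℝ} {k : ℕ} {e : Finset ℕ} (h : wt FF g k e ≠ 0) :
    ∃ (σ : ℕ) (q : Fin k → Finset ℕ), (∀ l, q l ∈ fam FF σ ∅) ∧ PD q ∧ e = univ.biUnion q := by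
  classical
  unfold wt at h
  obtain ⟨σ, _, h1⟩ := exists_ne_zero_of_sum_ne_zero h
  obtain ⟨q, hq, h2⟩ := exists_ne_zero_of_sum_ne_zero h1
  by_cases h3 : PD q ∧ e = univ.biUnion q
  · exact ⟨σ, q, Fintype.mem_piFinset.1 hq, h3⟩
  · exact absurd (if_neg h3) h2

theorem card_union {s k : ℕ} {FF : Finset (Finset ℕ)} {σ : ℕ} (hFF : ∀ S ∈ FF, S.card = s)
    {q : Fin k → Finset ℕ} (hq : ∀ l, q l ∈ fam FF σ ∅) (hd : PD q) :
    (univ.biUnion q).card = k * s := by
  classical
  rw [card_biUnion (fun l _ l' _ h => hd l l' h)]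
  rw [sum_congr rfl fun l _ => hFF _ (mem_fam.1 (hq l)).1]
  rw [sum_const, card_univ, Fintype.card_fin, smul_eq_mul]

theorem total_ge {U : Finset ℕ} {s k : ℕ} {FF : Finset (Finset ℕ)} {g δ : ℝ}
    (hs : 1 ≤ s) (hk : 1 ≤ k) (hg : 0 < g)
    (hFF : ∀ S ∈ FF, S ⊆ U ∧ S.card = s)
    (hv : ∀ σ ∈ rich FF g, ∀ v : ℕ,
      2 * (k : ℝ) ^ 2 * s * (fam FF σ {v}).card ≤ (fam FF σ ∅).card)
    (htot : δ * (U.card : ℝ) ^ s ≤ (richPart FF g).card) :
    (U.card : ℝ) * (δ / 2 * (U.card : ℝ) ^ (s - 1)) ≤ ∑ e ∈ U.powerset, wt FF g k e := by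
  classical
  have h1 : ∑ e ∈ U.powerset, wt FF g k e = ∑ σ ∈ rich FF g,
      ∑ q ∈ Fintype.piFinset (fun _ : Fin k => fam FF σ ∅),
        if PD q then (1 / ((fam FF σ ∅).card : ℝ)) ^ (k - 1) else 0 := by
    have h2 := sum_wt (U := U) g k (fun S hS => (hFF S hS).1) (fun _ => True)
    simp only [if_true, and_true] at h2
    exact h2
  have h3 : ∀ σ ∈ rich FF g, ((fam FF σ ∅).card : ℝ) / 2 ≤
      ∑ q ∈ Fintype.piFinset (fun _ : Fin k => fam FF σ ∅),
        if PD q then (1 / ((fam FF σ ∅).card : ℝ)) ^ (k - 1) else 0 := by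
    intro σ hσ
    obtain ⟨hf, _⟩ := fam_card_pos hg hσ
    have h4 := not_pd_le hs hk hFF (hv σ hσ)
    have h5 := card_filter_add_card_filter_not
      (s := Fintype.piFinset (fun _ : Fin k => fam FF σ ∅)) (fun q => PD q)
    have h6 : ((Fintype.piFinset (fun _ : Fin k => fam FF σ ∅)).card : ℝ) =
        ((fam FF σ ∅).card : ℝ) ^ k := by
      rw [card_tuples FF σ k (fun _ => ∅), prod_const, card_univ, Fintype.card_fin]
    set f : ℝ := ((fam FF σ ∅).card : ℝ) with hfdef
    have h7 : f ^ k / 2 ≤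
        (((Fintype.piFinset (fun _ : Fin k => fam FF σ ∅)).filter fun q => PD q).card : ℝ) := by
      have h8 : (((Fintype.piFinset (fun _ : Fin k => fam FF σ ∅)).filter fun q => PD q).card : ℝ)
          + (((Fintype.piFinset (fun _ : Fin k => fam FF σ ∅)).filter fun q => ¬ PD q).card : ℝ)
          = f ^ k := by
        rw [← h6]
        exact_mod_cast h5
      linarith
    rw [← sum_filter, sum_const, nsmul_eq_mul]
    calc f / 2 = f ^ k / 2 * (1 / f) ^ (k - 1) := by
          obtain ⟨j, rfl⟩ : ∃ j, k = j + 1 := ⟨k - 1, by omega⟩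
          rw [Nat.add_sub_cancel, one_div, inv_pow, pow_succ]
          field_simp
      _ ≤ _ := mul_le_mul_of_nonneg_right h7 (by positivity)
  have h9 : ∑ σ ∈ rich FF g, ((fam FF σ ∅).card : ℝ) = (richPart FF g).card := by
    have h10 : ∀ σ ∈ rich FF g, (fam FF σ ∅).card =
        ((richPart FF g).filter fun S => ∑ x ∈ S, x = σ).card := by
      intro σ hσ
      congr 1
      ext S
      unfold richPart
      rw [mem_fam, mem_filter, mem_filter]
      constructor
      · rintro ⟨h11, h12, _⟩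
        refine ⟨⟨h11, ?_⟩, h12⟩
        rw [h12]
        exact (fam_card_pos hg hσ).2
      · rintro ⟨⟨h11, _⟩, h12⟩
        exact ⟨h11, h12, empty_subset _⟩
    have h13 : (richPart FF g).card = ∑ σ ∈ rich FF g,
        ((richPart FF g).filter fun S => ∑ x ∈ S, x = σ).card := by
      refine card_eq_sum_card_fiberwise ?_
      intro S hS
      rw [mem_coe] at hS
      unfold richPart at hS
      rw [mem_filter] at hS
      rw [mem_coe]
      unfold rich
      rw [mem_filter, mem_image]
      exact ⟨⟨S, hS.1, rfl⟩, hS.2⟩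
    rw [h13]
    push_cast
    refine sum_congr rfl fun σ hσ => ?_
    rw [h10 σ hσ]
  rw [h1]
  refine le_trans ?_ (sum_le_sum h3)
  rw [← sum_div, h9]
  obtain ⟨j, rfl⟩ : ∃ j, s = j + 1 := ⟨s - 1, by omega⟩
  rw [Nat.add_sub_cancel]
  rw [pow_succ] at htot
  nlinarith

/-- the bound for a fixed distribution of the elements of `J` -/
theorem per_P {U : Finset ℕ} {s k : ℕ} {FF : Finset (Finset ℕ)} {g τ : ℝ}
    (hs : 1 ≤ s) (hk : 1 ≤ k) (hg : 0 < g) (hτ : 0 < τ)
    (hFF : ∀ S ∈ FF, S ⊆ U ∧ S.card = s)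
    (hdeg : ∀ σ ∈ rich FF g, ∀ T : Finset ℕ, T.Nonempty → T.card < s →
      ((fam FF σ T).card : ℝ) ≤ τ ^ T.card * (fam FF σ ∅).card)
    (hM : 1 ≤ (U.card : ℝ) * τ)
    (hB : (1 / (g * τ ^ s)) ^ (k - 1) ≤ ((U.card : ℝ) * τ) ^ (s - 1))
    (P : Fin k → Finset ℕ) (j : ℕ) (hj : 1 ≤ j) (hP : ∑ l, (P l).card = j) :
    ∑ σ ∈ rich FF g, (∏ l, ((fam FF σ (P l)).card : ℝ)) *
      (1 / ((fam FF σ ∅).card : ℝ)) ^ (k - 1) ≤ (U.card : ℝ) ^ (s - 1) * τ ^ (j - 1) := by
  classical
  set m : ℝ := (U.card : ℝ) with hm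
  have hm0 : 0 < m := by
    by_contra h
    push Not at h
    nlinarith
  have : Nonempty (Fin k) := ⟨⟨0, by omega⟩⟩
  obtain ⟨l₀, _, hmax⟩ := exists_max_image (univ : Finset (Fin k)) (fun l => (P l).card)
    univ_nonempty
  have hmax' : ∀ l, (P l).card ≤ (P l₀).card := fun l => hmax l (mem_univ l)
  have ht0 : 1 ≤ (P l₀).card := by
    by_contra h
    have h1 : ∀ l, (P l).card = 0 := fun l => by
      have := hmax' l
      omega
    simp only [h1, sum_const_zero] at hP
    omega
  have hsum : (P l₀).card + ∑ l ∈ univ.erase l₀, (P l).card = j := by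
    rw [← hP]
    exact add_sum_erase univ (fun l => (P l).card) (mem_univ l₀)
  have hcard : (univ.erase l₀ : Finset (Fin k)).card = k - 1 := by
    rw [card_erase_of_mem (mem_univ _), card_univ, Fintype.card_fin]
  have hterm : ∀ σ ∈ rich FF g, (∏ l, ((fam FF σ (P l)).card : ℝ)) *
      (1 / ((fam FF σ ∅).card : ℝ)) ^ (k - 1) = (fam FF σ (P l₀)).card *
        ∏ l ∈ univ.erase l₀, ((fam FF σ (P l)).card : ℝ) / (fam FF σ ∅).card := by
    intro σ _
    rw [← mul_prod_erase univ (fun l => ((fam FF σ (P l)).card : ℝ)) (mem_univ l₀), ← hcard,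
      ← prod_const, mul_assoc, ← prod_mul_distrib]
    congr 1
    refine prod_congr rfl fun l _ => ?_
    rw [mul_one_div]
  rw [sum_congr rfl hterm]
  rcases lt_trichotomy (P l₀).card s with hlt | heq | hgt
  · have h1 : ∀ σ ∈ rich FF g, (fam FF σ (P l₀)).card *
        ∏ l ∈ univ.erase l₀, ((fam FF σ (P l)).card : ℝ) / (fam FF σ ∅).card ≤
        (fam FF σ (P l₀)).card * τ ^ (j - (P l₀).card) := by
      intro σ hσ
      obtain ⟨hf, _⟩ := fam_card_pos hg hσ
      refine mul_le_mul_of_nonneg_left ?_ (Nat.cast_nonneg _)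
      have h2 : j - (P l₀).card = ∑ l ∈ univ.erase l₀, (P l).card := by omega
      rw [h2, ← prod_pow_eq_pow_sum]
      refine prod_le_prod (fun l _ => by positivity) fun l _ => ?_
      rw [div_le_iff₀ hf]
      rcases (P l).eq_empty_or_nonempty with h3 | h3
      · rw [h3, card_empty, pow_zero, one_mul]
      · exact hdeg σ hσ _ h3 (lt_of_le_of_lt (hmax' l) hlt)
    refine (sum_le_sum h1).trans ?_
    rw [← sum_mul]
    have h4 := sum_fam_le (rich FF g) hFF (P l₀)
    calc (∑ σ ∈ rich FF g, ((fam FF σ (P l₀)).card : ℝ)) * τ ^ (j - (P l₀).card)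
        ≤ m ^ (s - (P l₀).card) * τ ^ (j - (P l₀).card) :=
          mul_le_mul_of_nonneg_right h4 (by positivity)
      _ ≤ m ^ (s - (P l₀).card) * τ ^ (j - (P l₀).card) * (m * τ) ^ ((P l₀).card - 1) :=
          le_mul_of_one_le_right (by positivity) (one_le_pow₀ hM)
      _ = m ^ (s - 1) * τ ^ (j - 1) := by
          rw [mul_pow]
          have e1 : s - 1 = (s - (P l₀).card) + ((P l₀).card - 1) := by omega
          have e2 : j - 1 = (j - (P l₀).card) + ((P l₀).card - 1) := by omega
          rw [e1, e2, pow_add, pow_add]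
          ring
  · set v : ℝ := max 1 (1 / (g * τ ^ s)) with hv
    have hv1 : 1 ≤ v := le_max_left _ _
    have hvk : v ^ (k - 1) ≤ (m * τ) ^ (s - 1) := by
      rcases max_cases 1 (1 / (g * τ ^ s)) with ⟨h, _⟩ | ⟨h, _⟩
      · rw [hv, h, one_pow]
        exact one_le_pow₀ hM
      · rw [hv, h]
        exact hB
    have h1 : ∀ σ ∈ rich FF g, (fam FF σ (P l₀)).card *
        ∏ l ∈ univ.erase l₀, ((fam FF σ (P l)).card : ℝ) / (fam FF σ ∅).card ≤
        (fam FF σ (P l₀)).card * (v ^ (k - 1) * τ ^ (j - (P l₀).card)) := by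
      intro σ hσ
      obtain ⟨hf, hfg⟩ := fam_card_pos hg hσ
      refine mul_le_mul_of_nonneg_left ?_ (Nat.cast_nonneg _)
      have h2 : j - (P l₀).card = ∑ l ∈ univ.erase l₀, (P l).card := by omega
      rw [h2, ← prod_pow_eq_pow_sum, ← hcard, ← prod_const, ← prod_mul_distrib]
      refine prod_le_prod (fun l _ => by positivity) fun l _ => ?_
      rw [div_le_iff₀ hf]
      rcases (P l).eq_empty_or_nonempty with h3 | h3
      · rw [h3, card_empty, pow_zero, mul_one]
        exact le_mul_of_one_le_left hf.le hv1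
      · rcases lt_or_eq_of_le ((hmax' l).trans heq.le) with h4 | h4
        · refine (hdeg σ hσ _ h3 h4).trans ?_
          refine mul_le_mul_of_nonneg_right ?_ hf.le
          exact le_mul_of_one_le_left (by positivity) hv1
        · have h5 : ((fam FF σ (P l)).card : ℝ) ≤ 1 := by
            have h6 : (fam FF σ (P l)).card ≤ 1 := by
              rw [card_le_one]
              intro S hS S' hS'
              obtain ⟨h7, _, h8⟩ := mem_fam.1 hS
              obtain ⟨h9, _, h10⟩ := mem_fam.1 hS'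
              have h11 : P l = S := eq_of_subset_of_card_le h8 (by rw [(hFF S h7).2, h4])
              have h12 : P l = S' := eq_of_subset_of_card_le h10 (by rw [(hFF S' h9).2, h4])
              rw [← h11, ← h12]
            exact_mod_cast h6
          refine h5.trans ?_
          rw [h4]
          have h13 : 1 / (g * τ ^ s) ≤ v := le_max_right _ _
          have h14 : 1 ≤ v * τ ^ s * g := by
            rw [div_le_iff₀ (by positivity)] at h13
            linarith
          calc (1 : ℝ) ≤ v * τ ^ s * g := h14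
            _ ≤ v * τ ^ s * (fam FF σ ∅).card :=
                mul_le_mul_of_nonneg_left hfg.le (by positivity)
    refine (sum_le_sum h1).trans ?_
    rw [← sum_mul]
    have h4 := sum_fam_le (rich FF g) hFF (P l₀)
    rw [heq, Nat.sub_self, pow_zero] at h4
    rw [heq]
    calc (∑ σ ∈ rich FF g, ((fam FF σ (P l₀)).card : ℝ)) * (v ^ (k - 1) * τ ^ (j - s))
        ≤ 1 * ((m * τ) ^ (s - 1) * τ ^ (j - s)) := by
          refine mul_le_mul h4 ?_ (by positivity) zero_le_one
          exact mul_le_mul_of_nonneg_right hvk (by positivity)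
      _ = m ^ (s - 1) * τ ^ (j - 1) := by
          rw [one_mul, mul_pow, mul_assoc, ← pow_add]
          congr 2
          omega
  · have h1 : ∀ σ ∈ rich FF g, (fam FF σ (P l₀)).card *
        ∏ l ∈ univ.erase l₀, ((fam FF σ (P l)).card : ℝ) / (fam FF σ ∅).card = 0 := by
      intro σ _
      have h2 : fam FF σ (P l₀) = ∅ := by
        rw [eq_empty_iff_forall_notMem]
        intro S hS
        obtain ⟨h3, _, h4⟩ := mem_fam.1 hS
        have h5 := card_le_card h4
        rw [(hFF S h3).2] at h5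
        omega
      rw [h2, card_empty, Nat.cast_zero, zero_mul]
    rw [sum_congr rfl h1, sum_const_zero]
    positivity

theorem spread_main : S_spread := by
  classical
  intro U s k FF g τ δ hs hk hδ hg hτ hτ1 hFF hdeg hv hM hB htot
  set m : ℝ := (U.card : ℝ) with hm
  have hm0 : 0 < m := by
    by_contra h
    push Not at h
    nlinarith
  refine ⟨wt_nonneg FF g k, ?_, total_ge hs hk hg hFF hv htot, ?_⟩
  · intro e he
    obtain ⟨σ, q, h1, h2, h3⟩ := wt_ne he
    refine ⟨?_, ?_⟩
    · rw [h3]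
      intro x hx
      rw [mem_biUnion] at hx
      obtain ⟨l, _, hl⟩ := hx
      exact (hFF _ (mem_fam.1 (h1 l)).1).1 hl
    · rw [h3]
      exact card_union (fun S hS => (hFF S hS).2) h1 h2
  intro J hJ
  have hj1 : 1 ≤ J.card := card_pos.2 hJ
  have hdegJ : deg U (wt FF g k) J = ∑ σ ∈ rich FF g,
      ∑ q ∈ Fintype.piFinset (fun _ : Fin k => fam FF σ ∅),
        if PD q ∧ J ⊆ univ.biUnion q then (1 / ((fam FF σ ∅).card : ℝ)) ^ (k - 1) else 0 := by
    have h2 := sum_wt (U := U) g k (fun S hS => (hFF S hS).1) (fun e => J ⊆ e)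
    unfold deg
    convert h2
  by_cases hj : J.card ≤ k * s
  · set PP : Finset (Fin k → Finset ℕ) :=
      (Fintype.piFinset fun _ : Fin k => J.powerset).filter fun P => ∑ l, (P l).card = J.card
      with hPP
    have h1 : ∀ σ ∈ rich FF g, (∑ q ∈ Fintype.piFinset (fun _ : Fin k => fam FF σ ∅),
        if PD q ∧ J ⊆ univ.biUnion q then (1 / ((fam FF σ ∅).card : ℝ)) ^ (k - 1) else 0) ≤
        ∑ P ∈ PP, (∏ l, ((fam FF σ (P l)).card : ℝ)) *
          (1 / ((fam FF σ ∅).card : ℝ)) ^ (k - 1) := by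
      intro σ _
      rw [← sum_filter, sum_const, nsmul_eq_mul, ← sum_mul]
      refine mul_le_mul_of_nonneg_right ?_ (by positivity)
      have h2 : (Fintype.piFinset (fun _ : Fin k => fam FF σ ∅)).filter
          (fun q => PD q ∧ J ⊆ univ.biUnion q) ⊆
          PP.biUnion fun P => Fintype.piFinset (fun l => fam FF σ (P l)) := by
        intro q hq
        rw [mem_filter, Fintype.mem_piFinset] at hq
        obtain ⟨hq1, hq2, hq3⟩ := hq
        rw [mem_biUnion]
        refine ⟨fun l => J ∩ q l, ?_, ?_⟩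
        · rw [hPP, mem_filter, Fintype.mem_piFinset]
          refine ⟨fun l => mem_powerset.2 inter_subset_left, ?_⟩
          rw [← card_biUnion]
          · congr 1
            ext x
            rw [mem_biUnion]
            constructor
            · rintro ⟨l, _, hl⟩
              exact (mem_inter.1 hl).1
            · intro hx
              obtain ⟨l, _, hl⟩ := mem_biUnion.1 (hq3 hx)
              exact ⟨l, mem_univ l, mem_inter.2 ⟨hx, hl⟩⟩
          · intro l _ l' _ hne
            exact disjoint_of_subset_left inter_subset_right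
              (disjoint_of_subset_right inter_subset_right (hq2 l l' hne))
        · rw [Fintype.mem_piFinset]
          intro l
          obtain ⟨h3, h4, _⟩ := mem_fam.1 (hq1 l)
          exact mem_fam.2 ⟨h3, h4, inter_subset_right⟩
      have h3 : (((Fintype.piFinset (fun _ : Fin k => fam FF σ ∅)).filter
          (fun q => PD q ∧ J ⊆ univ.biUnion q)).card : ℝ) ≤
          ∑ P ∈ PP, ((Fintype.piFinset (fun l => fam FF σ (P l))).card : ℝ) := by
        exact_mod_cast (card_le_card h2).trans card_biUnion_le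
      refine h3.trans (le_of_eq ?_)
      exact sum_congr rfl fun P _ => card_tuples FF σ k P
    have h4 : deg U (wt FF g k) J ≤ ∑ P ∈ PP, m ^ (s - 1) * τ ^ (J.card - 1) := by
      rw [hdegJ]
      refine (sum_le_sum h1).trans ?_
      rw [sum_comm]
      refine sum_le_sum fun P hP => ?_
      rw [hPP, mem_filter] at hP
      exact per_P hs hk hg hτ hFF hdeg hM hB P J.card hj1 hP.2
    have h5 : (PP.card : ℝ) ≤ 2 ^ (s * k ^ 2) := by
      have h6 : PP.card ≤ 2 ^ (s * k ^ 2) := by
        calc PP.card ≤ (Fintype.piFinset fun _ : Fin k => J.powerset).card := card_filter_le _ _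
          _ = (2 ^ J.card) ^ k := by
              rw [Fintype.card_piFinset, prod_const, card_univ, Fintype.card_fin, card_powerset]
          _ = 2 ^ (J.card * k) := by rw [pow_mul]
          _ ≤ 2 ^ (s * k ^ 2) := by
              refine Nat.pow_le_pow_right (by norm_num) ?_
              calc J.card * k ≤ (k * s) * k := Nat.mul_le_mul_right k hj
                _ = s * k ^ 2 := by ring
      exact_mod_cast h6
    rw [sum_const, nsmul_eq_mul] at h4
    calc deg U (wt FF g k) J * τ
        ≤ ((PP.card : ℝ) * (m ^ (s - 1) * τ ^ (J.card - 1))) * τ :=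
          mul_le_mul_of_nonneg_right h4 hτ.le
      _ ≤ (2 ^ (s * k ^ 2) * (m ^ (s - 1) * τ ^ (J.card - 1))) * τ := by
          refine mul_le_mul_of_nonneg_right ?_ hτ.le
          exact mul_le_mul_of_nonneg_right h5 (by positivity)
      _ = 2 ^ (s * k ^ 2) * (2 / δ) * (δ / 2 * m ^ (s - 1)) * τ ^ J.card := by
          obtain ⟨i, hi⟩ : ∃ i, J.card = i + 1 := ⟨J.card - 1, by omega⟩
          rw [hi, Nat.add_sub_cancel, pow_succ τ i]
          field_simp
  · have h0 : deg U (wt FF g k) J = 0 := by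
      rw [hdegJ]
      refine sum_eq_zero fun σ _ => sum_eq_zero fun q hq => if_neg fun h => hj ?_
      have h1 := card_le_card h.2
      rwa [card_union (fun S hS => (hFF S hS).2) (Fintype.mem_piFinset.1 hq) h.1] at h1
    rw [h0, zero_mul]
    exact mul_nonneg (mul_nonneg (mul_nonneg (pow_nonneg zero_le_two _)
      (div_nonneg zero_le_two hδ.le)) (mul_nonneg (div_nonneg hδ.le zero_le_two)
      (pow_nonneg hm0.le _))) (pow_nonneg hτ.le _)

end Pool.Agent.Y940.CH
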