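import Pool.Agent.Y940.CH.Spr2
/-!
# One step of the iteration
-/

set_option autoImplicit false

open Finset

namespace Pool.Agent.Y940.CH

open Pool.Agent.Y940.CT (Spread Ind RCov rcontainers rcost)

theorem Fm_mem {U : Finset ℕ} {G : ℕ → ℝ} {i : ℕ} {S : Finset ℕ} (h : S ∈ Fm U G i) :
    S ⊆ U ∧ S.card = i := by
  cases i with
  | zero => exact absurd h (notMem_empty _)
  | succ i =>
    have h1 : S ∈ (U.powersetCard (i + 1)).filter fun S => ∀ T ∈ S.powersetCard i, T ∈ Gd U G i := h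
    exact mem_powersetCard.1 (mem_filter.1 h1).1

/-- sets with the property `FreeH` are independent -/
theorem ind_of_free {U I : Finset ℕ} {G : ℕ → ℝ} {h k i : ℕ} {g : ℝ} (hi : 2 ≤ i) (hih : i ≤ h)
    (hI : FreeH h k I) : Ind (wt (Fm U G i) g k) I := by
  classical
  intro e he
  by_contra hne
  obtain ⟨σ, q, h1, h2, h3⟩ := wt_ne hne
  obtain ⟨l, l', h4, h5⟩ := hI i σ hi hih q (fun l => by
    obtain ⟨h6, h7, _⟩ := mem_fam.1 (h1 l)
    refine ⟨?_, (Fm_mem h6).2, h7⟩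
    refine subset_trans ?_ he
    rw [h3]
    exact subset_biUnion_of_mem q (mem_univ l))
  exact h5 (h2 l l' h4)

theorem core (hlev : S_lev) (h k : ℕ) (hh : 2 ≤ h) (hk : 1 ≤ k) :
    ∃ δ : ℝ, 0 < δ ∧ δ ≤ 1 ∧ ∃ L : ℝ, 1 ≤ L ∧
      ∀ (N : ℕ) (U : Finset ℕ) (R ρ y η ζ τ : ℝ), U ⊆ range (N + 1) →
        R = (L * (N + 1)) ^ (1 / (h : ℝ)) → (U.card : ℝ) = R * y → 2 * (k : ℝ) ^ 2 * h ≤ y →
        0 < η → η * (h - 1) ≤ 1 → y ^ (η * h * k) ≤ R → τ = y ^ (-(1 + η)) → τ ≤ ρ → 0 < ζ →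
        RCov ρ ∅ (fun I => I ⊆ U ∧ FreeH h k I) U
          (Real.exp (k * h * (2 / ζ + 1) * (U.card * (ρ ^ ζ * τ ^ (1 - ζ)))))
          ((1 - δ) * U.card) := by
  classical
  obtain ⟨hlev1, hlev2⟩ := hlev
  obtain ⟨δ₀, hδ₀, L, hL, hex⟩ := hlev2 h hh
  set δ₁ : ℝ := min δ₀ 1 with hδ₁
  have hδ₁0 : 0 < δ₁ := lt_min hδ₀ one_pos
  have hδ₁1 : δ₁ ≤ 1 := min_le_right _ _
  have hk1 : (1 : ℝ) ≤ k := by exact_mod_cast hk
  have hh2 : (2 : ℝ) ≤ h := by exact_mod_cast hh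
  have hcont : ∀ i : ℕ, ∃ δ : ℝ, 2 ≤ i → 0 < δ ∧ δ ≤ 1 ∧
    ∀ (U : Finset ℕ) (w : Finset ℕ → ℝ) (D τ ρ : ℝ) (q : ℕ), 0 < D → 0 < τ → τ ≤ ρ →
      U.card * τ ≤ q → (q : ℝ) ≤ 2 * τ * U.card →
      Spread U (k * i) w D (2 ^ (i * k ^ 2) * (2 / δ₁)) τ →
      ∀ F, F ⊆ U → RCov ρ F (fun I => I ⊆ U ∧ Ind w I) U
        (((ρ / τ) ^ q * (1 + τ) ^ U.card) ^ (k * i - 1)) ((1 - δ) * U.card) := by
    intro i
    by_cases hi : 2 ≤ i
    · obtain ⟨δ, h1, h2, h3⟩ := rcontainers (k * i) (by nlinarith) (2 ^ (i * k ^ 2) * (2 / δ₁)) (by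
        have h4 : (1 : ℝ) ≤ 2 ^ (i * k ^ 2) := one_le_pow₀ (by norm_num)
        have h5 : (1 : ℝ) ≤ 2 / δ₁ := by
          rw [one_le_div hδ₁0]
          linarith
        exact one_le_mul_of_one_le_of_one_le h4 h5)
      exact ⟨δ, fun _ => ⟨h1, h2, h3⟩⟩
    · exact ⟨0, fun h => absurd h hi⟩
  choose δc hδc using hcont
  obtain ⟨i₀, hi₀, hmin⟩ := exists_min_image (Icc 2 h) δc ⟨2, mem_Icc.2 ⟨le_rfl, hh⟩⟩
  have hi₀2 := (mem_Icc.1 hi₀).1
  refine ⟨δc i₀, (hδc i₀ hi₀2).1, (hδc i₀ hi₀2).2.1, L, hL, ?_⟩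
  intro N U R ρ y η ζ τ hU hR hUR hy hη hη1 hyR hτ hτρ hζ
  have hN0 : (0 : ℝ) ≤ N := Nat.cast_nonneg N
  have hLN : 1 ≤ L * (N + 1) := by nlinarith
  have hR1 : 1 ≤ R := by
    rw [hR]
    exact Real.one_le_rpow hLN (by positivity)
  have hR0 : 0 < R := by linarith
  have hy4 : (4 : ℝ) ≤ y := by nlinarith [sq_nonneg ((k : ℝ) - 1)]
  have hy1 : (1 : ℝ) ≤ y := by linarith
  have hy0 : 0 < y := by linarith
  have hτ0 : 0 < τ := by
    rw [hτ]
    exact Real.rpow_pos_of_pos hy0 _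
  have hτ1 : τ ≤ 1 := by
    rw [hτ]
    exact Real.rpow_le_one_of_one_le_of_nonpos hy1 (by linarith)
  have hτy : τ * y ≤ 1 := by
    have h1 : τ * y = y ^ (-η) := by
      rw [hτ]
      nth_rewrite 2 [← Real.rpow_one y]
      rw [← Real.rpow_add hy0]
      congr 1
      ring
    rw [h1]
    exact Real.rpow_le_one_of_one_le_of_nonpos hy1 (by linarith)
  set m : ℝ := (U.card : ℝ) with hm
  have hm0 : 0 < m := by
    rw [hUR]
    positivity
  have hmτ : m * τ = R * y ^ (-η) := by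
    rw [hUR, hτ, mul_assoc]
    congr 1
    nth_rewrite 1 [← Real.rpow_one y]
    rw [← Real.rpow_add hy0]
    congr 1
    ring
  -- `(y ^ (h η)) ^ (k - 1) ≤ m τ`
  have hkey : (y ^ ((h : ℝ) * η)) ^ (k - 1) ≤ m * τ := by
    rw [hmτ]
    have h1 : y ^ (η * h * k) * y ^ (-η) ≤ R * y ^ (-η) :=
      mul_le_mul_of_nonneg_right hyR (by positivity)
    refine le_trans ?_ h1
    rw [← Real.rpow_natCast, ← Real.rpow_mul hy0.le, ← Real.rpow_add hy0]
    refine Real.rpow_le_rpow_of_exponent_le hy1 ?_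
    rw [Nat.cast_sub hk]
    push_cast
    nlinarith
  have hone : 1 ≤ m * τ := by
    refine le_trans ?_ hkey
    exact one_le_pow₀ (Real.one_le_rpow hy1 (by positivity))
  -- the thresholds
  set G : ℕ → ℝ := fun j => if j ≤ 1 then 1 else y ^ ((j : ℝ) - ((h : ℝ) - j) * η) with hG
  have hG0 : ∀ j, 0 ≤ G j := by
    intro j
    rw [hG]
    simp only
    split_ifs <;> positivity
  have hGeq : ∀ j, 2 ≤ j → G j = y ^ ((j : ℝ) - ((h : ℝ) - j) * η) := by
    intro j hj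
    rw [hG]
    simp only
    rw [if_neg (by omega)]
  have hGle : ∀ j, 1 ≤ j → G j ≤ y ^ ((j : ℝ) - ((h : ℝ) - j) * η) := by
    intro j hj
    rcases Nat.lt_or_ge j 2 with h1 | h1
    · have h2 : j = 1 := by omega
      subst h2
      have h3 : G 1 = 1 := by
        rw [hG]
        simp
      rw [h3]
      refine Real.one_le_rpow hy1 ?_
      push_cast
      linarith
    · exact (hGeq j h1).le
  have hGh : G h ≤ m ^ h / (L * (N + 1)) := by
    have h1 : R ^ h = L * (N + 1) := by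
      rw [hR, ← Real.rpow_natCast, ← Real.rpow_mul (by linarith)]
      rw [one_div, inv_mul_cancel₀ (by positivity), Real.rpow_one]
    rw [hGeq h hh, ← h1, hUR, mul_pow, mul_div_assoc]
    rw [sub_self, zero_mul, sub_zero, Real.rpow_natCast]
    rw [mul_div_assoc', mul_comm, mul_div_assoc, div_self (by positivity), mul_one]
  have h2h : 2 * h ≤ U.card := by
    have h1 : (2 * h : ℝ) ≤ m := by
      rw [hUR]
      have h2 : (2 * h : ℝ) ≤ y := by
        refine le_trans ?_ hy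
        have h3 : (1 : ℝ) ≤ (k : ℝ) ^ 2 := one_le_pow₀ hk1
        nlinarith
      nlinarith
    rw [hm] at h1
    exact_mod_cast h1
  obtain ⟨i, hi2, hih, hrich⟩ := hex N U G hU h2h (by rw [hG]; simp) hGh
  have hih' : (i : ℝ) ≤ h := by exact_mod_cast hih
  have hGi := hGeq i hi2
  have hGi0 : 0 < G i := by
    rw [hGi]
    positivity
  -- the ratio of the thresholds
  have hratio : ∀ t : ℕ, t < i → G (i - t) ≤ τ ^ t * G i := by
    intro t ht
    refine (hGle (i - t) (by omega)).trans (le_of_eq ?_)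
    rw [hGi, hτ, ← Real.rpow_natCast, ← Real.rpow_mul hy0.le, ← Real.rpow_add hy0]
    congr 1
    rw [Nat.cast_sub ht.le]
    ring
  have hspread := spread_main U i k (Fm U G i) (G i) τ δ₁ (by omega) hk hδ₁0 hGi0 hτ0 hτ1
    (fun S hS => Fm_mem hS) ?_ ?_ hone ?_ ?_
  · set q : ℕ := ⌈m * τ⌉₊ with hq
    have hq1 : m * τ ≤ q := Nat.le_ceil _
    have hq2 : (q : ℝ) ≤ 2 * τ * m := by
      have := Nat.ceil_lt_add_one (show 0 ≤ m * τ by positivity)
      rw [← hq] at this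
      linarith
    have hcov := (hδc i hi2).2.2 U _ _ τ ρ q (by positivity) hτ0 hτρ hq1 hq2 hspread ∅
      (empty_subset _)
    refine hcov.mono ?_ ?_ ?_
    · rintro I _ ⟨h1, h2⟩
      exact ⟨h1, ind_of_free hi2 hih h2⟩
    · refine (rcost (m := m) rfl hτ0 hτρ hζ hq2).trans (Real.exp_le_exp.2 ?_)
      have h1 : ((k * i - 1 : ℕ) : ℝ) ≤ k * h := by
        have h2 : k * i - 1 ≤ k * h := (Nat.sub_le _ _).trans (Nat.mul_le_mul_left k hih)
        exact_mod_cast h2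
      have hρ0 : 0 < ρ := hτ0.trans_le hτρ
      refine mul_le_mul_of_nonneg_right ?_ (by positivity)
      exact mul_le_mul_of_nonneg_right h1 (by positivity)
    · refine mul_le_mul_of_nonneg_right ?_ hm0.le
      have := hmin i (mem_Icc.2 ⟨hi2, hih⟩)
      linarith
  · intro σ hσ T hT hTi
    have hf := (fam_card_pos hGi0 hσ).2
    refine (hlev1 U G (by rw [hG]; simp) hG0 i σ T (by omega) hT hTi.le).trans ?_
    refine (hratio T.card hTi).trans ?_
    exact mul_le_mul_of_nonneg_left hf.le (by positivity)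
  · intro σ hσ v
    have hf := (fam_card_pos hGi0 hσ).2
    have h1 := hlev1 U G (by rw [hG]; simp) hG0 i σ {v} (by omega) (singleton_nonempty v)
      (by rw [card_singleton]; omega)
    rw [card_singleton] at h1
    have h2 := hratio 1 (by omega)
    rw [pow_one] at h2
    have h3 : ((fam (Fm U G i) σ {v}).card : ℝ) ≤ τ * G i := h1.trans h2
    have h4 : 2 * (k : ℝ) ^ 2 * i * τ ≤ 1 := by
      have h5 : 2 * (k : ℝ) ^ 2 * i ≤ y := by
        refine le_trans ?_ hy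
        exact mul_le_mul_of_nonneg_left hih' (by positivity)
      calc 2 * (k : ℝ) ^ 2 * i * τ ≤ y * τ := mul_le_mul_of_nonneg_right h5 hτ0.le
        _ ≤ 1 := by linarith
    calc 2 * (k : ℝ) ^ 2 * i * (fam (Fm U G i) σ {v}).card
        ≤ 2 * (k : ℝ) ^ 2 * i * (τ * G i) := mul_le_mul_of_nonneg_left h3 (by positivity)
      _ = (2 * (k : ℝ) ^ 2 * i * τ) * G i := by ring
      _ ≤ 1 * G i := mul_le_mul_of_nonneg_right h4 hGi0.le
      _ ≤ _ := by linarith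
  · have h1 : G i * τ ^ i = y ^ (-((h : ℝ) * η)) := by
      rw [hGi, hτ, ← Real.rpow_natCast, ← Real.rpow_mul hy0.le, ← Real.rpow_add hy0]
      congr 1
      ring
    rw [h1, Real.rpow_neg hy0.le, one_div, inv_inv]
    refine hkey.trans ?_
    calc m * τ = (m * τ) ^ 1 := (pow_one _).symm
      _ ≤ (m * τ) ^ (i - 1) := pow_le_pow_right₀ hone (by omega)
  · refine le_trans ?_ hrich
    refine mul_le_mul_of_nonneg_right (min_le_left _ _) (by positivity)

end Pool.Agent.Y940.CH
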