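import Pool.Agent.Y940.CH.Step
/-!
# One step of the iteration: the exponents
-/

set_option autoImplicit false

open Finset

namespace Pool.Agent.Y940.CH

open Pool.Agent.Y940.CT (Spread Ind RCov rcontainers rcost)

theorem step_main (hlev : S_lev) : S_step := by
  classical
  intro h k hh hk
  obtain ⟨δ, hδ0, hδ1, L, hL, hcore⟩ := core hlev h k hh hk
  have hk1 : (1 : ℝ) ≤ k := by exact_mod_cast hk
  have hh2 : (2 : ℝ) ≤ h := by exact_mod_cast hh
  have hh1 : (1 : ℝ) ≤ (h : ℝ) - 1 := by linarith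
  have hh0 : (0 : ℝ) < (h : ℝ) - 1 := by linarith
  -- the small exponent
  set b : ℝ := 1 / (k * h * (h - 1)) with hb
  have hb0 : 0 < b := by positivity
  have hkh : (2 : ℝ) ≤ k * h := by nlinarith
  have hb2 : b ≤ 1 / 2 := by
    rw [hb, div_le_div_iff₀ (by positivity) (by norm_num)]
    nlinarith
  set a : ℝ := 1 / ((h : ℝ) - 1) with ha
  have ha0 : 0 < a := by positivity
  have ha1 : a ≤ 1 := by
    rw [ha, div_le_one hh0]
    exact hh1
  have hba : b ≤ a := by
    rw [hb, ha, div_le_div_iff₀ (by positivity) hh0]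
    nlinarith
  have hah : a * (h - 1) = 1 := by
    rw [ha]
    field_simp
  have hbh : b * (h - 1) ≤ 1 := by
    calc b * (h - 1) ≤ a * (h - 1) := mul_le_mul_of_nonneg_right hba hh0.le
      _ = 1 := hah
  set ζ : ℝ := b / 4 with hζ
  have hζ0 : 0 < ζ := by positivity
  set c : ℝ := k * h * (2 / ζ + 1) with hc
  have hc0 : 0 < c := by positivity
  refine ⟨δ, hδ0, hδ1, c, hc0, ζ, hζ0, by linarith, 2 * (k : ℝ) ^ 2 * h, by nlinarith, L, hL, ?_⟩
  intro N U R ρ hU hR hρ0 hρ1 hρR hm
  have hN0 : (0 : ℝ) ≤ N := Nat.cast_nonneg N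
  have hLN : 1 ≤ L * (N + 1) := by nlinarith
  have hR1 : 1 ≤ R := by
    rw [hR]
    exact Real.one_le_rpow hLN (by positivity)
  have hR0 : 0 < R := by linarith
  have hRh : R ^ h = L * (N + 1) := by
    rw [hR, ← Real.rpow_natCast, ← Real.rpow_mul (by linarith)]
    rw [one_div, inv_mul_cancel₀ (by positivity), Real.rpow_one]
  set r : ℝ := ρ ^ (1 / (h : ℝ)) with hr
  have hr0 : 0 < r := Real.rpow_pos_of_pos hρ0 _
  set y₀ : ℝ := 2 * (k : ℝ) ^ 2 * h with hy₀
  have hy₀1 : 1 ≤ y₀ := by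
    rw [hy₀]
    nlinarith
  set m : ℝ := (U.card : ℝ) with hmdef
  set A : ℝ := r / ρ with hA
  have hA0 : 0 < A := by positivity
  have hA1 : 1 ≤ A := by
    rw [hA, one_le_div hρ0, hr]
    nth_rewrite 1 [← Real.rpow_one ρ]
    refine Real.rpow_le_rpow_of_exponent_ge hρ0 hρ1 ?_
    rw [div_le_one (by linarith)]
    linarith
  have hAexp : A = ρ ^ (1 / (h : ℝ) - 1) := by
    rw [hA, hr, Real.rpow_sub hρ0, Real.rpow_one]
  have hRA : R * r / ρ = R * A := by rw [hA, mul_div_assoc]
  rw [hRA] at hm ⊢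
  have hm0 : 0 < m := lt_of_lt_of_le (by positivity) hm
  set z : ℝ := m / (R * A) with hz
  have hzy : y₀ ≤ z := by
    rw [hz, le_div_iff₀ (by positivity)]
    exact hm
  have hz1 : 1 ≤ z := hy₀1.trans hzy
  have hz0 : 0 < z := by linarith
  set y : ℝ := m / R with hy
  have hyz : y = z * A := by
    rw [hy, hz]
    field_simp
  have hzy2 : z ≤ y := by
    rw [hyz]
    exact le_mul_of_one_le_right hz0.le hA1
  have hy1 : 1 ≤ y := hz1.trans hzy2
  have hy0 : 0 < y := by linarith
  have hmR : m = R * y := by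
    rw [hy]
    field_simp
  have hyR : y ≤ R ^ (h - 1) := by
    have h1 : m ≤ R ^ h := by
      rw [hRh]
      have h2 : U.card ≤ N + 1 := by
        have := card_le_card hU
        rwa [card_range] at this
      have h3 : m ≤ N + 1 := by
        rw [hmdef]
        exact_mod_cast h2
      nlinarith
    rw [hmR] at h1
    have h2 : R ^ h = R * R ^ (h - 1) := by
      rw [← pow_succ']
      congr 1
      omega
    rw [h2] at h1
    exact le_of_mul_le_mul_left h1 hR0
  have htarget : ∀ x : ℝ, x ≤ R * r * z ^ (-ζ) →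
      c * x ≤ c * (R * r) * (y₀ * (R * A) / m) ^ ζ := by
    intro x hx
    have h1 : y₀ * (R * A) / m = y₀ / z := by
      rw [hz]
      field_simp
    rw [h1, Real.div_rpow (by linarith) hz0.le]
    calc c * x ≤ c * (R * r * z ^ (-ζ)) := mul_le_mul_of_nonneg_left hx hc0.le
      _ ≤ c * ((R * r) * (y₀ ^ ζ / z ^ ζ)) := by
          refine mul_le_mul_of_nonneg_left ?_ hc0.le
          refine mul_le_mul_of_nonneg_left ?_ (mul_nonneg hR0.le hr0.le)
          rw [Real.rpow_neg hz0.le, ← one_div]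
          exact div_le_div_of_nonneg_right (Real.one_le_rpow hy₀1 hζ0.le)
            (Real.rpow_pos_of_pos hz0 _).le
      _ = c * (R * r) * (y₀ ^ ζ / z ^ ζ) := (mul_assoc _ _ _).symm
  by_cases hcase : y ^ (a * h * k) ≤ R
  · -- small containers
    set τ : ℝ := y ^ (-(1 + a)) with hτ
    have hAρ : A ^ (-(1 + a)) = ρ := by
      rw [hAexp, ← Real.rpow_mul hρ0.le]
      have h1 : (1 / (h : ℝ) - 1) * -(1 + a) = 1 := by
        rw [ha]
        field_simp
        ring
      rw [h1, Real.rpow_one]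
    have hτz : τ = z ^ (-(1 + a)) * ρ := by
      rw [hτ, hyz, Real.mul_rpow hz0.le hA0.le, hAρ]
    have hz1a : z ^ (-(1 + a)) ≤ 1 :=
      Real.rpow_le_one_of_one_le_of_nonpos hz1 (by linarith)
    have hτρ : τ ≤ ρ := by
      rw [hτz]
      exact mul_le_of_le_one_left hρ0.le hz1a
    refine (hcore N U R ρ y a ζ τ hU hR hmR (hzy.trans hzy2) ha0 hah.le hcase hτ hτρ hζ0).mono
      (fun I _ hI => hI) (Real.exp_le_exp.2 ?_) le_rfl
    refine htarget _ ?_
    have h1 : ρ ^ ζ * τ ^ (1 - ζ) = ρ * z ^ (-(1 + a) * (1 - ζ)) := by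
      rw [hτz, Real.mul_rpow (Real.rpow_nonneg hz0.le _) hρ0.le, ← Real.rpow_mul hz0.le]
      calc ρ ^ ζ * (z ^ (-(1 + a) * (1 - ζ)) * ρ ^ (1 - ζ))
          = (ρ ^ ζ * ρ ^ (1 - ζ)) * z ^ (-(1 + a) * (1 - ζ)) := by ring
        _ = ρ * z ^ (-(1 + a) * (1 - ζ)) := by
            rw [← Real.rpow_add hρ0]
            congr 1
            nth_rewrite 2 [← Real.rpow_one ρ]
            congr 1
            ring
    rw [← hmdef, h1, hmR, hyz]
    calc R * (z * A) * (ρ * z ^ (-(1 + a) * (1 - ζ)))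
        = R * (A * ρ) * (z * z ^ (-(1 + a) * (1 - ζ))) := by ring
      _ = R * r * z ^ (1 + -(1 + a) * (1 - ζ)) := by
          rw [Real.rpow_add hz0, Real.rpow_one, hA, div_mul_cancel₀ _ hρ0.ne']
      _ ≤ R * r * z ^ (-ζ) := by
          refine mul_le_mul_of_nonneg_left ?_ (by positivity)
          refine Real.rpow_le_rpow_of_exponent_le hz1 ?_
          have h2 : a * ζ ≤ ζ := mul_le_of_le_one_left hζ0.le ha1
          have h3 : 4 * ζ ≤ a := by
            rw [hζ]
            linarith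
          nlinarith
  · -- large containers
    push Not at hcase
    set τ : ℝ := y ^ (-(1 + b)) with hτ
    have hbR : y ^ (b * h * k) ≤ R := by
      have h1 : b * h * k = 1 / ((h : ℝ) - 1) := by
        rw [hb]
        field_simp
      rw [h1]
      calc y ^ (1 / ((h : ℝ) - 1)) ≤ (R ^ (h - 1)) ^ (1 / ((h : ℝ) - 1)) :=
            Real.rpow_le_rpow hy0.le hyR (by positivity)
        _ = R := by
            rw [← Real.rpow_natCast, ← Real.rpow_mul hR0.le, Nat.cast_sub (by omega)]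
            push_cast
            rw [mul_one_div, div_self hh0.ne', Real.rpow_one]
    have hyneg : ∀ e : ℝ, 0 ≤ e → y ^ (-(a * h * k * e)) ≤ R ^ (-e) := by
      intro e he
      rw [Real.rpow_neg hy0.le, Real.rpow_neg hR0.le]
      refine inv_anti₀ (Real.rpow_pos_of_pos hR0 _) ?_
      rw [Real.rpow_mul hy0.le]
      exact Real.rpow_le_rpow hR0.le hcase.le he
    have hτρ : τ ≤ ρ := by
      refine le_trans ?_ hρR
      refine le_trans ?_ (hyneg (1 / (4 * (k : ℝ) ^ 2 * h)) (by positivity))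
      rw [hτ]
      refine Real.rpow_le_rpow_of_exponent_le hy1 ?_
      have h1 : a * h * k * (1 / (4 * (k : ℝ) ^ 2 * h)) = a / (4 * k) := by
        field_simp
      rw [h1]
      have h2 : a / (4 * k) ≤ 1 := by
        rw [div_le_one (by positivity)]
        linarith
      linarith
    refine (hcore N U R ρ y b ζ τ hU hR hmR (hzy.trans hzy2) hb0 hbh hbR hτ hτρ hζ0).mono
      (fun I _ hI => hI) (Real.exp_le_exp.2 ?_) le_rfl
    refine htarget _ ?_
    have hρζ : ρ ^ ζ ≤ 1 := Real.rpow_le_one hρ0.le hρ1 hζ0.le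
    have h1 : τ ^ (1 - ζ) = y ^ (-(1 + b) * (1 - ζ)) := by
      rw [hτ, ← Real.rpow_mul hy0.le]
    have hτ0 : 0 < τ := Real.rpow_pos_of_pos hy0 _
    have h2 : R * y ^ (-ζ) ≤ R * r := by
      refine mul_le_mul_of_nonneg_left ?_ hR0.le
      have h3 : ζ = a * h * k * (1 / (4 * (k : ℝ) ^ 2 * (h : ℝ) ^ 2)) := by
        rw [hζ, hb, ha]
        field_simp
      rw [h3]
      refine (hyneg _ (by positivity)).trans ?_
      rw [hr]
      calc R ^ (-(1 / (4 * (k : ℝ) ^ 2 * (h : ℝ) ^ 2)))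
          = (R ^ (-(1 / (4 * (k : ℝ) ^ 2 * h)))) ^ (1 / (h : ℝ)) := by
            rw [← Real.rpow_mul hR0.le]
            congr 1
            field_simp
        _ ≤ ρ ^ (1 / (h : ℝ)) := Real.rpow_le_rpow (by positivity) hρR (by positivity)
    rw [← hmdef, h1, hmR]
    calc R * y * (ρ ^ ζ * y ^ (-(1 + b) * (1 - ζ)))
        ≤ R * y * (1 * y ^ (-(1 + b) * (1 - ζ))) := by
          refine mul_le_mul_of_nonneg_left ?_ (mul_nonneg hR0.le hy0.le)
          exact mul_le_mul_of_nonneg_right hρζ (Real.rpow_nonneg hy0.le _)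
      _ = R * y ^ (1 + -(1 + b) * (1 - ζ)) := by
          rw [Real.rpow_add hy0, Real.rpow_one]
          ring
      _ ≤ R * y ^ (-ζ + -ζ) := by
          refine mul_le_mul_of_nonneg_left ?_ hR0.le
          refine Real.rpow_le_rpow_of_exponent_le hy1 ?_
          have h3 : b * ζ ≤ ζ := mul_le_of_le_one_left hζ0.le (by linarith)
          have h4 : b = 4 * ζ := by
            rw [hζ]
            ring
          nlinarith
      _ = (R * y ^ (-ζ)) * y ^ (-ζ) := by
          rw [Real.rpow_add hy0]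
          ring
      _ ≤ (R * r) * y ^ (-ζ) := mul_le_mul_of_nonneg_right h2 (Real.rpow_nonneg hy0.le _)
      _ ≤ R * r * z ^ (-ζ) := by
          refine mul_le_mul_of_nonneg_left ?_ (mul_nonneg hR0.le hr0.le)
          exact Real.rpow_le_rpow_of_nonpos hz0 hzy2 (by linarith)

end Pool.Agent.Y940.CH
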