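import Pool.Agent.Y940.CH.Defs
/-!
# Sets with bounded representation function of order `h`: statements
-/

set_option autoImplicit false

open Finset Filter MeasureTheory ProbabilityTheory

namespace Pool.Agent.Y940.CH

open Pool.Agent.Y940.RS (rset)
open Pool.Agent.Y940.CT (RCov Spread Ind Sub count seg)

universe u

/-- SPREAD -/
def S_spread : Prop :=
  ∀ (U : Finset ℕ) (s k : ℕ) (FF : Finset (Finset ℕ)) (g τ δ : ℝ), 1 ≤ s → 1 ≤ k → 0 < δ → 0 < g →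
    0 < τ → τ ≤ 1 → (∀ S ∈ FF, S ⊆ U ∧ S.card = s) →
    (∀ σ ∈ rich FF g, ∀ T : Finset ℕ, T.Nonempty → T.card < s →
      ((fam FF σ T).card : ℝ) ≤ τ ^ T.card * (fam FF σ ∅).card) →
    (∀ σ ∈ rich FF g, ∀ v : ℕ, 2 * (k : ℝ) ^ 2 * s * (fam FF σ {v}).card ≤ (fam FF σ ∅).card) →
    1 ≤ (U.card : ℝ) * τ → (1 / (g * τ ^ s)) ^ (k - 1) ≤ ((U.card : ℝ) * τ) ^ (s - 1) →
    δ * (U.card : ℝ) ^ s ≤ (richPart FF g).card →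
    Spread U (k * s) (wt FF g k) (δ / 2 * (U.card : ℝ) ^ (s - 1)) (2 ^ (s * k ^ 2) * (2 / δ)) τ

/-- LEV: the families of the recursion -/
def S_lev : Prop :=
  (∀ (U : Finset ℕ) (G : ℕ → ℝ), 1 ≤ G 0 → (∀ j, 0 ≤ G j) → ∀ (i σ : ℕ) (T : Finset ℕ), 1 ≤ i → T.Nonempty →
    T.card ≤ i → ((fam (Fm U G i) σ T).card : ℝ) ≤ G (i - T.card)) ∧
  ∀ h : ℕ, 2 ≤ h → ∃ δ : ℝ, 0 < δ ∧ ∃ L : ℝ, 1 ≤ L ∧ ∀ (N : ℕ) (U : Finset ℕ) (G : ℕ → ℝ),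
    U ⊆ range (N + 1) → 2 * h ≤ U.card → 1 ≤ G 1 → G h ≤ (U.card : ℝ) ^ h / (L * (N + 1)) →
    ∃ i, 2 ≤ i ∧ i ≤ h ∧ δ * (U.card : ℝ) ^ i ≤ (richPart (Fm U G i) (G i)).card

/-- STEP: one step of the iteration -/
def S_step : Prop := ∀ h k : ℕ, 2 ≤ h → 1 ≤ k →
  ∃ δ : ℝ, 0 < δ ∧ δ ≤ 1 ∧ ∃ c : ℝ, 0 < c ∧ ∃ η : ℝ, 0 < η ∧ η ≤ 1 ∧ ∃ y : ℝ, 1 ≤ y ∧
  ∃ L : ℝ, 1 ≤ L ∧
    ∀ (N : ℕ) (U : Finset ℕ) (R ρ : ℝ), U ⊆ range (N + 1) →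
      R = (L * (N + 1)) ^ (1 / (h : ℝ)) → 0 < ρ → ρ ≤ 1 →
      R ^ (-(1 / (4 * (k : ℝ) ^ 2 * h))) ≤ ρ → y * (R * ρ ^ (1 / (h : ℝ)) / ρ) ≤ U.card →
      RCov ρ ∅ (fun I => I ⊆ U ∧ FreeH h k I) U
        (Real.exp (c * (R * ρ ^ (1 / (h : ℝ))) *
          (y * (R * ρ ^ (1 / (h : ℝ)) / ρ) / U.card) ^ η)) ((1 - δ) * U.card)

/-- the containers -/
def S_cont : Prop := ∀ h k : ℕ, 2 ≤ h → 1 ≤ k → ∃ C : ℝ, 0 < C ∧ ∀ N : ℕ, 1 ≤ N →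
  ∀ ρ : ℝ, (N : ℝ) ^ (-(1 / (4 * (k : ℝ) ^ 2 * (h : ℝ) ^ 2))) ≤ ρ → ρ ≤ 1 →
    RCov ρ ∅ (fun I => I ⊆ range (N + 1) ∧ FreeH h k I) (range (N + 1))
      (Real.exp (C * (ρ * N) ^ (1 / (h : ℝ)))) (C * (ρ * N) ^ (1 / (h : ℝ)) / ρ)

/-- ITER -/
def S_iter : Prop := S_step → S_cont

/-- the almost sure bound -/
def S_ae : Prop := ∀ h k : ℕ, 2 ≤ h → 1 ≤ k → ∃ C : ℝ, 0 < C ∧
    ∀ (Ω : Type u) [MeasurableSpace Ω] (μ : Measure Ω) [IsProbabilityMeasure μ] (E : ℕ → Set Ω)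
      (p : ℕ → ℝ), Sub μ E p → ∀ (M : ℕ → ℕ) (ϖ : ℕ → ℝ),
      (∀ᶠ N : ℕ in atTop, (N : ℝ) ^ (-(1 / (4 * (k : ℝ) ^ 2 * (h : ℝ) ^ 2))) ≤ ϖ N ∧ ϖ N ≤ 1 / 3 ∧
        ∀ n, M N < n → n ≤ N → p n ≤ ϖ N) →
      ∀ᵐ ω ∂μ, ∀ᶠ N : ℕ in atTop, ∀ B : Finset ℕ, (∀ n ∈ B, M N < n ∧ n ≤ N ∧ ω ∈ E n) →
        FreeH h k B → (B.card : ℝ) < C * (ϖ N * N) ^ (1 / (h : ℝ))

/-- PROB -/
def S_prob : Prop := S_cont → S_ae.{u}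

/-- FORMS -/
def S_forms : Prop :=
  (∀ (A : Set ℕ) (h n : ℕ),
    {s : Multiset ℕ | Multiset.card s = h ∧ (∀ a ∈ s, a ∈ A) ∧ s.sum = n}.Finite) ∧
  (∀ (B : Set ℕ) (h K : ℕ), (∀ n, rep B h n ≤ K) → ∀ I : Finset ℕ, (∀ x ∈ I, x ∈ B) →
    FreeH h (K + 1) I) ∧
  (∀ h K : ℕ, 2 ≤ h → ∃ C : ℝ, 0 < C ∧ ∀ B : Set ℕ, (∀ n, rep B h n ≤ K) → ∀ M : ℕ,
    count B M ≤ C * ((M : ℝ) + 1) ^ (1 / (h : ℝ))) ∧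
  (∀ (B : Set ℕ) (h : ℕ), 2 ≤ h → (∀ᶠ n in atTop, 1 ≤ rep B h n) →
    ∀ᶠ N : ℕ in atTop, 1 / 2 * (N : ℝ) ^ (1 / (h : ℝ)) ≤ count B N) ∧
  (∀ (B : Set ℕ) (h : ℕ), 2 ≤ h → (∀ᶠ n in atTop, 1 ≤ Pool.Agent.Y940.RS.rep B n) →
    ∀ᶠ n in atTop, 1 ≤ rep B h n)

/-- LEVEL -/
def S_level : Prop :=
  ∀ (Ω : Type u) [MeasurableSpace Ω] (μ : Measure Ω) [IsProbabilityMeasure μ] (E : ℕ → Set Ω),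
    (∀ n, MeasurableSet (E n)) → iIndepSet E μ → ∀ h : ℕ, 2 ≤ h → ∀ ε : ℝ, 0 < ε →
    (∀ K, ∃ n, K < rep {n | ε ≤ μ.real (E n)} h n) →
    ∀ K, μ {ω | ∀ n, rep (rset E ω) h n ≤ K} = 0

end Pool.Agent.Y940.CH
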