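import Pool.Agent.Y940.CH.Forms
import Pool.Agent.Y940.RS.Basis
/-!
# Derandomization for bases of order `h`: statements
-/

set_option autoImplicit false

open Finset Filter MeasureTheory ProbabilityTheory

namespace Pool.Agent.Y940.CH

open Pool.Agent.Y940.RS (rset)

universe u

/-- the multisets with `i` elements and sum `σ` -/
noncomputable def MM (i σ : ℕ) : Finset (Multiset ℕ) := (Forms.fin_reps Set.univ i σ).toFinset

theorem mem_MM {i σ : ℕ} {s : Multiset ℕ} : s ∈ MM i σ ↔ Multiset.card s = i ∧ s.sum = σ := by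
  unfold MM
  rw [Set.Finite.mem_toFinset]
  constructor
  · rintro ⟨h1, _, h2⟩
    exact ⟨h1, h2⟩
  · rintro ⟨h1, h2⟩
    exact ⟨h1, fun a _ => Set.mem_univ a, h2⟩

/-- the mean number of the representations of `σ` as a sum of `i` elements, if the probabilities are
`p` -/
noncomputable def lam (p : ℕ → ℝ) (i σ : ℕ) : ℝ := ∑ s ∈ MM i σ, ∏ a ∈ s.toFinset, p a

/-- MEAN: bounded means -/
def S_mean : Prop := ∀ h K : ℕ, ∃ H : ℝ, 0 < H ∧
  ∀ (Ω : Type u) [MeasurableSpace Ω] (μ : Measure Ω) [IsProbabilityMeasure μ] (E : ℕ → Set Ω),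
    (∀ n, MeasurableSet (E n)) → iIndepSet E μ →
    1 / 2 ≤ μ.real {ω | ∀ n, rep (rset E ω) h n ≤ K} →
    ∀ n, lam (fun a => μ.real (E a)) h n ≤ H

/-- HARRIS -/
def S_harris : Prop :=
  ∀ (Ω : Type u) [MeasurableSpace Ω] (μ : Measure Ω) [IsProbabilityMeasure μ] (E : ℕ → Set Ω),
    (∀ n, MeasurableSet (E n)) → iIndepSet E μ →
    ∀ J : Finset (Multiset ℕ), ∏ s ∈ J, (1 - ∏ a ∈ s.toFinset, μ.real (E a)) ≤
      μ.real {ω | ∀ s ∈ J, ∃ a ∈ s, ω ∉ E a}

open Classical in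
/-- the events after the elements up to `N` have been fixed -/
def fixed {Ω : Type u} (E : ℕ → Set Ω) (N : ℕ) (A : Finset ℕ) (a : ℕ) : Set Ω :=
  if a ≤ N then (if a ∈ A then Set.univ else ∅) else E a

/-- CYL: conditioning on a finite part of the random set -/
def S_cyl : Prop :=
  ∀ (Ω : Type u) [MeasurableSpace Ω] (μ : Measure Ω) [IsProbabilityMeasure μ] (E : ℕ → Set Ω),
    (∀ n, MeasurableSet (E n)) → iIndepSet E μ →
    ∀ P : ℕ → Set ℕ → Prop,
      (∀ (N : ℕ) (B B' : Set ℕ), (∀ a, a ≤ N → (a ∈ B ↔ a ∈ B')) → P N B → P N B') →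
      0 < μ {ω | ∀ N, P N (rset E ω)} → ∀ η : ℝ, 0 < η →
      ∃ (N : ℕ) (A : Finset ℕ), (∀ a ∈ A, 0 < μ.real (E a)) ∧
        (∀ n, MeasurableSet (fixed E N A n)) ∧ iIndepSet (fixed E N A) μ ∧
        1 - η < μ.real {ω | ∀ N', P N' (rset (fixed E N A) ω)}

end Pool.Agent.Y940.CH
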